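import Pool.Agent.H979R2.P2.Stubs

/-! BDC: the number of unions of at most `k` intervals. -/

set_option autoImplicit false

namespace Pool.Agent.H979R2.P2

open Finset

/-- the boundary of a set -/
def bdc_bd (N : ℕ) (T : Finset ℕ) : Finset ℕ :=
  (range (N + 1)).filter (fun i => ¬ (i ∈ T ↔ (1 ≤ i ∧ i - 1 ∈ T)))

theorem bdc_inj (N : ℕ) {T T' : Finset ℕ} (hT : T ⊆ range N) (hT' : T' ⊆ range N)
    (h : bdc_bd N T = bdc_bd N T') : T = T' := by
  have key : ∀ i, i ≤ N → (i ∈ T ↔ i ∈ T') := by
    intro i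
    induction i with
    | zero =>
      intro _
      have h1 : 0 ∈ bdc_bd N T ↔ 0 ∈ bdc_bd N T' := by rw [h]
      unfold bdc_bd at h1
      rw [Finset.mem_filter, Finset.mem_filter] at h1
      simp only [Finset.mem_range] at h1
      have h2 : (0 : ℕ) < N + 1 := by omega
      simp only [h2, true_and] at h1
      have h3 : ¬ (1 ≤ 0 ∧ 0 - 1 ∈ T) := by omega
      have h4 : ¬ (1 ≤ 0 ∧ 0 - 1 ∈ T') := by omega
      tauto
    | succ i ih =>
      intro hi
      have h0 := ih (by omega)
      have h1 : i + 1 ∈ bdc_bd N T ↔ i + 1 ∈ bdc_bd N T' := by rw [h]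
      unfold bdc_bd at h1
      rw [Finset.mem_filter, Finset.mem_filter] at h1
      simp only [Finset.mem_range] at h1
      have h2 : i + 1 < N + 1 := by omega
      have h3 : (1 ≤ i + 1) := by omega
      simp only [h2, h3, true_and, Nat.add_sub_cancel] at h1
      tauto
  ext i
  rcases Nat.lt_or_ge i (N + 1) with hi | hi
  · exact key i (by omega)
  · constructor
    · intro hm
      have := Finset.mem_range.mp (hT hm)
      omega
    · intro hm
      have := Finset.mem_range.mp (hT' hm)
      omega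

theorem bdc_card (N k : ℕ) {I : Finset (ℕ × ℕ)} (hI : I.card ≤ k) :
    (bdc_bd N (cov I)).card ≤ 2 * k := by
  have h1 : bdc_bd N (cov I) ⊆ I.image Prod.fst ∪ I.image Prod.snd := by
    intro i hi
    unfold bdc_bd at hi
    rw [Finset.mem_filter] at hi
    obtain ⟨_, hi⟩ := hi
    rw [Finset.mem_union, Finset.mem_image, Finset.mem_image]
    by_cases hin : i ∈ cov I
    · left
      have h2 : ¬ (1 ≤ i ∧ i - 1 ∈ cov I) := by tauto
      unfold cov at hin
      rw [Finset.mem_biUnion] at hin
      obtain ⟨y, hy, hiy⟩ := hin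
      rw [Finset.mem_Ico] at hiy
      refine ⟨y, hy, ?_⟩
      by_contra hne
      apply h2
      refine ⟨by omega, ?_⟩
      unfold cov
      rw [Finset.mem_biUnion]
      exact ⟨y, hy, by rw [Finset.mem_Ico]; omega⟩
    · right
      have h2 : (1 ≤ i ∧ i - 1 ∈ cov I) := by tauto
      obtain ⟨h3, h4⟩ := h2
      unfold cov at h4
      rw [Finset.mem_biUnion] at h4
      obtain ⟨y, hy, hiy⟩ := h4
      rw [Finset.mem_Ico] at hiy
      refine ⟨y, hy, ?_⟩
      by_contra hne
      apply hin
      unfold cov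
      rw [Finset.mem_biUnion]
      exact ⟨y, hy, by rw [Finset.mem_Ico]; omega⟩
  calc (bdc_bd N (cov I)).card ≤ (I.image Prod.fst ∪ I.image Prod.snd).card :=
        Finset.card_le_card h1
    _ ≤ (I.image Prod.fst).card + (I.image Prod.snd).card := Finset.card_union_le _ _
    _ ≤ I.card + I.card := Nat.add_le_add Finset.card_image_le Finset.card_image_le
    _ ≤ 2 * k := by omega

theorem p_BDC : St_BDC := by
  classical
  intro N k x TT hx0 hx1 hTT
  have hsub : TT.card ≤ ((range (N + 1)).powerset.filter (fun B => B.card ≤ 2 * k)).card := by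
    refine Finset.card_le_card_of_injOn (bdc_bd N) ?_ ?_
    · intro T hT
      rw [Finset.mem_coe] at hT
      obtain ⟨_, I, hI, rfl⟩ := hTT T hT
      rw [Finset.mem_coe, Finset.mem_filter, Finset.mem_powerset]
      exact ⟨Finset.filter_subset _ _, bdc_card N k hI⟩
    · intro T hT T' hT' h
      rw [Finset.mem_coe] at hT hT'
      exact bdc_inj N (hTT T hT).1 (hTT T' hT').1 h
  have hsum : (((range (N + 1)).powerset.filter (fun B => B.card ≤ 2 * k)).card : ℝ) * x ^ (2 * k) ≤
      (1 + x) ^ (N + 1) := by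
    have h1 : (∑ B ∈ (range (N + 1)).powerset, x ^ B.card) = (1 + x) ^ (N + 1) := by
      have := Finset.sum_pow_mul_eq_add_pow x 1 (range (N + 1))
      simp only [one_pow, mul_one, Finset.card_range] at this
      rw [this, add_comm]
    rw [← h1, ← nsmul_eq_mul, ← Finset.sum_const]
    refine (Finset.sum_le_sum (g := fun B => x ^ B.card) ?_).trans
      (Finset.sum_le_sum_of_subset_of_nonneg (Finset.filter_subset _ _) ?_)
    · intro B hB
      rw [Finset.mem_filter] at hB
      exact pow_le_pow_of_le_one hx0.le hx1 hB.2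
    · intro B _ _
      positivity
  have hxk : 0 < x ^ (2 * k) := by positivity
  have h3 : (TT.card : ℝ) * x ^ (2 * k) ≤ (1 + x) ^ (N + 1) := by
    refine le_trans ?_ hsum
    refine mul_le_mul_of_nonneg_right ?_ hxk.le
    exact_mod_cast hsub
  rw [inv_pow, inv_mul_eq_div, le_div_iff₀ hxk]
  exact h3

end Pool.Agent.H979R2.P2
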