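import Pool.Agent.H979R2.P2.Stubs

/-! Task CVR of the almost power law: the deterministic covering. -/

set_option autoImplicit false

namespace Pool.Agent.H979R2.P2

open Finset
open Pool.Agent.H725R2.SB
open Pool.Agent.H979R2.NP (NCd hit D0 Yb)

theorem p_CVR (h_HB2 : St_HB2) (h_WIN : St_WIN) (Fr : Frame (Om 2)) : St_CVR Fr := by
  classical
  intro N r w τ M v ξ hv0 hv1 hr hw hM hlow hup hτ hbr hA
  by_cases h1 : 1.455 * v * N ≤ Fr.κ * (lev Fr.B' ξ N : ℝ)
  · exact Or.inl h1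
  right
  by_cases h2 : ∃ I : Finset (ℕ × ℕ), HF (lev Fr.B ξ) N r I ∧
      dl * v * N < (drop (lev Fr.B ξ) I : ℝ)
  · exact Or.inl h2
  right
  push Not at h1 h2
  have hwR : (400 : ℝ) ≤ (w : ℝ) := by
    have : 400 ≤ w := by omega
    exact_mod_cast this
  have hMR : (1000000 : ℝ) ≤ (M : ℝ) := by exact_mod_cast hM
  have hMw : (1000000 * 400 : ℝ) ≤ (M : ℝ) * w := by
    apply mul_le_mul hMR hwR (by norm_num) (by linarith)
  -- relation between the levels
  have hrel : 2 * (lev Fr.A ξ N : ℝ) = (Fr.κ : ℝ) * ((lev Fr.B ξ N : ℝ) + (lev Fr.B' ξ N : ℝ)) := by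
    have := Fr.rel (P ξ N)
    unfold lev
    exact_mod_cast this
  have hB0 : 0 ≤ (lev Fr.B ξ N : ℝ) := by
    rcases Nat.eq_zero_or_pos N with h | h
    · rw [h]; simp
    · have := hbr.pos N h le_rfl
      exact_mod_cast this.le
  have hκ1 : (Fr.κ : ℝ) ≤ 2 := by
    rcases Fr.hκ with h | h <;> rw [h] <;> norm_num
  have hBN : 0.27 * (v * N) ≤ (lev Fr.B ξ N : ℝ) := by
    have e1 : (Fr.κ : ℝ) * (lev Fr.B ξ N : ℝ) ≤ 2 * (lev Fr.B ξ N : ℝ) :=
      mul_le_mul_of_nonneg_right hκ1 hB0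
    have e2 : (Fr.κ : ℝ) * (lev Fr.B ξ N : ℝ) = 2 * (lev Fr.A ξ N : ℝ) -
      (Fr.κ : ℝ) * (lev Fr.B' ξ N : ℝ) := by rw [hrel]; ring
    have e3 : (8000000000 : ℝ) ≤ v * N := by
      have : (M : ℝ) * (20 * w) = 20 * ((M : ℝ) * w) := by ring
      rw [this] at hlow
      linarith
    have e4 : 1.455 * v * (N : ℝ) = 1.455 * (v * N) := by ring
    rw [e4] at h1
    linarith
  have hlip : ∀ i, |lev Fr.B ξ (i + 1) - lev Fr.B ξ i| ≤ 1 := lev_lip Fr.B hbr.saw
  have hz : lev Fr.B ξ 0 = 0 := lev_zero _ _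
  have hWin := h_WIN (lev Fr.B ξ) hlip hz N r w τ M hr (by omega) hM
  have c1 : 27 * (w : ℤ) * M ≤ 5 * lev Fr.B ξ N := by
    have : (27 * (w : ℝ) * M) ≤ 5 * (lev Fr.B ξ N : ℝ) := by
      have : (M : ℝ) * (20 * w) = 20 * ((M : ℝ) * w) := by ring
      rw [this] at hlow
      have : 27 * (w : ℝ) * M = 27 * ((M : ℝ) * w) := by ring
      rw [this]
      linarith
    exact_mod_cast this
  have c2 : 80 * N ≤ M * τ := by
    have : (80 * (N : ℝ)) ≤ (M : ℝ) * τ := by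
      have e1 : v * (80 * (N : ℝ)) ≤ v * ((M : ℝ) * τ) := by
        have f1 : v * (80 * (N : ℝ)) = 80 * (v * N) := by ring
        have f2 : v * ((M : ℝ) * τ) = M * (v * τ) := by ring
        rw [f1, f2]
        have f3 : (M : ℝ) * (1700 * (w : ℝ)) ≤ M * (v * τ) :=
          mul_le_mul_of_nonneg_left hτ (by linarith)
        have f4 : 80 * (((M : ℝ) + 1) * (20 * w)) ≤ (M : ℝ) * (1700 * (w : ℝ)) := by
          have : 80 * (((M : ℝ) + 1) * (20 * w)) = 1600 * ((M : ℝ) * w) + 1600 * w := by ring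
          rw [this]
          have g1 : (M : ℝ) * (1700 * (w : ℝ)) = 1700 * ((M : ℝ) * w) := by ring
          rw [g1]
          have g2 : 1000000 * (w : ℝ) ≤ (M : ℝ) * w :=
            mul_le_mul_of_nonneg_right hMR (by linarith)
          linarith
        linarith
      exact le_of_mul_le_mul_left e1 hv0
    exact_mod_cast this
  have c3 : ∀ Lm : ℕ, (Lm : ℤ) ≤ lev Fr.B ξ N → 5 * Lm ≤ 27 * w * M →
      1000 * ((Finset.Icc (1 : ℤ) Lm).filter
        (fun p => ¬ Light (lev Fr.B ξ) N r p)).card ≤ w * M := by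
    intro Lm hLm _
    have hh := h_HB2 (lev Fr.B ξ) hlip hz N r Lm hr hLm (dl * v * N) h2
    have e1 : 2 * (dl * v * (N : ℝ)) = 2 / 100000 * (v * N) := by unfold dl; ring
    rw [e1] at hh
    have hh2 : (1000 * (((Finset.Icc (1 : ℤ) Lm).filter
        (fun p => ¬ Light (lev Fr.B ξ) N r p)).card : ℝ)) ≤ (w : ℝ) * M := by
      have f1 : ((M : ℝ) + 1) * (20 * w) = 20 * ((M : ℝ) * w) + 20 * w := by ring
      rw [f1] at hup
      have g2 : 1000000 * (w : ℝ) ≤ (M : ℝ) * w :=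
        mul_le_mul_of_nonneg_right hMR (by linarith)
      have f2 : (w : ℝ) * M = (M : ℝ) * w := by ring
      rw [f2]
      linarith
    exact_mod_cast hh2
  rcases hWin c1 c2 c3 with h | h
  · exact Or.inl h
  · right
    by_cases h4 : M ≤ 1000 * ((Good (lev Fr.B ξ) N w M).filter
        (fun k => dB' Fr N w ξ k ≤ 0)).card
    · exact Or.inl h4
    · right
      refine ⟨h, (Good (lev Fr.B ξ) N w M).filter (fun k => dB' Fr N w ξ k ≤ 0), ?_, ?_⟩
      · intro k
        rw [Finset.mem_filter]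
      · omega

end Pool.Agent.H979R2.P2
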