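import Pool.Agent.H979R2.P2.Stubs
import Pool.Agent.H725R2.SB.TC2
import Pool.Agent.H725R2.SB.TG

/-! Task EXT of Part II: extraction of the blocks of nonpositive displacement. -/

set_option autoImplicit false

namespace Pool.Agent.H979R2.P2

open Finset
open Pool.Agent.H725R2.SB

theorem ext_sub_apply (T : Finset ℕ) (ξ : ℕ → (Fin 2 → ℤ)) {i : ℕ} (hi : i ∈ T) :
    sub T ξ (Nat.count (· ∈ T) i) = ξ i := by
  have hfin : (Set.ofPred (fun j => j ∈ T)).Finite := T.finite_toSet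
  have h1 : Nat.count (· ∈ T) i < T.card := by
    have h2 := Nat.count_lt_card (p := fun j => j ∈ T) hfin hi
    refine lt_of_lt_of_le h2 (Finset.card_le_card ?_)
    intro j hj
    rw [Set.Finite.mem_toFinset] at hj
    exact hj
  unfold sub
  rw [if_pos h1, Nat.nth_count hi]

theorem ext_inj {N : ℕ} {T : Finset ℕ} {ξ η : ℕ → (Fin 2 → ℤ)}
    (hξ : ∀ i, N ≤ i → ξ i = 0) (hη : ∀ i, N ≤ i → η i = 0)
    (h1 : sub T ξ = sub T η) (h2 : sub (range N \ T) ξ = sub (range N \ T) η) : ξ = η := by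
  funext i
  rcases lt_or_ge i N with hi | hi
  · by_cases hT : i ∈ T
    · rw [← ext_sub_apply T ξ hT, h1, ext_sub_apply T η hT]
    · have hT' : i ∈ range N \ T := by rw [mem_sdiff, mem_range]; exact ⟨hi, hT⟩
      rw [← ext_sub_apply _ ξ hT', h2, ext_sub_apply _ η hT']
  · rw [hξ i hi, hη i hi]

theorem ext_sum {a : ℕ → ℤ} {N w n : ℕ} {S : Finset ℕ} (hS : S ⊆ Good a N w n)
    (L : Lev (Om 2)) (ξ : ℕ → (Fin 2 → ℤ)) :
    ∑ i ∈ tG_T a N w S, L.F (ξ i) =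
      ∑ k ∈ S, (lev L ξ (ct a N w (k + 1)) - lev L ξ (ct a N w k)) := by
  classical
  unfold tG_T
  rw [Finset.sum_biUnion]
  · refine Finset.sum_congr rfl (fun k hk => ?_)
    have hg := tG_good_open (hS hk)
    have hle := tG_ct_mono hg.1 hg.2 (Nat.le_succ k)
    rw [← map_sum, ← P_sub_P ξ hle, map_sub]
    rfl
  · intro k hk k' hk' hne
    have hg := tG_good_open (hS hk)
    have hg' := tG_good_open (hS hk')
    rw [Function.onFun, Finset.disjoint_left]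
    intro i hi hi'
    rw [Finset.mem_Ico] at hi hi'
    rcases lt_trichotomy k k' with hl | hl | hl
    · have := tG_ct_mono hg.2 hg'.1 (by omega)
      omega
    · exact hne hl
    · have := tG_ct_mono hg'.2 hg.1 (by omega)
      omega

theorem ext_T_range {a : ℕ → ℤ} {N w n : ℕ} {S : Finset ℕ} (hS : S ⊆ Good a N w n) :
    tG_T a N w S ⊆ range N := by
  intro i hi
  unfold tG_T at hi
  rw [Finset.mem_biUnion] at hi
  obtain ⟨k, hk, hi⟩ := hi
  rw [Finset.mem_Ico] at hi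
  obtain ⟨q, _, _, hq⟩ := tG_ct_spec (tG_good_open (hS hk)).2
  rw [mem_range]
  have := hq.1
  omega

theorem ext_T_cov {a : ℕ → ℤ} {N w n : ℕ} {S : Finset ℕ} (hS : S ⊆ Good a N w n) :
    ∃ I : Finset (ℕ × ℕ), I.card ≤ n ∧ tG_T a N w S = cov I := by
  classical
  refine ⟨S.image (fun k => (ct a N w k, ct a N w (k + 1))), ?_, ?_⟩
  · refine le_trans Finset.card_image_le ?_
    calc S.card ≤ (Good a N w n).card := Finset.card_le_card hS
      _ ≤ (range n).card := by unfold Good; exact Finset.card_filter_le _ _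
      _ = n := Finset.card_range n
  · unfold tG_T cov
    rw [Finset.image_biUnion]

/-- the `B`-displacement of a block is at least `4w` -/
theorem ext_block (L : Lev (Om 2)) {N w n k : ℕ} {ξ : ℕ → (Fin 2 → ℤ)} (h : IsSaw (Om 2) N ξ)
    (hk : k ∈ Good (lev L ξ) N w n) :
    4 * (w : ℤ) ≤ lev L ξ (ct (lev L ξ) N w (k + 1)) - lev L ξ (ct (lev L ξ) N w k) := by
  have hg := tG_good_open hk
  obtain ⟨q, h1, h2, h3⟩ := tG_ct_spec hg.1
  obtain ⟨q', h1', h2', h3'⟩ := tG_ct_spec hg.2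
  rw [Cut.lev_eq (lev_lip L h) h3, Cut.lev_eq (lev_lip L h) h3']
  push_cast at h1'
  nlinarith

/-- the exponential bound for a pair of subwalks -/
theorem ext_exp {N T1 T2 M w : ℕ} {κ b v m h : ℝ} (hv : 0 < v) (hm : 0 < m)
    (hm1 : m ≤ 1) (hκ : 1 ≤ κ) (hT : (T1 : ℝ) + T2 = N) (hM : (1000000 : ℝ) ≤ M)
    (hN2 : v * N < ((M : ℝ) + 1) * (20 * w))
    (hb : 4 * (w : ℝ) * M ≤ 1000 * b) (hh : v * N - 1 - κ * b / 2 ≤ h) :
    -(m / (1.45 * v / κ)) * (b - (1.45 * v / κ) * ((T1 : ℝ) + 1)) +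
      -(m / (lam * v)) * (h - (lam * v) * ((T2 : ℝ) + 1)) ≤
      -(32 / 10 ^ 6 * m * N) + 2 + 1 / v := by
  have hκ0 : 0 < κ := by linarith
  have hlam : (0 : ℝ) < lam := by unfold lam; norm_num
  have e1 : -(m / (1.45 * v / κ)) * (b - (1.45 * v / κ) * ((T1 : ℝ) + 1)) =
      m * ((T1 : ℝ) + 1) - m * (κ * b / (1.45 * v)) := by
    field_simp
    ring
  have e2 : -(m / (lam * v)) * (h - (lam * v) * ((T2 : ℝ) + 1)) =
      m * ((T2 : ℝ) + 1) - m * (h / (lam * v)) := by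
    field_simp
    ring
  rw [e1, e2]
  have e3 : (v * N - 1 - κ * b / 2) / (lam * v) ≤ h / (lam * v) :=
    div_le_div_of_nonneg_right hh (by positivity)
  -- b is large
  have hw0 : (0 : ℝ) ≤ w := Nat.cast_nonneg w
  have hb1 : 199 / 10 ^ 6 * (v * N) ≤ b := by
    have h1 : v * N ≤ (1 + 1 / 10 ^ 6) * ((M : ℝ) * (20 * w)) := by
      have : (M : ℝ) + 1 ≤ (1 + 1 / 10 ^ 6) * M := by linarith
      have := mul_le_mul_of_nonneg_right this (by positivity : (0 : ℝ) ≤ 20 * w)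
      linarith
    have h2 : (M : ℝ) * (20 * w) ≤ 5000 * b := by linarith
    nlinarith
  -- main estimate
  have e4 : 32 / 10 ^ 6 * (N : ℝ) + N - 1 / v ≤
      κ * b / (1.45 * v) + (v * N - 1 - κ * b / 2) / (lam * v) := by
    have hN0 : (0 : ℝ) ≤ N := Nat.cast_nonneg N
    have hinv1 : 1 / lam ≤ 1 := by
      rw [div_le_one hlam]; unfold lam; norm_num
    have hinv2 : 1 - 1 / 200000 ≤ 1 / lam := by
      rw [le_div_iff₀ hlam]; unfold lam; norm_num
    have e5 : κ * b / (1.45 * v) + (v * N - 1 - κ * b / 2) / (lam * v) =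
        (κ * (b / v)) * (1 / 1.45 - 1 / 2 * (1 / lam)) + (1 / lam) * N - (1 / lam) * (1 / v) := by
      field_simp
      ring
    rw [e5]
    have hbv : 199 / 10 ^ 6 * (N : ℝ) ≤ κ * (b / v) := by
      have h1 : 199 / 10 ^ 6 * (N : ℝ) ≤ b / v := by
        rw [le_div_iff₀ hv]; linarith
      have h2 : 0 ≤ b / v := le_trans (by positivity) h1
      nlinarith
    have h3 : (1 / lam) * (1 / v) ≤ 1 * (1 / v) :=
      mul_le_mul_of_nonneg_right hinv1 (by positivity)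
    have h4 : (1 - 1 / 200000) * (N : ℝ) ≤ (1 / lam) * N :=
      mul_le_mul_of_nonneg_right hinv2 hN0
    have h5 : (189 : ℝ) / 1000 ≤ 1 / 1.45 - 1 / 2 * (1 / lam) := by
      have : (1 : ℝ) / 1.45 - 1 / 2 * 1 ≤ 1 / 1.45 - 1 / 2 * (1 / lam) := by linarith
      refine le_trans ?_ this
      norm_num
    have h6 : 199 / 10 ^ 6 * (N : ℝ) * (189 / 1000) ≤
        (κ * (b / v)) * (1 / 1.45 - 1 / 2 * (1 / lam)) :=
      mul_le_mul hbv h5 (by norm_num) (le_trans (by positivity) hbv)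
    linarith
  have e6 : m * (32 / 10 ^ 6 * (N : ℝ) + N - 1 / v) ≤
      m * (κ * b / (1.45 * v) + h / (lam * v)) :=
    mul_le_mul_of_nonneg_left (by linarith) hm.le
  have e7 : m * (1 / v) ≤ 1 / v := by
    have : 0 < 1 / v := by positivity
    nlinarith
  have e8 : m * ((T1 : ℝ) + 1) + m * ((T2 : ℝ) + 1) = m * N + 2 * m := by
    rw [← hT]; ring
  nlinarith

/-- the number of pairs of subwalks -/
theorem ext_pair (Fr : Frame (Om 2)) {N T1 T2 M w : ℕ} {v m : ℝ} {b h : ℤ} (hv : 0 < v)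
    (hm : 0 < m) (hm1 : m ≤ 1) (hT : T1 + T2 = N) (hM : 1000000 ≤ M)
    (hN2 : v * N < ((M : ℝ) + 1) * (20 * w))
    (hb : 4 * (w : ℝ) * M ≤ 1000 * (b : ℝ)) (hh : v * N - 1 - Fr.κ * (b : ℝ) / 2 ≤ (h : ℝ))
    (hA : Fo Fr.A (lam * v) m) (hB : Fo Fr.B (1.45 * v / Fr.κ) m) :
    (cge Fr.B T1 b : ℝ) * (cge Fr.A T2 h : ℝ) ≤
      Real.exp (50 * (N : ℝ) ^ (3 / 4 : ℝ)) * mu (Om 2) ^ (N + 2) *
        Real.exp (-(32 / 10 ^ 6 * m * N) + 2 + 1 / v) := by
  have hmu : 0 < mu (Om 2) := lt_of_lt_of_le one_pos (one_le_mu Fr.A)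
  have hTN : (T1 : ℝ) + T2 = N := by exact_mod_cast hT
  have hκ : (1 : ℝ) ≤ (Fr.κ : ℝ) := by
    rcases Fr.hκ with h | h <;> rw [h] <;> norm_num
  have h1 : (cge Fr.B T1 b : ℝ) ≤ Real.exp (25 * (N : ℝ) ^ (3 / 4 : ℝ)) *
      (mu (Om 2) ^ (T1 + 1) *
        Real.exp (-(m / (1.45 * v / Fr.κ)) * (b - (1.45 * v / Fr.κ) * ((T1 : ℝ) + 1)))) := by
    refine (cge_le Fr.B T1 b).trans (mul_le_mul ?_ ?_ (by positivity) (by positivity))
    · apply Real.exp_le_exp.mpr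
      apply mul_le_mul_of_nonneg_left _ (by norm_num)
      apply Real.rpow_le_rpow (by positivity) _ (by norm_num)
      have : (0 : ℝ) ≤ T2 := Nat.cast_nonneg _
      linarith
    · have := hB (T1 + 1) b
      push_cast at this
      exact this
  have h2 : (cge Fr.A T2 h : ℝ) ≤ Real.exp (25 * (N : ℝ) ^ (3 / 4 : ℝ)) *
      (mu (Om 2) ^ (T2 + 1) *
        Real.exp (-(m / (lam * v)) * (h - (lam * v) * ((T2 : ℝ) + 1)))) := by
    refine (cge_le Fr.A T2 h).trans (mul_le_mul ?_ ?_ (by positivity) (by positivity))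
    · apply Real.exp_le_exp.mpr
      apply mul_le_mul_of_nonneg_left _ (by norm_num)
      apply Real.rpow_le_rpow (by positivity) _ (by norm_num)
      have : (0 : ℝ) ≤ T1 := Nat.cast_nonneg _
      linarith
    · have := hA (T2 + 1) h
      push_cast at this
      exact this
  refine (mul_le_mul h1 h2 (by positivity) (by positivity)).trans ?_
  have e1 : Real.exp (25 * (N : ℝ) ^ (3 / 4 : ℝ)) *
      (mu (Om 2) ^ (T1 + 1) *
        Real.exp (-(m / (1.45 * v / Fr.κ)) * (b - (1.45 * v / Fr.κ) * ((T1 : ℝ) + 1)))) *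
      (Real.exp (25 * (N : ℝ) ^ (3 / 4 : ℝ)) *
      (mu (Om 2) ^ (T2 + 1) *
        Real.exp (-(m / (lam * v)) * (h - (lam * v) * ((T2 : ℝ) + 1))))) =
      Real.exp (50 * (N : ℝ) ^ (3 / 4 : ℝ)) * mu (Om 2) ^ (N + 2) *
      Real.exp (-(m / (1.45 * v / Fr.κ)) * (b - (1.45 * v / Fr.κ) * ((T1 : ℝ) + 1)) +
        -(m / (lam * v)) * (h - (lam * v) * ((T2 : ℝ) + 1))) := by
    rw [Real.exp_add]
    have e2 : Real.exp (50 * (N : ℝ) ^ (3 / 4 : ℝ)) =
        Real.exp (25 * (N : ℝ) ^ (3 / 4 : ℝ)) * Real.exp (25 * (N : ℝ) ^ (3 / 4 : ℝ)) := by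
      rw [← Real.exp_add]; ring_nf
    have e3 : mu (Om 2) ^ (N + 2) = mu (Om 2) ^ (T1 + 1) * mu (Om 2) ^ (T2 + 1) := by
      rw [← pow_add]
      congr 1
      omega
    rw [e2, e3]
    ring
  rw [e1]
  refine mul_le_mul_of_nonneg_left (Real.exp_le_exp.mpr ?_) (by positivity)
  exact ext_exp hv hm hm1 hκ hTN (by exact_mod_cast hM) hN2 hb hh

/-- the entropy of the set of times -/
theorem ext_entropy {N r w M : ℕ} {v m : ℝ} (hv : 0 < v) (hm : 0 < m)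
    (hm1 : m ≤ 1) (hrw : 400 * r ≤ w) (hN1 : (M : ℝ) * (20 * w) ≤ v * N) (hr : 1 ≤ r)
    (hlog : 16 * v * Real.log (10 ^ 7 / m) ≤ m * r) :
    ((m / 10 ^ 7)⁻¹) ^ (2 * M) * (1 + m / 10 ^ 7) ^ (N + 1) ≤
      Real.exp (17 / 10 ^ 6 * m * N + 1) := by
  have hN0 : (0 : ℝ) ≤ N := Nat.cast_nonneg N
  have hM0 : (0 : ℝ) ≤ M := Nat.cast_nonneg M
  have h1 : ((m / 10 ^ 7)⁻¹) ^ (2 * M) = Real.exp (2 * M * Real.log (10 ^ 7 / m)) := by
    rw [inv_div]
    have : Real.exp (2 * M * Real.log (10 ^ 7 / m)) =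
        Real.exp (Real.log (10 ^ 7 / m)) ^ (2 * M) := by
      rw [← Real.exp_nat_mul]
      push_cast
      ring_nf
    rw [this, Real.exp_log (by positivity)]
  have h2 : (1 + m / 10 ^ 7) ^ (N + 1) ≤ Real.exp (m / 10 ^ 7 * (N + 1)) := by
    have h3 : 1 + m / 10 ^ 7 ≤ Real.exp (m / 10 ^ 7) := by
      have := Real.add_one_le_exp (m / 10 ^ 7)
      linarith
    calc (1 + m / 10 ^ 7) ^ (N + 1) ≤ (Real.exp (m / 10 ^ 7)) ^ (N + 1) :=
          pow_le_pow_left₀ (by positivity) h3 _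
      _ = Real.exp (m / 10 ^ 7 * (N + 1)) := by
          rw [← Real.exp_nat_mul]
          push_cast
          ring_nf
  rw [h1]
  refine (mul_le_mul_of_nonneg_left h2 (by positivity)).trans ?_
  rw [← Real.exp_add]
  apply Real.exp_le_exp.mpr
  have hr1 : (1 : ℝ) ≤ r := by exact_mod_cast hr
  have hrw' : 400 * (r : ℝ) ≤ w := by exact_mod_cast hrw
  -- M * r ≤ v N / 8000
  have h4 : 8000 * ((M : ℝ) * r) ≤ v * N := by
    have : (M : ℝ) * (20 * (400 * r)) ≤ (M : ℝ) * (20 * w) :=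
      mul_le_mul_of_nonneg_left (by linarith) hM0
    linarith
  have h5 : (M : ℝ) * (16 * v * Real.log (10 ^ 7 / m)) ≤ M * (m * r) :=
    mul_le_mul_of_nonneg_left hlog hM0
  have h6 : v * (2 * M * Real.log (10 ^ 7 / m)) ≤ v * (m * N / 64000) := by
    have h7 : m * (8000 * ((M : ℝ) * r)) ≤ m * (v * N) := mul_le_mul_of_nonneg_left h4 hm.le
    linarith
  have h8 : 2 * M * Real.log (10 ^ 7 / m) ≤ m * N / 64000 := le_of_mul_le_mul_left h6 hv
  have h9 : 0 ≤ m * N := by positivity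
  nlinarith

open scoped Classical in
theorem p_EXT (Fr : Frame (Om 2)) (h_SUB : St_SUB) (h_BDC : St_BDC) : St_EXT Fr := by
  intro N r w M v m hv hv1 hm hm1 hr hrw hM hN1 hN2 hA hB hlog
  set X := (SawSet (Om 2) N).filter (fun ξ => v * N - 1 ≤ (lev Fr.A ξ N : ℝ) ∧
    M ≤ 1000 * ((Good (lev Fr.B ξ) N w M).filter (fun k => dB' Fr N w ξ k ≤ 0)).card) with hX
  have hmu : 0 < mu (Om 2) := lt_of_lt_of_le one_pos (one_le_mu Fr.A)
  let K : (ℕ → (Fin 2 → ℤ)) → Finset ℕ := fun ξ =>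
    (Good (lev Fr.B ξ) N w M).filter (fun k => dB' Fr N w ξ k ≤ 0)
  let TT : (ℕ → (Fin 2 → ℤ)) → Finset ℕ := fun ξ => tG_T (lev Fr.B ξ) N w (K ξ)
  let bb : (ℕ → (Fin 2 → ℤ)) → ℤ := fun ξ => ∑ i ∈ TT ξ, Fr.B.F (ξ i)
  have hKS : ∀ ξ, K ξ ⊆ Good (lev Fr.B ξ) N w M := fun ξ => Finset.filter_subset _ _
  have hTr : ∀ ξ, TT ξ ⊆ range N := fun ξ => ext_T_range (hKS ξ)
  -- properties of b
  have hbb1 : ∀ ξ ∈ X, 4 * (w : ℝ) * M ≤ 1000 * (bb ξ : ℝ) := by
    intro ξ hξ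
    rw [hX, Finset.mem_filter, mem_SawSet] at hξ
    obtain ⟨hs, h1, h2⟩ := hξ
    have h3 : (K ξ).card * (4 * (w : ℤ)) ≤ bb ξ := by
      show _ ≤ ∑ i ∈ tG_T (lev Fr.B ξ) N w (K ξ), Fr.B.F (ξ i)
      rw [ext_sum (hKS ξ) Fr.B ξ, ← nsmul_eq_mul]
      refine Finset.card_nsmul_le_sum _ _ _ (fun k hk => ?_)
      exact ext_block Fr.B hs (hKS ξ hk)
    have h4 : ((K ξ).card : ℝ) * (4 * (w : ℝ)) ≤ (bb ξ : ℝ) := by exact_mod_cast h3
    have h5 : (M : ℝ) ≤ 1000 * ((K ξ).card : ℝ) := by exact_mod_cast h2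
    have hw0 : (0 : ℝ) ≤ w := Nat.cast_nonneg w
    nlinarith
  have hbb2 : ∀ ξ ∈ X, bb ξ ≤ N := by
    intro ξ hξ
    rw [hX, Finset.mem_filter, mem_SawSet] at hξ
    obtain ⟨hs, h1, h2⟩ := hξ
    calc bb ξ ≤ ∑ i ∈ TT ξ, (1 : ℤ) := by
          refine Finset.sum_le_sum (fun i hi => ?_)
          have hiN := Finset.mem_range.mp (hTr ξ hi)
          exact (abs_le.mp (Fr.B.le_one _ (hs.step i hiN))).2
      _ = (TT ξ).card := by simp
      _ ≤ N := by
          have := Finset.card_le_card (hTr ξ)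
          rw [Finset.card_range] at this
          exact_mod_cast this
  have hbA : ∀ ξ ∈ X, v * N - 1 - Fr.κ * (bb ξ : ℝ) / 2 ≤
      ((∑ i ∈ range N \ TT ξ, Fr.A.F (ξ i) : ℤ) : ℝ) := by
    intro ξ hξ
    rw [hX, Finset.mem_filter, mem_SawSet] at hξ
    obtain ⟨hs, h1, h2⟩ := hξ
    have h3 : ∑ i ∈ range N \ TT ξ, Fr.A.F (ξ i) + ∑ i ∈ TT ξ, Fr.A.F (ξ i) = lev Fr.A ξ N := by
      rw [Finset.sum_sdiff (hTr ξ)]
      unfold lev P
      rw [map_sum]
    have h4 : 2 * ∑ i ∈ TT ξ, Fr.A.F (ξ i) =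
        Fr.κ * (bb ξ + ∑ i ∈ TT ξ, Fr.B'.F (ξ i)) := by
      show _ = Fr.κ * (∑ i ∈ TT ξ, Fr.B.F (ξ i) + ∑ i ∈ TT ξ, Fr.B'.F (ξ i))
      rw [← Finset.sum_add_distrib, Finset.mul_sum, Finset.mul_sum]
      exact Finset.sum_congr rfl (fun i _ => Fr.rel _)
    have h5 : ∑ i ∈ TT ξ, Fr.B'.F (ξ i) ≤ 0 := by
      show ∑ i ∈ tG_T (lev Fr.B ξ) N w (K ξ), Fr.B'.F (ξ i) ≤ 0
      rw [ext_sum (hKS ξ) Fr.B' ξ]
      refine Finset.sum_nonpos (fun k hk => ?_)
      exact (Finset.mem_filter.mp hk).2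
    have hκ : (1 : ℤ) ≤ Fr.κ := by
      rcases Fr.hκ with h | h <;> rw [h] <;> norm_num
    have h6 : 2 * ∑ i ∈ TT ξ, Fr.A.F (ξ i) ≤ Fr.κ * bb ξ := by
      rw [h4]
      nlinarith
    have h7 : (2 : ℝ) * ((∑ i ∈ TT ξ, Fr.A.F (ξ i) : ℤ) : ℝ) ≤ Fr.κ * (bb ξ : ℝ) := by
      exact_mod_cast h6
    have h8 : ((∑ i ∈ range N \ TT ξ, Fr.A.F (ξ i) : ℤ) : ℝ) +
        ((∑ i ∈ TT ξ, Fr.A.F (ξ i) : ℤ) : ℝ) = (lev Fr.A ξ N : ℝ) := by
      exact_mod_cast h3
    linarith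
  -- subwalks
  have hcut : ∀ ξ ∈ X, ∀ i, i + 1 < N → ¬ (i ∈ TT ξ ↔ i + 1 ∈ TT ξ) →
      ∃ q, Cut (lev Fr.B ξ) N q (i + 1) := fun ξ _ i _ h => tG_change (hKS ξ) h
  have hsub1 : ∀ ξ ∈ X, IsSaw (Om 2) (TT ξ).card (sub (TT ξ) ξ) ∧
      P (sub (TT ξ) ξ) (TT ξ).card = ∑ i ∈ TT ξ, ξ i := by
    intro ξ hξ
    have hs : IsSaw (Om 2) N ξ := by
      rw [hX, Finset.mem_filter, mem_SawSet] at hξ
      exact hξ.1
    exact h_SUB Fr.B N ξ (TT ξ) hs (hTr ξ) (hcut ξ hξ)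
  have hsub2 : ∀ ξ ∈ X, IsSaw (Om 2) (range N \ TT ξ).card (sub (range N \ TT ξ) ξ) ∧
      P (sub (range N \ TT ξ) ξ) (range N \ TT ξ).card = ∑ i ∈ range N \ TT ξ, ξ i := by
    intro ξ hξ
    have hs : IsSaw (Om 2) N ξ := by
      rw [hX, Finset.mem_filter, mem_SawSet] at hξ
      exact hξ.1
    refine h_SUB Fr.B N ξ (range N \ TT ξ) hs Finset.sdiff_subset ?_
    intro i hi hne
    refine hcut ξ hξ i hi (fun h => hne ?_)
    rw [Finset.mem_sdiff, Finset.mem_sdiff, Finset.mem_range, Finset.mem_range, h]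
    constructor
    · rintro ⟨_, h2⟩
      exact ⟨hi, h2⟩
    · rintro ⟨_, h2⟩
      exact ⟨by omega, h2⟩
  -- the fibres
  set Bd : ℝ := Real.exp (50 * (N : ℝ) ^ (3 / 4 : ℝ)) * mu (Om 2) ^ (N + 2) *
        Real.exp (-(32 / 10 ^ 6 * m * N) + 2 + 1 / v) with hBd
  have hBd0 : 0 ≤ Bd := by rw [hBd]; positivity
  have hfib : ∀ (T : Finset ℕ) (b : ℤ),
      ((X.filter (fun ξ => (TT ξ, bb ξ) = (T, b))).card : ℝ) ≤ Bd := by
    intro T b
    rcases (X.filter (fun ξ => (TT ξ, bb ξ) = (T, b))).eq_empty_or_nonempty with he | ⟨ξ₀, hξ₀⟩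
    · rw [he]
      simpa using hBd0
    · rw [Finset.mem_filter, Prod.mk.injEq] at hξ₀
      obtain ⟨hX0, hT0, hb0⟩ := hξ₀
      have hTN : T ⊆ range N := hT0 ▸ hTr ξ₀
      have hcard : T.card + (range N \ T).card = N := by
        rw [Finset.card_sdiff_of_subset hTN, Finset.card_range]
        have := Finset.card_le_card hTN
        rw [Finset.card_range] at this
        omega
      have hb1 := hbb1 ξ₀ hX0
      rw [hb0] at hb1
      set h : ℤ := ⌈v * N - 1 - Fr.κ * (b : ℝ) / 2⌉ with hh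
      have hhle : v * N - 1 - Fr.κ * (b : ℝ) / 2 ≤ (h : ℝ) := Int.le_ceil _
      refine le_trans ?_ (ext_pair Fr hv hm hm1 hcard hM hN2 hb1 hhle hA hB)
      have hc : (X.filter (fun ξ => (TT ξ, bb ξ) = (T, b))).card ≤
          cge Fr.B T.card b * cge Fr.A (range N \ T).card h := by
        unfold cge
        rw [← Finset.card_product]
        refine Finset.card_le_card_of_injOn (fun ξ => (sub T ξ, sub (range N \ T) ξ)) ?_ ?_
        · intro ξ hξ
          rw [Finset.mem_coe, Finset.mem_filter, Prod.mk.injEq] at hξ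
          obtain ⟨hξX, hT, hb⟩ := hξ
          have hs1 := hsub1 ξ hξX
          have hs2 := hsub2 ξ hξX
          have hA1 := hbA ξ hξX
          rw [hT] at hs1 hs2 hA1
          rw [hb] at hA1
          rw [Finset.mem_coe, Finset.mem_product]
          simp only [Finset.mem_filter, mem_SawSet]
          refine ⟨⟨hs1.1, ?_⟩, ⟨hs2.1, ?_⟩⟩
          · unfold lev
            rw [hs1.2, map_sum]
            have : bb ξ = ∑ i ∈ T, Fr.B.F (ξ i) := by rw [← hT]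
            rw [← this, hb]
          · unfold lev
            rw [hs2.2, map_sum]
            exact Int.ceil_le.mpr hA1
        · intro ξ hξ η hη heq
          rw [Finset.mem_coe, Finset.mem_filter] at hξ hη
          simp only [Prod.mk.injEq] at heq
          have hξs : IsSaw (Om 2) N ξ := by
            have := hξ.1
            rw [hX, Finset.mem_filter, mem_SawSet] at this
            exact this.1
          have hηs : IsSaw (Om 2) N η := by
            have := hη.1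
            rw [hX, Finset.mem_filter, mem_SawSet] at this
            exact this.1
          exact ext_inj hξs.zero hηs.zero heq.1 heq.2
      exact_mod_cast hc
  -- summation
  have hmaps : ∀ ξ ∈ X, (TT ξ, bb ξ) ∈ (X.image TT) ×ˢ (Finset.Icc (0 : ℤ) N) := by
    intro ξ hξ
    rw [Finset.mem_product, Finset.mem_Icc]
    refine ⟨Finset.mem_image_of_mem _ hξ, ?_, hbb2 ξ hξ⟩
    have h1 := hbb1 ξ hξ
    have h2 : (0 : ℝ) ≤ (bb ξ : ℝ) := by
      have : (0 : ℝ) ≤ 4 * (w : ℝ) * M := by positivity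
      linarith
    exact_mod_cast h2
  have hsum := Finset.card_eq_sum_card_fiberwise hmaps
  have hbdc : ((X.image TT).card : ℝ) ≤
      ((m / 10 ^ 7)⁻¹) ^ (2 * M) * (1 + m / 10 ^ 7) ^ (N + 1) := by
    refine h_BDC N M (m / 10 ^ 7) (X.image TT) (by positivity) ?_ ?_
    · rw [div_le_one (by norm_num)]
      linarith
    · intro T hT
      rw [Finset.mem_image] at hT
      obtain ⟨ξ, hξ, rfl⟩ := hT
      exact ⟨hTr ξ, ext_T_cov (hKS ξ)⟩
  have hent := hbdc.trans (ext_entropy hv hm hm1 hrw hN1 hr hlog)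
  have hfinal : (X.card : ℝ) ≤ ((X.image TT).card : ℝ) * (N + 1) * Bd := by
    rw [hsum]
    push_cast
    refine (Finset.sum_le_card_nsmul _ _ Bd (fun x _ => hfib x.1 x.2)).trans ?_
    rw [nsmul_eq_mul, Finset.card_product]
    have : (Finset.Icc (0 : ℤ) N).card = N + 1 := by
      rw [Int.card_Icc]
      omega
    rw [this]
    push_cast
    exact le_rfl
  refine hfinal.trans ?_
  have h1 : ((X.image TT).card : ℝ) * (N + 1) * Bd ≤
      Real.exp (17 / 10 ^ 6 * m * N + 1) * (N + 1) * Bd := by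
    refine mul_le_mul_of_nonneg_right ?_ hBd0
    exact mul_le_mul_of_nonneg_right hent (by positivity)
  refine h1.trans ?_
  rw [hBd]
  have h2 : Real.exp (17 / 10 ^ 6 * m * N + 1) * (N + 1) *
      (Real.exp (50 * (N : ℝ) ^ (3 / 4 : ℝ)) * mu (Om 2) ^ (N + 2) *
        Real.exp (-(32 / 10 ^ 6 * m * N) + 2 + 1 / v)) =
      (N + 1) * Real.exp (50 * (N : ℝ) ^ (3 / 4 : ℝ)) * mu (Om 2) ^ (N + 2) *
        Real.exp ((17 / 10 ^ 6 * m * N + 1) + (-(32 / 10 ^ 6 * m * N) + 2 + 1 / v)) := by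
    rw [Real.exp_add (17 / 10 ^ 6 * m * N + 1)]
    ring
  have h3 : (N + 1) * Real.exp (50 * (N : ℝ) ^ (3 / 4 : ℝ)) * mu (Om 2) ^ (N + 2) *
    Real.exp (6 + 2 / v) * Real.exp (-(3 / 10 ^ 6 * m * N)) =
    (N + 1) * Real.exp (50 * (N : ℝ) ^ (3 / 4 : ℝ)) * mu (Om 2) ^ (N + 2) *
    Real.exp ((6 + 2 / v) + (-(3 / 10 ^ 6 * m * N))) := by
    rw [Real.exp_add (6 + 2 / v)]
    ring
  rw [h2, h3]
  refine mul_le_mul_of_nonneg_left (Real.exp_le_exp.mpr ?_) (by positivity)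
  have h4 : 0 ≤ m * N := by positivity
  have h5 : 0 < 1 / v := by positivity
  have h6 : 2 / v = 2 * (1 / v) := by ring
  rw [h6]
  nlinarith

end Pool.Agent.H979R2.P2
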