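import Pool.Agent.H979R2.P2.Stubs

/-! Task FIN of the almost power law (helper760), adapted from helper725's `SB/TP.lean`. -/

set_option autoImplicit false

namespace Pool.Agent.H979R2.P2

open Finset
open Pool.Agent.H725R2.SB

/-- for `l = log N`: the loss is at most `l / 10` up to a constant -/
theorem fin_loss {C1 c l ll : ℝ} (hC1 : 0 < C1) (hc : 0 < c) (hc1 : c ≤ 1)
    (hc2 : c * (60 * C1) ≤ 1) (hl : 1 ≤ l) (hll : 1 ≤ ll) (hlog : ll = Real.log l) :
    C1 * ((1 + c * l / ll) * (1 + Real.log (1 + c * l / ll))) ≤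
      l / 10 + 3 * C1 * (120 * C1) ^ 2 := by
  have hl0 : 0 < l := by linarith
  have hll0 : 0 < ll := by linarith
  have hcl : 0 ≤ c * l / ll := by positivity
  have h1 : c * l / ll ≤ l := by
    rw [div_le_iff₀ hll0]
    nlinarith
  have h2 : Real.log (1 + c * l / ll) ≤ 2 * ll := by
    have h3 : Real.log (1 + c * l / ll) ≤ Real.log (2 * l) :=
      Real.log_le_log (by linarith) (by linarith)
    rw [Real.log_mul (by norm_num) hl0.ne', ← hlog] at h3
    have := Real.log_two_lt_d9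
    linarith
  have h3 : (1 + c * l / ll) * (1 + Real.log (1 + c * l / ll)) ≤ 3 * ll + 3 * (c * l) := by
    calc (1 + c * l / ll) * (1 + Real.log (1 + c * l / ll))
        ≤ (1 + c * l / ll) * (3 * ll) := mul_le_mul_of_nonneg_left (by linarith) (by linarith)
      _ = 3 * ll + 3 * (c * l) := by field_simp
  have h4 : C1 * (3 * (c * l)) ≤ l / 20 := by nlinarith
  have h5 : C1 * (3 * ll) ≤ l / 20 + 3 * C1 * (120 * C1) ^ 2 := by
    set s := √l with hs
    have hs2 : s ^ 2 = l := Real.sq_sqrt hl0.le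
    have hs0 : 0 < s := Real.sqrt_pos.2 hl0
    rcases le_total (120 * C1) s with h | h
    · have h6 : ll ≤ 2 * s := by
        have h7 : Real.log l = 2 * Real.log s := by
          rw [← hs2, Real.log_pow]
          norm_num
        have h8 := Real.log_le_sub_one_of_pos hs0
        rw [hlog, h7]
        linarith
      have h7 : C1 * (3 * ll) ≤ C1 * (3 * (2 * s)) := by
        apply mul_le_mul_of_nonneg_left _ hC1.le
        linarith
      have h8 : 120 * C1 * s ≤ s * s := mul_le_mul_of_nonneg_right h hs0.le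
      have h9 : 0 ≤ 3 * C1 * (120 * C1) ^ 2 := by positivity
      nlinarith
    · have h6 : ll ≤ l := by
        rw [hlog]
        have := Real.log_le_sub_one_of_pos hl0
        linarith
      have h7 : l ≤ (120 * C1) ^ 2 := by
        rw [← hs2]
        exact pow_le_pow_left₀ hs0.le h 2
      have h8 : C1 * (3 * ll) ≤ C1 * (3 * (120 * C1) ^ 2) := by
        apply mul_le_mul_of_nonneg_left _ hC1.le
        linarith
      linarith
  calc C1 * ((1 + c * l / ll) * (1 + Real.log (1 + c * l / ll)))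
      ≤ C1 * (3 * ll + 3 * (c * l)) := mul_le_mul_of_nonneg_left h3 hC1.le
    _ ≤ _ := by linarith

theorem p_FIN (h_SUBB : St_SUBB) : St_FIN := by
  obtain ⟨C1, hC1, hsub⟩ := h_SUBB
  set K : ℝ := 3 * C1 * (120 * C1) ^ 2 with hK
  set κ : ℝ := Real.exp (-K) with hκ
  have hκ0 : 0 < κ := Real.exp_pos _
  set D : ℝ := (C1 + 1) * ((C1 + 1) / κ) ^ 8 with hD
  have hD0 : 0 < D := by positivity
  set c : ℝ := min 1 (1 / (60 * C1)) with hc
  have hc0 : 0 < c := lt_min one_pos (by positivity)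
  have hc1 : c ≤ 1 := min_le_left _ _
  have hc2 : c * (60 * C1) ≤ 1 := by
    have h1 : c ≤ 1 / (60 * C1) := min_le_right _ _
    rwa [le_div_iff₀ (by positivity)] at h1
  refine ⟨c, C1 * Real.exp D, hc0, by positivity, ?_⟩
  intro N hN
  have hN16 : (16 : ℝ) ≤ N := by exact_mod_cast hN
  have hN0 : (0 : ℝ) < N := by linarith
  set l : ℝ := Real.log N with hl
  have hl1 : Real.exp 1 ≤ l := by
    have h1 : Real.log 16 ≤ l := Real.log_le_log (by norm_num) hN16
    have h2 : Real.log 16 = 4 * Real.log 2 := by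
      rw [show (16 : ℝ) = 2 ^ 4 by norm_num, Real.log_pow]
      norm_num
    have h3 := Real.log_two_gt_d9
    have h4 := Real.exp_one_lt_d9
    linarith
  have hl2 : 1 ≤ l := by
    have := Real.add_one_le_exp (1 : ℝ)
    linarith
  have hl0 : 0 < l := by linarith
  set ll : ℝ := Real.log l with hll
  have hll1 : 1 ≤ ll := by
    rw [hll, Real.le_log_iff_exp_le hl0]
    exact hl1
  have hll0 : 0 < ll := by linarith
  set v : ℝ := Real.exp (-(c * l / ll)) with hv
  have hv0 : 0 < v := Real.exp_pos _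
  have hv1 : v ≤ 1 := by
    rw [hv, Real.exp_le_one_iff]
    have : 0 ≤ c * l / ll := by positivity
    linarith
  have hthr : (N : ℝ) ^ (1 - c / ll) = v * N := by
    rw [Real.rpow_def_of_pos hN0, hv]
    conv_rhs => rw [← Real.exp_log hN0, ← Real.exp_add]
    congr 1
    rw [← hl]
    field_simp
    ring
  rw [hthr]
  refine (hsub v hv0 hv1 N (by omega)).trans ?_
  have hlogv : Real.log (1 / v) = c * l / ll := by
    rw [one_div, Real.log_inv, hv, Real.log_exp, neg_neg]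
  have h1 : C1 * Yv v ≤ l / 10 + K := by
    unfold Yv
    rw [hlogv]
    exact fin_loss hC1 hc0 hc1 hc2 hl2 hll1 hll
  have h3 : κ * (N : ℝ) ^ (9 / 10 : ℝ) ≤ Real.exp (-(C1 * Yv v)) * N := by
    have h4 : (N : ℝ) ^ (9 / 10 : ℝ) = Real.exp (9 / 10 * l) := by
      rw [Real.rpow_def_of_pos hN0, mul_comm]
    rw [h4, hκ, ← Real.exp_add]
    conv_rhs => rw [← Real.exp_log hN0, ← Real.exp_add]
    rw [Real.exp_le_exp, ← hl]
    linarith
  set x : ℝ := (N : ℝ) ^ (1 / 20 : ℝ) with hx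
  have hx1 : 1 ≤ x := Real.one_le_rpow (by linarith) (by norm_num)
  have hx34 : (N : ℝ) ^ (3 / 4 : ℝ) = x ^ 15 := by
    rw [hx, ← Real.rpow_natCast, ← Real.rpow_mul hN0.le]
    norm_num
  have hx45 : (N : ℝ) ^ (4 / 5 : ℝ) = x ^ 16 := by
    rw [hx, ← Real.rpow_natCast, ← Real.rpow_mul hN0.le]
    norm_num
  have hx910 : (N : ℝ) ^ (9 / 10 : ℝ) = x ^ 18 := by
    rw [hx, ← Real.rpow_natCast, ← Real.rpow_mul hN0.le]
    norm_num
  have hpoly : C1 * x ^ 15 + x ^ 16 ≤ D + κ * x ^ 18 := by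
    have h4 : C1 * x ^ 15 ≤ C1 * x ^ 16 :=
      mul_le_mul_of_nonneg_left (pow_le_pow_right₀ hx1 (by norm_num)) hC1.le
    rcases le_total ((C1 + 1) / κ) (x ^ 2) with h5 | h5
    · rw [div_le_iff₀ hκ0] at h5
      have h6 : (C1 + 1) * x ^ 16 ≤ (x ^ 2 * κ) * x ^ 16 :=
        mul_le_mul_of_nonneg_right h5 (by positivity)
      have h7 : (x ^ 2 * κ) * x ^ 16 = κ * x ^ 18 := by ring
      linarith
    · have h6 : x ^ 16 ≤ ((C1 + 1) / κ) ^ 8 := by
        calc x ^ 16 = (x ^ 2) ^ 8 := by ring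
          _ ≤ ((C1 + 1) / κ) ^ 8 := pow_le_pow_left₀ (by positivity) h5 8
      have h7 : (C1 + 1) * x ^ 16 ≤ (C1 + 1) * ((C1 + 1) / κ) ^ 8 :=
        mul_le_mul_of_nonneg_left h6 (by linarith)
      have h9 : 0 ≤ κ * x ^ 18 := by positivity
      linarith
  have hexp : Real.exp (C1 * (N : ℝ) ^ (3 / 4 : ℝ) - Real.exp (-(C1 * Yv v)) * N) ≤
      Real.exp D * Real.exp (-(N : ℝ) ^ (4 / 5 : ℝ)) := by
    rw [← Real.exp_add, Real.exp_le_exp, hx34, hx45]
    rw [hx910] at h3
    linarith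
  have hcN : (0 : ℝ) ≤ cN 2 N := Nat.cast_nonneg _
  calc C1 * Real.exp (C1 * (N : ℝ) ^ (3 / 4 : ℝ) - Real.exp (-(C1 * Yv v)) * N) * cN 2 N
      ≤ C1 * (Real.exp D * Real.exp (-(N : ℝ) ^ (4 / 5 : ℝ))) * cN 2 N := by gcongr
    _ = (C1 * Real.exp D) * Real.exp (-(N : ℝ) ^ (4 / 5 : ℝ)) * cN 2 N := by ring

end Pool.Agent.H979R2.P2
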