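import Pool.Agent.H979R2.P2.Stubs

/-! FRM: the two frames of the square lattice. -/

set_option autoImplicit false

namespace Pool.Agent.H979R2.P2

open Finset
open Pool.Agent.H725R2.SB

theorem frm_mem_Om {d : ℕ} (v : Fin d → ℤ) :
    v ∈ Om d ↔ ∃ i, ∃ c : ℤ, (c = 1 ∨ c = -1) ∧ v = Pi.single i c := by
  unfold Om
  simp only [mem_union, mem_image, mem_univ, true_and]
  constructor
  · rintro (⟨i, rfl⟩ | ⟨i, rfl⟩)
    · exact ⟨i, 1, Or.inl rfl, rfl⟩
    · exact ⟨i, -1, Or.inr rfl, rfl⟩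
  · rintro ⟨i, c, hc | hc, rfl⟩
    · left; exact ⟨i, by rw [hc]⟩
    · right; exact ⟨i, by rw [hc]⟩

/-- The signed permutation `v ↦ (s i * v (σ i))`, an involution. -/
def frm_sp {d : ℕ} (σ : Fin d → Fin d) (s : Fin d → ℤ) (hσ : ∀ i, σ (σ i) = i)
    (hs : ∀ i, s i * s (σ i) = 1) : (Fin d → ℤ) ≃+ (Fin d → ℤ) where
  toFun v := fun i => s i * v (σ i)
  invFun v := fun i => s i * v (σ i)
  left_inv v := by
    funext i
    show s i * (s (σ i) * v (σ (σ i))) = v i
    rw [← mul_assoc, hs, hσ, one_mul]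
  right_inv v := by
    funext i
    show s i * (s (σ i) * v (σ (σ i))) = v i
    rw [← mul_assoc, hs, hσ, one_mul]
  map_add' v w := by
    funext i
    show s i * (v (σ i) + w (σ i)) = s i * v (σ i) + s i * w (σ i)
    ring

theorem frm_sp_apply {d : ℕ} (σ : Fin d → Fin d) (s : Fin d → ℤ)
    (hσ : ∀ i, σ (σ i) = i) (hs : ∀ i, s i * s (σ i) = 1) (v : Fin d → ℤ) (i : Fin d) :
    frm_sp σ s hσ hs v i = s i * v (σ i) := rfl

theorem frm_sp_sp {d : ℕ} (σ : Fin d → Fin d) (s : Fin d → ℤ)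
    (hσ : ∀ i, σ (σ i) = i) (hs : ∀ i, s i * s (σ i) = 1) (v : Fin d → ℤ) :
    frm_sp σ s hσ hs (frm_sp σ s hσ hs v) = v := by
  funext i
  rw [frm_sp_apply, frm_sp_apply, ← mul_assoc, hs, hσ, one_mul]

theorem frm_sp_Om {d : ℕ} (σ : Fin d → Fin d) (s : Fin d → ℤ)
    (hσ : ∀ i, σ (σ i) = i) (hs : ∀ i, s i * s (σ i) = 1) (v : Fin d → ℤ) (hv : v ∈ Om d) :
    frm_sp σ s hσ hs v ∈ Om d := by
  rw [frm_mem_Om] at hv ⊢
  obtain ⟨j, c, hc, rfl⟩ := hv
  have hs1 : s (σ j) = 1 ∨ s (σ j) = -1 := by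
    have h := hs (σ j)
    have : IsUnit (s (σ j)) := IsUnit.of_mul_eq_one _ h
    exact Int.isUnit_iff.mp this
  refine ⟨σ j, s (σ j) * c, ?_, ?_⟩
  · rcases hs1 with h | h <;> rcases hc with h' | h' <;> rw [h, h'] <;> norm_num
  · funext i
    rw [frm_sp_apply]
    by_cases h : i = σ j
    · subst h
      rw [hσ, Pi.single_eq_same, Pi.single_eq_same]
    · have h2 : σ i ≠ j := by
        intro h3
        apply h
        rw [← h3, hσ]
      rw [Pi.single_eq_of_ne h, Pi.single_eq_of_ne h2, mul_zero]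

theorem p_FRM : St_FRM := by
  unfold St_FRM
  set a : Fin 2 := 0 with ha
  set b : Fin 2 := 1 with hb
  have hab : a ≠ b := by
    intro h
    have := congrArg Fin.val h
    simp [ha, hb] at this
  have hba : b ≠ a := fun h => hab h.symm
  -- coordinates of unit steps
  have key : ∀ v ∈ Om 2, |v a| ≤ 1 ∧ |v b| ≤ 1 ∧ |v a + v b| ≤ 1 ∧ |v a - v b| ≤ 1 := by
    intro v hv
    rw [frm_mem_Om] at hv
    obtain ⟨j, c, hc, rfl⟩ := hv
    by_cases h1 : a = j
    · subst h1
      rw [Pi.single_eq_same, Pi.single_eq_of_ne hba]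
      rcases hc with h | h <;> rw [h] <;> norm_num
    · rw [Pi.single_eq_of_ne h1]
      by_cases h2 : b = j
      · subst h2
        rw [Pi.single_eq_same]
        rcases hc with h | h <;> rw [h] <;> norm_num
      · rw [Pi.single_eq_of_ne h2]
        norm_num
  let X : (Fin 2 → ℤ) →+ ℤ := Pi.evalAddMonoidHom (fun _ => ℤ) a
  let Y : (Fin 2 → ℤ) →+ ℤ := Pi.evalAddMonoidHom (fun _ => ℤ) b
  have hX : ∀ v, X v = v a := fun v => rfl
  have hY : ∀ v, Y v = v b := fun v => rfl
  -- the automorphisms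
  let ng : Fin 2 → (Fin 2 → ℤ) ≃+ (Fin 2 → ℤ) := fun j =>
    frm_sp (fun i => i) (fun i => if i = j then -1 else 1) (fun _ => rfl)
      (by intro i; by_cases h : i = j <;> simp [h])
  let sw : (Fin 2 → ℤ) ≃+ (Fin 2 → ℤ) :=
    frm_sp (fun i => Equiv.swap a b i) (fun _ => 1) (fun i => Equiv.swap_apply_self a b i)
      (fun _ => by norm_num)
  let nsw : (Fin 2 → ℤ) ≃+ (Fin 2 → ℤ) :=
    frm_sp (fun i => Equiv.swap a b i) (fun _ => -1) (fun i => Equiv.swap_apply_self a b i)
      (fun _ => by norm_num)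
  have hng : ∀ j v i, ng j v i = (if i = j then -1 else 1) * v i := fun _ _ _ => rfl
  have hsw : ∀ v i, sw v i = 1 * v (Equiv.swap a b i) := fun _ _ => rfl
  have hnsw : ∀ v i, nsw v i = -1 * v (Equiv.swap a b i) := fun _ _ => rfl
  have hswa : ∀ v, sw v a = v b := fun v => by rw [hsw, Equiv.swap_apply_left, one_mul]
  have hswb : ∀ v, sw v b = v a := fun v => by rw [hsw, Equiv.swap_apply_right, one_mul]
  have hnswa : ∀ v, nsw v a = - v b := fun v => by rw [hnsw, Equiv.swap_apply_left]; ring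
  have hnswb : ∀ v, nsw v b = - v a := fun v => by rw [hnsw, Equiv.swap_apply_right]; ring
  have hea : (Pi.single a (1 : ℤ) : Fin 2 → ℤ) ∈ Om 2 :=
    (frm_mem_Om _).2 ⟨a, 1, Or.inl rfl, rfl⟩
  have heb : (Pi.single b (1 : ℤ) : Fin 2 → ℤ) ∈ Om 2 :=
    (frm_mem_Om _).2 ⟨b, 1, Or.inl rfl, rfl⟩
  let Lx : Lev (Om 2) :=
    { F := X
      r := ng a
      e := Pi.single a 1
      le_one := fun v hv => (key v hv).1
      rF := fun v => by rw [hX, hX, hng, if_pos rfl]; ring
      rΩ := fun v hv => frm_sp_Om _ _ _ _ v hv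
      rr := fun v => frm_sp_sp _ _ _ _ v
      eΩ := hea
      Fe := by rw [hX, Pi.single_eq_same] }
  let Ly : Lev (Om 2) :=
    { F := Y
      r := ng b
      e := Pi.single b 1
      le_one := fun v hv => (key v hv).2.1
      rF := fun v => by rw [hY, hY, hng, if_pos rfl]; ring
      rΩ := fun v hv => frm_sp_Om _ _ _ _ v hv
      rr := fun v => frm_sp_sp _ _ _ _ v
      eΩ := heb
      Fe := by rw [hY, Pi.single_eq_same] }
  let LS : Lev (Om 2) :=
    { F := X + Y
      r := nsw
      e := Pi.single a 1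
      le_one := fun v hv => (key v hv).2.2.1
      rF := fun v => by
        rw [AddMonoidHom.add_apply, AddMonoidHom.add_apply, hX, hY, hX, hY, hnswa, hnswb]; ring
      rΩ := fun v hv => frm_sp_Om _ _ _ _ v hv
      rr := fun v => frm_sp_sp _ _ _ _ v
      eΩ := hea
      Fe := by
        rw [AddMonoidHom.add_apply, hX, hY, Pi.single_eq_same, Pi.single_eq_of_ne hba]; norm_num }
  let LD : Lev (Om 2) :=
    { F := X - Y
      r := sw
      e := Pi.single a 1
      le_one := fun v hv => (key v hv).2.2.2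
      rF := fun v => by
        rw [AddMonoidHom.sub_apply, AddMonoidHom.sub_apply, hX, hY, hX, hY, hswa, hswb]; ring
      rΩ := fun v hv => frm_sp_Om _ _ _ _ v hv
      rr := fun v => frm_sp_sp _ _ _ _ v
      eΩ := hea
      Fe := by
        rw [AddMonoidHom.sub_apply, hX, hY, Pi.single_eq_same, Pi.single_eq_of_ne hba]; norm_num }
  let F1 : Frame (Om 2) :=
    { A := Lx
      B := LS
      B' := LD
      κ := 1
      hκ := Or.inl rfl
      rel := fun v => by
        show 2 * v a = 1 * ((v a + v b) + (v a - v b))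
        ring
      t := sw
      tB := fun v => by
        show sw v a + sw v b = v a + v b
        rw [hswa, hswb]; ring
      tB' := fun v => by
        show sw v a - sw v b = -(v a - v b)
        rw [hswa, hswb]; ring
      tΩ := fun v hv => frm_sp_Om _ _ _ _ v hv
      tt := fun v => frm_sp_sp _ _ _ _ v
      g := ng b
      gB := fun v => by
        show ng b v a + ng b v b = v a - v b
        rw [hng, hng, if_neg hab, if_pos rfl]; ring
      gΩ := fun v hv => frm_sp_Om _ _ _ _ v hv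
      gg := fun v => frm_sp_sp _ _ _ _ v }
  let F2 : Frame (Om 2) :=
    { A := LS
      B := Lx
      B' := Ly
      κ := 2
      hκ := Or.inr rfl
      rel := fun v => by
        show 2 * (v a + v b) = 2 * (v a + v b)
        ring
      t := ng b
      tB := fun v => by
        show ng b v a = v a
        rw [hng, if_neg hab]; ring
      tB' := fun v => by
        show ng b v b = - v b
        rw [hng, if_pos rfl]; ring
      tΩ := fun v hv => frm_sp_Om _ _ _ _ v hv
      tt := fun v => frm_sp_sp _ _ _ _ v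
      g := sw
      gB := fun v => by
        show sw v a = v b
        rw [hswa]
      gΩ := fun v hv => frm_sp_Om _ _ _ _ v hv
      gg := fun v => frm_sp_sp _ _ _ _ v }
  refine ⟨F1, F2, rfl, rfl, rfl, rfl, ?_, ?_, fun v => rfl, fun v => rfl, ?_, ?_⟩
  · intro v
    show nsw v a - nsw v b = v a - v b
    rw [hnswa, hnswb]; ring
  · intro v
    show ng a v b = v b
    rw [hng, if_neg hba]; ring
  · intro v
    constructor
    · show ng a v a = - v a
      rw [hng, if_pos rfl]; ring
    · show ng a v b = v b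
      rw [hng, if_neg hba]; ring
  · intro v
    exact ⟨hnswa v, hnswb v⟩

end Pool.Agent.H979R2.P2
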