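import Pool.Agent.H979R2.P2.Stubs
import Pool.Agent.H725R2.SB.TE1

/-! Task HB2: heavy levels and families of backtracks (adapted from SB/TE2 of helper725). -/

set_option autoImplicit false

namespace Pool.Agent.H979R2.P2

open Finset
open Pool.Agent.H725R2.SB

open scoped Classical in
private theorem hb2_aux {a : ℕ → ℤ} (ha : ∀ i, |a (i + 1) - a i| ≤ 1) (a0 : a 0 = 0) {N r Lm : ℕ}
    (hL : (Lm : ℤ) ≤ a N) (k : ℕ) : ∀ (q : ℤ) (s : ℕ), (Lm : ℤ) - q ≤ k → 0 ≤ q →
      (∀ i, i ≤ s → a i ≤ q) → ∃ I : Finset (ℕ × ℕ), Disj I ∧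
      (∀ x ∈ I, (∃ p, BT a N p x.1 x.2) ∧ s < x.1 ∧ x.1 ≤ x.2 ∧ x.2 ≤ N ∧
        (r : ℤ) ≤ a x.1 - a x.2) ∧
      ((((Finset.Ioc q (Lm : ℤ)).filter (fun p => ¬ Light a N r p)).card : ℤ) ≤
        ∑ x ∈ I, (a x.1 - a x.2 + 1)) := by
  induction k with
  | zero =>
    intro q s hk _ _
    refine ⟨∅, fun x hx => by simp at hx, fun x hx => by simp at hx, ?_⟩
    rw [Ioc_eq_empty (by push_cast at hk; omega)]
    simp
  | succ k ih =>
    intro q s hk hq hs
    rcases ((Finset.Ioc q (Lm : ℤ)).filter (fun p => ¬ Light a N r p)).eq_empty_or_nonempty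
      with he | hne
    · refine ⟨∅, fun x hx => by simp at hx, fun x hx => by simp at hx, ?_⟩
      rw [he]
      simp
    set H := (Finset.Ioc q (Lm : ℤ)).filter (fun p => ¬ Light a N r p) with hH
    set p1 := H.min' hne with hp1
    have hp1m : p1 ∈ H := min'_mem _ _
    have hp1' : (q < p1 ∧ p1 ≤ Lm) ∧ ¬ Light a N r p1 := by
      rw [hH, mem_filter, mem_Ioc] at hp1m; exact hp1m
    obtain ⟨t, t', hb⟩ := exists_BT (N := N) (p := p1) ha (by rw [a0]; omega) (by omega)
    have hr : (r : ℤ) ≤ a t - a t' := by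
      by_contra hcon
      exact hp1'.2 ⟨t, t', hb, by omega⟩
    have hst : s < t := by
      by_contra hcon
      have h2 := hs t (by omega)
      have h3 := hb.p2
      omega
    have hb1 := hb.p1
    have hb2 := hb.p2
    obtain ⟨I, hI1, hI2, hI3⟩ := ih (a t) t' (by push_cast at hk; omega) (by omega) hb.up
    have hnot : (t, t') ∉ I := by
      intro hmem
      have := (hI2 _ hmem).2.1
      have := hb.le
      simp only at *
      omega
    refine ⟨insert (t, t') I, ?_, ?_, ?_⟩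
    · intro x hx y hy hxy
      rw [mem_insert] at hx hy
      rcases hx with rfl | hx
      · rcases hy with rfl | hy
        · exact absurd rfl hxy
        · left
          exact (hI2 _ hy).2.1.le
      · rcases hy with rfl | hy
        · right
          exact (hI2 _ hx).2.1.le
        · exact hI1 x hx y hy hxy
    · intro x hx
      rw [mem_insert] at hx
      rcases hx with rfl | hx
      · exact ⟨⟨p1, hb⟩, hst, hb.le, hb.leN, hr⟩
      · have := (hI2 x hx).2
        have := hb.le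
        exact ⟨(hI2 x hx).1, by omega, by omega, by omega, (hI2 x hx).2.2.2.2⟩
    · rw [sum_insert hnot]
      have hsub : H ⊆ Icc p1 (a t) ∪ (Finset.Ioc (a t) (Lm : ℤ)).filter
          (fun p => ¬ Light a N r p) := by
        intro p hp
        have h2 := min'_le H p hp
        rw [hH, mem_filter, mem_Ioc] at hp
        rw [mem_union, mem_Icc, mem_filter, mem_Ioc]
        rcases le_or_gt p (a t) with h3 | h3
        · left; exact ⟨h2, h3⟩
        · right; exact ⟨⟨h3, hp.1.2⟩, hp.2⟩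
      have h4 := (card_le_card hsub).trans (card_union_le _ _)
      have h5 : ((Icc p1 (a t)).card : ℤ) = a t + 1 - p1 := by
        rw [Int.card_Icc, Int.toNat_of_nonneg (by omega)]
      have h6 : (H.card : ℤ) ≤ ((Icc p1 (a t)).card : ℤ) +
          (((Finset.Ioc (a t) (Lm : ℤ)).filter (fun p => ¬ Light a N r p)).card : ℤ) := by
        exact_mod_cast h4
      simp only
      linarith

open scoped Classical in
theorem p_HB2 : St_HB2 := by
  intro a ha a0 N r Lm hr hL S hS
  obtain ⟨I, hI1, hI2, hI3⟩ := hb2_aux (r := r) ha a0 hL Lm 0 0 (by simp) le_rfl (by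
    intro i hi
    have : i = 0 := by omega
    rw [this, a0])
  have hHF : HF a N r I := ⟨hI1, fun x hx => (hI2 x hx).1, fun x hx => (hI2 x hx).2.2.2.2⟩
  have h1 := hS I hHF
  have h2 : ∑ x ∈ I, (a x.1 - a x.2 + 1) ≤ 2 * ∑ x ∈ I, (a x.1 - a x.2) := by
    rw [mul_sum]
    refine sum_le_sum fun x hx => ?_
    have := (hI2 x hx).2.2.2.2
    have : (1 : ℤ) ≤ r := by exact_mod_cast hr
    linarith
  have h3 : Finset.Icc (1 : ℤ) Lm = Finset.Ioc 0 (Lm : ℤ) := by
    ext x
    rw [mem_Icc, mem_Ioc]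
    omega
  rw [h3]
  have h4 : ((((Finset.Ioc 0 (Lm : ℤ)).filter (fun p => ¬ Light a N r p)).card : ℤ) : ℝ) ≤
      ((2 * ∑ x ∈ I, (a x.1 - a x.2) : ℤ) : ℝ) := by
    exact_mod_cast hI3.trans h2
  rw [Int.cast_natCast, Int.cast_mul] at h4
  unfold drop at h1
  push_cast at h4 h1 ⊢
  linarith

end Pool.Agent.H979R2.P2
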