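import Pool.Agent.H979R2.P2.Stubs
import Pool.Agent.H725R2.SB.TC2

/-! Task HVY: walks with large backtracks. -/

set_option autoImplicit false

namespace Pool.Agent.H979R2.P2

open Finset
open Pool.Agent.H725R2.SB

theorem hvy_levA (Fr : Frame (Om 2)) (hO : Ort Fr) (T : Finset ℕ) (ξ : ℕ → (Fin 2 → ℤ)) (N : ℕ)
    (S : ℤ) (h : lev Fr.B (op Fr.B.r T ξ) N = lev Fr.B ξ N + 2 * S) :
    lev Fr.A (op Fr.B.r T ξ) N = lev Fr.A ξ N + Fr.κ * S := by
  have h1 := Fr.rel (P (op Fr.B.r T ξ) N)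
  have h2 := Fr.rel (P ξ N)
  have h3 := lev_op_t Fr.B' (g := Fr.B.r) hO T ξ N
  unfold lev at *
  rw [h, h3] at h1
  have h4 : 2 * Fr.A.F (P (op Fr.B.r T ξ) N) = 2 * (Fr.A.F (P ξ N) + Fr.κ * S) := by
    linear_combination h1 - h2
  exact mul_left_cancel₀ (by norm_num) h4

theorem hvy_real (n v m S h k L r κ : ℝ) (hn : 0 ≤ n) (hv : 0 < v) (hv1 : v ≤ 1) (hm : 0 < m)
    (hm1 : m ≤ 1) (hr : 1 ≤ r) (hL : 0 ≤ L) (hlog : 16 * v * L ≤ m * r) (hk0 : 0 ≤ k)
    (hk : k * r ≤ S) (hS : dl * v * n < S) (hκ : 1 ≤ κ) (hh : v * n - 1 + κ * S ≤ h) :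
    2 * k * L + (n + 1) * (m / 10 ^ 7) + -(m / (lam * v)) * (h - lam * v * (n + 1)) ≤
      (6 + 2 / v) + -(3 / 10 ^ 6 * m * n) := by
  have hlam : lam = 1 + 1 / 200000 := rfl
  have hdl : dl = 1 / 100000 := rfl
  have hlam0 : 0 < lam := by rw [hlam]; norm_num
  set q := m / (lam * v) with hq
  have hq0 : 0 < q := by positivity
  have hqv : lam * (q * v) = m := by rw [hq]; field_simp
  have hS0 : 0 ≤ S := by
    have : 0 ≤ dl * v * n := by rw [hdl]; positivity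
    linarith
  -- first term
  have h1 : 2 * k * L ≤ lam * q * S / 8 := by
    have e1 : 16 * v * (k * L) ≤ 16 * v * (lam * q * S / 16) := by
      calc 16 * v * (k * L) = k * (16 * v * L) := by ring
        _ ≤ k * (m * r) := mul_le_mul_of_nonneg_left hlog hk0
        _ = m * (k * r) := by ring
        _ ≤ m * S := mul_le_mul_of_nonneg_left hk hm.le
        _ = 16 * v * (lam * q * S / 16) := by rw [← hqv]; ring
    have e2 := le_of_mul_le_mul_left e1 (by positivity)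
    linarith
  have h2 : -q * (h - lam * v * (n + 1)) ≤ -q * (v * n - 1 + S - lam * v * (n + 1)) := by
    have : v * n - 1 + S ≤ h := by nlinarith
    nlinarith
  have h3 : q * (dl * v * n) ≤ q * S := mul_le_mul_of_nonneg_left hS.le hq0.le
  have h4 : q ≤ 2 / v := by
    rw [hq, div_le_div_iff₀ (by positivity) hv]
    have : m * v ≤ 1 * v := mul_le_mul_of_nonneg_right hm1 hv.le
    rw [hlam]
    nlinarith
  have h5 : 0 ≤ m * n := by positivity
  have h6 : q * v = m / lam := by rw [eq_div_iff hlam0.ne']; linarith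
  have h7 : q * (v * n) = m * n / lam := by
    calc q * (v * n) = (q * v) * n := by ring
      _ = _ := by rw [h6]; ring
  have h8 : q * (dl * v * n) = dl * (m * n / lam) := by rw [← h7]; ring
  rw [h8] at h3
  have h9 : -q * (v * n - 1 + S - lam * v * (n + 1)) =
      - (m * n / lam) + q - q * S + m * n + m := by
    calc -q * (v * n - 1 + S - lam * v * (n + 1)) =
        - (q * (v * n)) + q - q * S + (lam * (q * v)) * n + lam * (q * v) := by ring
      _ = _ := by rw [h7, hqv]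
  have h10 : lam * (m * n / lam) = m * n := by field_simp
  set w := m * n / lam with hw
  have hw0 : 0 ≤ w := by positivity
  have h11 : lam * q * S / 8 - q * S ≤ -(1 - lam / 8) * (dl * w) := by
    have : 0 < 1 - lam / 8 := by rw [hlam]; norm_num
    nlinarith
  rw [hlam, hdl] at *
  nlinarith

theorem hvy_main (Fr : Frame (Om 2)) (h_UNA : St_UNA) (h_BDC : St_BDC) (N r : ℕ) (v m : ℝ)
    (hO : Ort Fr) (hv : 0 < v) (hv1 : v ≤ 1) (hm : 0 < m) (hm1 : m ≤ 1) (hr : 1 ≤ r)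
    (hFo : Fo Fr.A (lam * v) m) (hlog : 16 * v * Real.log (10 ^ 7 / m) ≤ m * r)
    (X : Finset (ℕ → (Fin 2 → ℤ)))
    (hX : ∀ ξ ∈ X, IsSaw (Om 2) N ξ ∧ v * N - 1 ≤ (lev Fr.A ξ N : ℝ) ∧
      ∃ I : Finset (ℕ × ℕ), HF (lev Fr.B ξ) N r I ∧ dl * v * N < (drop (lev Fr.B ξ) I : ℝ)) :
    (X.card : ℝ) ≤ (N + 1) * (Real.exp (25 * (N : ℝ) ^ (3 / 4 : ℝ)) * mu (Om 2) ^ (N + 1) *
      Real.exp (6 + 2 / v) * Real.exp (-(3 / 10 ^ 6 * m * N))) := by
  classical
  have hch : ∀ ξ ∈ X, ∃ I : Finset (ℕ × ℕ), HF (lev Fr.B ξ) N r I ∧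
      dl * v * N < (drop (lev Fr.B ξ) I : ℝ) := fun ξ hξ => (hX ξ hξ).2.2
  choose! I hHF hd using hch
  have hcard : ∀ ξ ∈ X, ((I ξ).card : ℤ) * r ≤ drop (lev Fr.B ξ) (I ξ) := by
    intro ξ hξ
    have := Finset.card_nsmul_le_sum (I ξ) (fun x => lev Fr.B ξ x.1 - lev Fr.B ξ x.2) (r : ℤ)
      (hHF ξ hξ).sz
    simpa [drop, nsmul_eq_mul] using this
  have hdrop0 : ∀ ξ ∈ X, 0 ≤ drop (lev Fr.B ξ) (I ξ) := by
    intro ξ hξ
    exact le_trans (by positivity) (hcard ξ hξ)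
  have huna := fun ξ (hξ : ξ ∈ X) => h_UNA Fr.B N r ξ (I ξ) hr (hX ξ hξ).1 (hHF ξ hξ)
  set Sf : (ℕ → (Fin 2 → ℤ)) → ℕ := fun ξ => (drop (lev Fr.B ξ) (I ξ)).toNat with hSf
  have hSfe : ∀ ξ ∈ X, (Sf ξ : ℤ) = drop (lev Fr.B ξ) (I ξ) :=
    fun ξ hξ => Int.toNat_of_nonneg (hdrop0 ξ hξ)
  have hSfN : ∀ ξ ∈ X, Sf ξ ∈ range (N + 1) := by
    intro ξ hξ
    have h1 := lev_abs_le Fr.B (huna ξ hξ).1 N
    have h2 := lev_abs_le Fr.B (hX ξ hξ).1 N
    have h3 := (huna ξ hξ).2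
    have h4 := hSfe ξ hξ
    rw [abs_le] at h1 h2
    rw [mem_range]
    omega
  have hfib := Finset.card_eq_sum_card_fiberwise (f := Sf) (s := X) (t := range (N + 1)) hSfN
  set Bd : ℝ := Real.exp (25 * (N : ℝ) ^ (3 / 4 : ℝ)) * mu (Om 2) ^ (N + 1) *
      Real.exp (6 + 2 / v) * Real.exp (-(3 / 10 ^ 6 * m * N)) with hBd
  have hmu0 : 0 < mu (Om 2) := Real.exp_pos _
  have hBd0 : 0 < Bd := by positivity
  have hκ1 : 1 ≤ Fr.κ := by rcases Fr.hκ with h | h <;> omega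
  have hmain : ∀ S ∈ range (N + 1), ((X.filter (fun ξ => Sf ξ = S)).card : ℝ) ≤ Bd := by
    intro S _
    rcases (X.filter (fun ξ => Sf ξ = S)).eq_empty_or_nonempty with he | ⟨ξ0, hξ0⟩
    · rw [he]
      simpa using hBd0.le
    rw [mem_filter] at hξ0
    have hSd : dl * v * N < (S : ℝ) := by
      have h1 := hd ξ0 hξ0.1
      have h2 := hSfe ξ0 hξ0.1
      rw [hξ0.2] at h2
      rw [← h2] at h1
      exact_mod_cast h1
    set hS : ℤ := ⌈v * N - 1⌉ + Fr.κ * S with hhS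
    obtain ⟨Y, hY1, hY2⟩ : ∃ Y : Finset (ℕ → (Fin 2 → ℤ)),
        (∀ ξ, ξ ∈ Y ↔ IsSaw (Om 2) N ξ ∧ hS ≤ lev Fr.A ξ N) ∧ cge Fr.A N hS = Y.card :=
      ⟨_, fun ξ => by rw [mem_filter, mem_SawSet], rfl⟩
    set TT : Finset (Finset ℕ) := (X.filter (fun ξ => Sf ξ = S)).image (fun ξ => cov (I ξ)) with hTT
    have hinj : (X.filter (fun ξ => Sf ξ = S)).card ≤ (TT ×ˢ Y).card := by
      refine Finset.card_le_card_of_injOn
        (fun ξ => (cov (I ξ), op Fr.B.r (cov (I ξ)) ξ)) ?_ ?_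
      · intro ξ hξ
        have hξ' := mem_filter.mp (Finset.mem_coe.mp hξ)
        refine Finset.mem_coe.mpr (Finset.mem_product.mpr ⟨?_, ?_⟩)
        · exact Finset.mem_image_of_mem _ (Finset.mem_coe.mp hξ)
        · rw [hY1]
          refine ⟨(huna ξ hξ'.1).1, ?_⟩
          have h1 := hvy_levA Fr hO (cov (I ξ)) ξ N _ (huna ξ hξ'.1).2
          have h2 : ⌈v * N - 1⌉ ≤ lev Fr.A ξ N := Int.ceil_le.mpr (hX ξ hξ'.1).2.1
          have h3 := hSfe ξ hξ'.1
          rw [hξ'.2] at h3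
          show hS ≤ lev Fr.A (op Fr.B.r (cov (I ξ)) ξ) N
          rw [h1, ← h3, hhS]
          omega
      · intro ξ _ ξ' _ heq
        simp only [Prod.mk.injEq] at heq
        obtain ⟨e1, e2⟩ := heq
        rw [e1] at e2
        have := congrArg (op Fr.B.r (cov (I ξ'))) e2
        rwa [op_involutive Fr.B.rr, op_involutive Fr.B.rr] at this
    have hx0 : 0 < m / 10 ^ 7 := by positivity
    have hx1 : m / 10 ^ 7 ≤ 1 := by
      rw [div_le_one (by norm_num)]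
      exact hm1.trans (by norm_num)
    have hTTc := h_BDC N (S / r) (m / 10 ^ 7) TT hx0 hx1 (by
      intro T hT
      rw [hTT, Finset.mem_image] at hT
      obtain ⟨ξ, hξ, rfl⟩ := hT
      have hξ' := mem_filter.mp hξ
      refine ⟨?_, I ξ, ?_, rfl⟩
      · intro i hi
        unfold cov at hi
        rw [Finset.mem_biUnion] at hi
        obtain ⟨x, hx, hi⟩ := hi
        obtain ⟨p, hp⟩ := (hHF ξ hξ'.1).bt x hx
        have := hp.leN
        rw [Finset.mem_Ico] at hi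
        rw [mem_range]
        omega
      · rw [Nat.le_div_iff_mul_le (by omega)]
        have h1 := hcard ξ hξ'.1
        have h2 := hSfe ξ hξ'.1
        rw [hξ'.2] at h2
        rw [← h2] at h1
        exact_mod_cast h1)
    have hcge := cge_le Fr.A N hS
    have hbr := hFo (N + 1) hS
    set L := Real.log (10 ^ 7 / m) with hL
    have hL0 : 0 ≤ L := by
      apply Real.log_nonneg
      rw [le_div_iff₀ hm]
      linarith
    have hexp1 : ((m / 10 ^ 7)⁻¹ : ℝ) ^ (2 * (S / r)) = Real.exp (2 * ((S / r : ℕ) : ℝ) * L) := by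
      have : ((m / 10 ^ 7)⁻¹ : ℝ) = Real.exp L := by
        rw [hL, Real.exp_log (by positivity), inv_div]
      rw [this, ← Real.exp_nat_mul]
      push_cast
      ring_nf
    have hexp2 : (1 + m / 10 ^ 7 : ℝ) ^ (N + 1) ≤ Real.exp (((N : ℝ) + 1) * (m / 10 ^ 7)) := by
      have h1 : (1 + m / 10 ^ 7 : ℝ) ≤ Real.exp (m / 10 ^ 7) := by
        have := Real.add_one_le_exp (m / 10 ^ 7)
        linarith
      calc (1 + m / 10 ^ 7 : ℝ) ^ (N + 1) ≤ Real.exp (m / 10 ^ 7) ^ (N + 1) :=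
            pow_le_pow_left₀ (by positivity) h1 _
        _ = _ := by rw [← Real.exp_nat_mul]; push_cast; rfl
    have hreal := hvy_real (N : ℝ) v m (S : ℝ) (hS : ℝ) ((S / r : ℕ) : ℝ) L (r : ℝ) (Fr.κ : ℝ)
      (by positivity) hv hv1 hm hm1 (by exact_mod_cast hr) hL0 hlog (by positivity)
      (by exact_mod_cast Nat.div_mul_le_self S r) hSd (by exact_mod_cast hκ1) (by
        rw [hhS]
        push_cast
        have := Int.le_ceil (v * N - 1)
        linarith)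
    have hE0 : 0 < Real.exp (25 * (N : ℝ) ^ (3 / 4 : ℝ)) := Real.exp_pos _
    have hbr' : (br Fr.A (N + 1) hS : ℝ) ≤ mu (Om 2) ^ (N + 1) *
        Real.exp (-(m / (lam * v)) * ((hS : ℝ) - lam * v * ((N : ℝ) + 1))) := by
      have := hbr
      push_cast at this
      exact this
    calc ((X.filter (fun ξ => Sf ξ = S)).card : ℝ) ≤ ((TT ×ˢ Y).card : ℝ) := by exact_mod_cast hinj
      _ = (TT.card : ℝ) * (cge Fr.A N hS : ℝ) := by rw [Finset.card_product, hY2]; push_cast; rfl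
      _ ≤ (Real.exp (2 * ((S / r : ℕ) : ℝ) * L) * Real.exp (((N : ℝ) + 1) * (m / 10 ^ 7))) *
          (Real.exp (25 * (N : ℝ) ^ (3 / 4 : ℝ)) * (mu (Om 2) ^ (N + 1) *
            Real.exp (-(m / (lam * v)) * ((hS : ℝ) - lam * v * ((N : ℝ) + 1))))) := by
          apply mul_le_mul
          · refine hTTc.trans ?_
            rw [hexp1]
            exact mul_le_mul_of_nonneg_left hexp2 (Real.exp_pos _).le
          · exact hcge.trans (mul_le_mul_of_nonneg_left hbr' hE0.le)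
          · positivity
          · positivity
      _ = Real.exp (25 * (N : ℝ) ^ (3 / 4 : ℝ)) * mu (Om 2) ^ (N + 1) *
          Real.exp (2 * ((S / r : ℕ) : ℝ) * L + ((N : ℝ) + 1) * (m / 10 ^ 7) +
            -(m / (lam * v)) * ((hS : ℝ) - lam * v * ((N : ℝ) + 1))) := by
          rw [Real.exp_add, Real.exp_add]; ring
      _ ≤ Real.exp (25 * (N : ℝ) ^ (3 / 4 : ℝ)) * mu (Om 2) ^ (N + 1) *
          Real.exp ((6 + 2 / v) + -(3 / 10 ^ 6 * m * N)) :=
          mul_le_mul_of_nonneg_left (Real.exp_le_exp.mpr hreal) (by positivity)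
      _ = Bd := by rw [Real.exp_add, hBd]; ring
  rw [hfib]
  push_cast
  calc ∑ S ∈ range (N + 1), ((X.filter (fun ξ => Sf ξ = S)).card : ℝ)
      ≤ ∑ _S ∈ range (N + 1), Bd := Finset.sum_le_sum hmain
    _ = _ := by rw [Finset.sum_const, card_range, nsmul_eq_mul]; push_cast; rfl

theorem p_HVY (Fr : Frame (Om 2)) (h_UNA : St_UNA) (h_BDC : St_BDC) : St_HVY Fr := by
  classical
  intro N r v m hO hv hv1 hm hm1 hr hFo hlog
  refine (hvy_main Fr h_UNA h_BDC N r v m hO hv hv1 hm hm1 hr hFo hlog _ ?_).trans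
    (le_of_eq (by ring))
  intro ξ hξ
  have hξ1 := Finset.mem_filter.mp hξ
  have hξ2 := mem_SawSet.mp hξ1.1
  exact ⟨hξ2, hξ1.2.1, hξ1.2.2⟩

end Pool.Agent.H979R2.P2
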