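import Pool.Agent.H979R2.P2.Stubs
import Pool.Agent.H725R2.SB.TB

/-! Task HWB: tracked Hammersley-Welsh unfolding (adapted from SB/TB of helper725). -/

set_option autoImplicit false

namespace Pool.Agent.H979R2.P2

open Finset
open Pool.Agent.H725R2.SB

/-- the relation of the levels of a frame -/
theorem hwb_rel (Fr : Frame (Om 2)) (ξ : ℕ → (Fin 2 → ℤ)) (i : ℕ) :
    2 * lev Fr.A ξ i = Fr.κ * (lev Fr.B ξ i + lev Fr.B' ξ i) := Fr.rel _

/-- unfolding in direction `B` does not decrease the level `A` if the level `B` does not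
decrease -/
theorem hwb_mono (Fr : Frame (Om 2)) (hO : Ort Fr) (T : Finset ℕ) (ξ : ℕ → (Fin 2 → ℤ)) (i : ℕ)
    (h : lev Fr.B ξ i ≤ lev Fr.B (op Fr.B.r T ξ) i) :
    lev Fr.A ξ i ≤ lev Fr.A (op Fr.B.r T ξ) i := by
  have h1 := hwb_rel Fr ξ i
  have h2 := hwb_rel Fr (op Fr.B.r T ξ) i
  have h3 : lev Fr.B' (op Fr.B.r T ξ) i = lev Fr.B' ξ i := lev_op_t Fr.B' hO T ξ i
  rw [h3] at h2
  rcases Fr.hκ with hk | hk <;> rw [hk] at h1 h2 <;> omega

open scoped Classical in
theorem p_HWB (Fr : Frame (Om 2)) : St_HWB Fr := by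
  intro hO n h
  set L := Fr.B with hL
  set K := Nat.sqrt (2 * n) + 1 with hK
  set A : Finset (ℕ → (Fin 2 → ℤ)) := (SawSet (Om 2) n).filter
    (fun ξ => h ≤ lev Fr.A ξ n) with hA
  set B : Finset (ℕ → (Fin 2 → ℤ)) := (SawSet (Om 2) n).filter
    (fun ξ => (∀ i, i ≤ n → lev L ξ i ≤ lev L ξ n) ∧ h ≤ lev Fr.A ξ n) with hB
  set B' : Finset (ℕ → (Fin 2 → ℤ)) := (SawSet (Om 2) n).filter
    (fun ξ => (∀ i, i ≤ n → 0 ≤ lev L ξ i) ∧ h ≤ lev Fr.A ξ n) with hB'
  set C : Finset (ℕ → (Fin 2 → ℤ)) := (SawSet (Om 2) n).filter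
    (fun ξ => (∀ i, i ≤ n → 0 ≤ lev L ξ i ∧ lev L ξ i ≤ lev L ξ n) ∧ h ≤ lev Fr.A ξ n) with hC
  set E : Finset (ℕ → (Fin 2 → ℤ)) := (SawSet (Om 2) (n + 1)).filter (fun ξ => IsBr L (n + 1) ξ ∧
      h ≤ lev Fr.A ξ (n + 1)) with hE
  have h1 : A.card ≤ (n + 1) ^ K * B.card := by
    refine tB_count L n K _ _ ?_
    intro ξ hξ
    rw [hA, Finset.mem_filter, mem_SawSet] at hξ
    obtain ⟨D, hD1, hD2, hD3, hD4, hD5⟩ := tB_all L n ξ hξ.1
    refine ⟨D, hD1, hD2, ?_⟩
    rw [hB, Finset.mem_filter, mem_SawSet]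
    exact ⟨hD3, hD4, hξ.2.trans (hwb_mono Fr hO _ _ _ (hD5 n le_rfl))⟩
  have h2 : B.card ≤ B'.card := by
    refine Finset.card_le_card_of_injOn (tB_rev n) ?_ ?_
    · intro ξ hξ
      rw [Finset.mem_coe, hB, Finset.mem_filter, mem_SawSet] at hξ
      rw [Finset.mem_coe, hB', Finset.mem_filter, mem_SawSet]
      refine ⟨tB_rev_saw hξ.1, ?_, ?_⟩
      · intro i hi
        rw [tB_lev_rev L n ξ hi]
        have := hξ.2.1 (n - i) (by omega)
        omega
      · rw [tB_lev_rev Fr.A n ξ le_rfl, Nat.sub_self, lev_zero, sub_zero]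
        exact hξ.2.2
    · intro ξ hξ ξ' hξ' heq
      rw [Finset.mem_coe, hB, Finset.mem_filter, mem_SawSet] at hξ hξ'
      have := congrArg (tB_rev n) heq
      rwa [tB_rev_rev hξ.1, tB_rev_rev hξ'.1] at this
  have h3 : B'.card ≤ (n + 1) ^ K * C.card := by
    refine tB_count L n K _ _ ?_
    intro ξ hξ
    rw [hB', Finset.mem_filter, mem_SawSet] at hξ
    obtain ⟨D, hD1, hD2, hD3, hD4, hD5⟩ := tB_all L n ξ hξ.1
    refine ⟨D, hD1, hD2, ?_⟩
    rw [hC, Finset.mem_filter, mem_SawSet]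
    exact ⟨hD3, fun i hi => ⟨(hξ.2.1 i hi).trans (hD5 i hi), hD4 i hi⟩,
      hξ.2.2.trans (hwb_mono Fr hO _ _ _ (hD5 n le_rfl))⟩
  have h4 : C.card ≤ E.card := by
    refine Finset.card_le_card_of_injOn (fun ζ => cat 1 (fun _ => L.e) ζ) ?_ ?_
    · intro ζ hζ
      rw [Finset.mem_coe, hC, Finset.mem_filter, mem_SawSet] at hζ
      rw [Finset.mem_coe, hE, Finset.mem_filter, mem_SawSet]
      have hP1 : P (fun _ : ℕ => L.e) 1 = L.e := by simp [P]
      have hlev0 : ∀ i, lev L (cat 1 (fun _ => L.e) ζ) (1 + i) = 1 + lev L ζ i := by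
        intro i
        unfold lev
        rw [P_cat_add, map_add, hP1, L.Fe]
      have hlevA : lev Fr.A (cat 1 (fun _ => L.e) ζ) (1 + n) = Fr.A.F L.e + lev Fr.A ζ n := by
        unfold lev
        rw [P_cat_add, map_add, hP1]
      have hAe : 0 ≤ Fr.A.F L.e := by
        have e1 := Fr.rel L.e
        have e2 := Fr.B'.le_one L.e L.eΩ
        have e3 : Fr.B.F L.e = 1 := L.Fe
        rw [abs_le] at e2
        rw [e3] at e1
        rcases Fr.hκ with hk | hk <;> rw [hk] at e1 <;> omega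
      have hsaw : IsSaw (Om 2) (n + 1) (cat 1 (fun _ => L.e) ζ) := by
        rw [add_comm]
        refine tB_cat (fun i _ => L.eΩ) ?_ hζ.1 ?_
        · intro i j hij hj heq
          have hi : i = 0 := by omega
          have hj' : j = 1 := by omega
          subst hi hj'
          rw [hP1, P_zero] at heq
          have := L.Fe
          rw [← heq, map_zero] at this
          exact absurd this (by norm_num)
        · intro i j hi hj1 hj2 heq
          have hi : i = 0 := by omega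
          subst hi
          rw [hP1, P_zero] at heq
          have h5 : L.F (0 : Fin 2 → ℤ) = L.F (L.e + P ζ j) := by rw [← heq]
          rw [map_zero, map_add, L.Fe] at h5
          have h6 : 0 ≤ lev L ζ j := (hζ.2.1 j hj2).1
          unfold lev at h6
          omega
      refine ⟨hsaw, ⟨hsaw, ?_, ?_⟩, ?_⟩
      · intro i h5 h6
        obtain ⟨j, rfl⟩ : ∃ j, i = 1 + j := ⟨i - 1, by omega⟩
        rw [hlev0]
        have := (hζ.2.1 j (by omega)).1
        omega
      · intro i hi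
        rw [show n + 1 = 1 + n by omega, hlev0]
        rcases Nat.eq_zero_or_pos i with h5 | h5
        · rw [h5, lev_zero]
          have := (hζ.2.1 n le_rfl).1
          omega
        · obtain ⟨j, rfl⟩ : ∃ j, i = 1 + j := ⟨i - 1, by omega⟩
          rw [hlev0]
          have := (hζ.2.1 j (by omega)).2
          omega
      · rw [show n + 1 = 1 + n by omega, hlevA]
        have := hζ.2.2
        omega
    · intro ζ _ ζ' _ heq
      funext i
      have := congrFun heq (1 + i)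
      simpa [cat] using this
  calc A.card ≤ (n + 1) ^ K * B.card := h1
    _ ≤ (n + 1) ^ K * ((n + 1) ^ K * E.card) := by
        refine Nat.mul_le_mul_left _ ?_
        exact h2.trans (h3.trans (Nat.mul_le_mul_left _ h4))
    _ = (n + 1) ^ (2 * K) * E.card := by
        clear_value K
        rw [two_mul K, pow_add, mul_assoc]

end Pool.Agent.H979R2.P2
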