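import Pool.Agent.H979R2.P2.Stubs
import Pool.Agent.H725R2.SB.TJ

/-!
# Almost power law, Part II, task KEY: assembly of the contradiction
-/

set_option autoImplicit false

namespace Pool.Agent.H979R2.P2

open Finset
open Pool.Agent.H725R2.SB
open Pool.Agent.H979R2.NP (NCd hit D0 Yb)

/-- choice of the length -/
theorem key_len {φ K : ℝ} (h0 : 0 < φ) (hK : 0 ≤ K) {N : ℕ} (h1 : 1 ≤ N)
    (hN : ((84 + K) / φ) ^ 4 ≤ (N : ℝ)) :
    75 * (N : ℝ) ^ (3 / 4 : ℝ) + Real.log (N + 1) + K < φ * N := by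
  have hN1 : (1 : ℝ) ≤ N := by exact_mod_cast h1
  have hNpos : (0 : ℝ) < N := by linarith
  have h6 : (84 + K) / φ ≤ (N : ℝ) ^ (1 / 4 : ℝ) := by
    have : (((84 + K) / φ) ^ 4) ^ (1 / 4 : ℝ) ≤ (N : ℝ) ^ (1 / 4 : ℝ) :=
      Real.rpow_le_rpow (by positivity) hN (by norm_num)
    have e3 : (((84 + K) / φ) ^ 4) ^ (1 / 4 : ℝ) = (84 + K) / φ := by
      rw [← Real.rpow_natCast, ← Real.rpow_mul (by positivity)]; norm_num
    rwa [e3] at this
  rw [div_le_iff₀ h0] at h6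
  have e4 : (N:ℝ) = (N : ℝ) ^ (1 / 4 : ℝ) * (N : ℝ) ^ (3 / 4 : ℝ) := by
    rw [← Real.rpow_add hNpos]; norm_num
  have h7 : 1 ≤ (N : ℝ) ^ (3 / 4 : ℝ) := Real.one_le_rpow hN1 (by norm_num)
  have h8 : (N : ℝ) ^ (1 / 4 : ℝ) ≤ (N : ℝ) ^ (3 / 4 : ℝ) :=
    Real.rpow_le_rpow_of_exponent_le hN1 (by norm_num)
  have h9 : Real.log (N + 1) ≤ 8 * (N : ℝ) ^ (1 / 4 : ℝ) := by
    refine le_trans (Real.log_le_log (by positivity) ?_) (tJ_log_le hN1)
    linarith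
  have h10 : φ * (N : ℝ) = ((N : ℝ) ^ (1 / 4 : ℝ) * φ) * (N : ℝ) ^ (3 / 4 : ℝ) := by
    conv_lhs => rw [e4]
    ring
  have h11 : (84 + K) * (N : ℝ) ^ (3 / 4 : ℝ) ≤ φ * (N : ℝ) := by
    rw [h10]
    exact mul_le_mul_of_nonneg_right h6 (by linarith)
  have h12 : K ≤ K * (N : ℝ) ^ (3 / 4 : ℝ) := le_mul_of_one_le_right hK h7
  nlinarith

open scoped Classical in
theorem p_KEY (Fr : Frame (Om 2)) (h_PAR : St_PAR) (h_HWB : St_HWB Fr) (h_CVR : St_CVR Fr)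
    (h_HVY : St_HVY Fr) (h_EXT : St_EXT Fr) (h_NCX : St_NCX Fr.B) : St_KEY Fr := by
  intro hOrt hPl
  obtain ⟨φ₀, hφ₀, hpar⟩ := h_PAR
  refine ⟨φ₀, hφ₀, ?_⟩
  intro φ v h0 h1 hv hv1 hE HA HB
  obtain ⟨hm1, hmφ, r, w, τ, hr1, hrw, hlog, hD0, hwτ, hwφ⟩ := hpar φ v h0 h1 hv hv1
  obtain ⟨N₀, hN₀, h₀, hh, hb⟩ := hE
  obtain ⟨m, hm⟩ : ∃ m : ℝ, m = Psi φ := ⟨_, rfl⟩
  rw [← hm] at hm1 hmφ hlog HA HB
  have hmu : 0 < mu (Om 2) := Real.exp_pos _
  have hmu1 : 1 ≤ mu (Om 2) := one_le_mu Fr.A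
  have hv0 : 0 < v := lt_of_lt_of_le (Real.rpow_pos_of_pos h0 _) hv
  have hm0 : 0 < m := by
    have : (0:ℝ) < 10 ^ 7 * φ := by positivity
    linarith
  have hw1 : 1 ≤ w := by omega
  have hwr : (0:ℝ) < w := by exact_mod_cast hw1
  have hlam : lam ≤ 2 ∧ 0 < lam := by unfold lam; constructor <;> norm_num
  have hκ : (1:ℝ) ≤ Fr.κ := by
    rcases Fr.hκ with h | h <;> rw [h] <;> norm_num
  have hκ0 : (0:ℝ) < Fr.κ := by linarith
  have hs2 : 0 < 1.45 * v / (Fr.κ : ℝ) := by positivity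
  have hBs : ∀ (T : ℕ) (h : ℤ), 1.45 * v / (Fr.κ : ℝ) * T ≤ h →
      (br Fr.B T h : ℝ) ≤ mu (Om 2) ^ T * Real.exp (-m * T) := by
    intro T h hT
    refine HB T h ?_
    have h9 := mul_le_mul_of_nonneg_left hT hκ0.le
    have e2 : (Fr.κ : ℝ) * (1.45 * v / (Fr.κ : ℝ) * T) = 1.45 * v * T := by field_simp
    linarith
  have FA : Fo Fr.A (lam * v) m := force Fr.A (mul_pos hlam.2 hv0) hm0.le HA
  have FB : Fo Fr.B (1.45 * v / Fr.κ) m := force Fr.B hs2 hm0.le hBs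
  -- the constant
  obtain ⟨C, hC⟩ : ∃ C : ℝ, C = Real.exp (7 + 2 / v) := ⟨_, rfl⟩
  have hC1 : 1 ≤ C := by rw [hC]; exact Real.one_le_exp (by positivity)
  have hC0 : 0 < C := by linarith
  obtain ⟨K, hK⟩ : ∃ K : ℝ, K = Real.log (5 * C * mu (Om 2) ^ 3) := ⟨_, rfl⟩
  have hK1 : (1:ℝ) ≤ 5 * C * mu (Om 2) ^ 3 := by
    have : 1 ≤ mu (Om 2) ^ 3 := one_le_pow₀ hmu1
    nlinarith
  have hK0 : 0 ≤ K := by rw [hK]; exact Real.log_nonneg hK1
  -- the choice of `l`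
  obtain ⟨l, hl1, hl2, hl4⟩ : ∃ l : ℕ, 300 ≤ l ∧ ((84 + K) / φ) ^ 4 ≤ (l:ℝ) ∧
      1000000 * (20 * w) / v ≤ (l:ℝ) := by
    refine ⟨max 300 (max ⌈((84 + K) / φ) ^ 4⌉₊ ⌈1000000 * (20 * (w:ℝ)) / v⌉₊),
      le_max_left _ _, ?_, ?_⟩
    · refine (Nat.le_ceil _).trans ?_
      exact_mod_cast (le_max_left _ _).trans (le_max_right _ _)
    · refine (Nat.le_ceil _).trans ?_
      exact_mod_cast (le_max_right _ _).trans (le_max_right _ _)
  obtain ⟨n, hn⟩ : ∃ n : ℕ, n = l * N₀ := ⟨_, rfl⟩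
  obtain ⟨N, hN⟩ : ∃ N : ℕ, N = n + 1 := ⟨_, rfl⟩
  have hlN' : l ≤ N := by
    have : l ≤ n := by
      rw [hn]
      exact Nat.le_mul_of_pos_right _ hN₀
    omega
  have hlN : (l:ℝ) ≤ N := by exact_mod_cast hlN'
  have hN300 : (300:ℝ) ≤ N := by
    have : 300 ≤ N := by omega
    exact_mod_cast this
  have hNpos : (0:ℝ) < N := by linarith
  have hlen := key_len h0 hK0 (N := N) (by omega) (hl2.trans hlN)
  have hnR : (n:ℝ) = N - 1 := by rw [hN]; push_cast; ring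
  -- number of windows
  obtain ⟨M, hM⟩ : ∃ M : ℕ, M = ⌊v * N / (20 * w)⌋₊ := ⟨_, rfl⟩
  have hM_le : (M : ℝ) * (20 * w) ≤ v * N := by
    rw [← le_div_iff₀ (by positivity), hM]
    exact Nat.floor_le (by positivity)
  have hM_lt : v * N < ((M : ℝ) + 1) * (20 * w) := by
    rw [← div_lt_iff₀ (by positivity), hM]
    exact Nat.lt_floor_add_one _
  have hMbig : 1000000 ≤ M := by
    rw [hM]
    refine Nat.le_floor ?_
    rw [le_div_iff₀ (by positivity)]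
    have h5 := hl4.trans hlN
    rw [div_le_iff₀ hv0] at h5
    push_cast
    linarith
  have hM10 : 10 * φ * N - 1 ≤ M := by
    have h6 : 10 * φ * N * (20 * w) ≤ v * N := by
      have := mul_le_mul_of_nonneg_right hwφ hNpos.le
      linarith
    have h7 : 10 * φ * N * (20 * w) < ((M : ℝ) + 1) * (20 * w) := lt_of_le_of_lt h6 hM_lt
    have h8 := lt_of_mul_lt_mul_right h7 (by positivity)
    linarith
  -- the sets
  set X := (SawSet (Om 2) N).filter (fun ξ => IsBr Fr.B N ξ ∧ v * N - 1 ≤ (lev Fr.A ξ N : ℝ))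
    with hX
  have hlow : mu (Om 2) ^ n * Real.exp (-φ * n) ≤
      Real.exp (25 * (N : ℝ) ^ (3 / 4 : ℝ)) * (X.card : ℝ) := by
    have a1 := tJ_E Fr.A hh hb l n hn
    obtain ⟨h, hhc⟩ : ∃ h : ℤ, h = ⌈v * n⌉ := ⟨_, rfl⟩
    have a2 : ((SawSet (Om 2) n).filter (fun ξ => v * n ≤ (lev Fr.A ξ n : ℝ))).card ≤
        ((SawSet (Om 2) n).filter (fun ξ => h ≤ lev Fr.A ξ n)).card := by
      refine Finset.card_le_card (fun ξ hξ => ?_)
      rw [Finset.mem_filter] at hξ ⊢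
      refine ⟨hξ.1, ?_⟩
      rw [hhc]
      exact Int.ceil_le.mpr hξ.2
    have a3 := h_HWB hOrt n h
    have a4 : ((SawSet (Om 2) (n + 1)).filter (fun ξ => IsBr Fr.B (n + 1) ξ ∧
        h ≤ lev Fr.A ξ (n + 1))).card ≤ X.card := by
      refine Finset.card_le_card (fun ξ hξ => ?_)
      rw [hX, hN]
      rw [Finset.mem_filter] at hξ ⊢
      refine ⟨hξ.1, hξ.2.1, ?_⟩
      have b1 : (h : ℝ) ≤ (lev Fr.A ξ (n + 1) : ℝ) := by exact_mod_cast hξ.2.2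
      have b2 : v * n ≤ (h : ℝ) := by rw [hhc]; exact Int.le_ceil _
      push_cast
      linarith
    have a5 : (((SawSet (Om 2) n).filter (fun ξ => v * n ≤ (lev Fr.A ξ n : ℝ))).card : ℝ) ≤
        ((n : ℝ) + 1) ^ (2 * (Nat.sqrt (2 * n) + 1)) * (X.card : ℝ) := by
      have : ((SawSet (Om 2) n).filter (fun ξ => v * n ≤ (lev Fr.A ξ n : ℝ))).card ≤
        (n + 1) ^ (2 * (Nat.sqrt (2 * n) + 1)) * X.card :=
        a2.trans (a3.trans (Nat.mul_le_mul_left _ a4))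
      exact_mod_cast this
    refine a1.trans (a5.trans ?_)
    refine mul_le_mul_of_nonneg_right ((hwc_le n).trans ?_) (Nat.cast_nonneg _)
    refine Real.exp_le_exp.mpr ?_
    refine mul_le_mul_of_nonneg_left ?_ (by norm_num)
    refine Real.rpow_le_rpow (Nat.cast_nonneg _) ?_ (by norm_num)
    rw [hnR]; linarith
  set X1 := (SawSet (Om 2) N).filter (fun ξ => 1.455 * v * N ≤ Fr.κ * (lev Fr.B' ξ N : ℝ)) with hX1
  set X2 := (SawSet (Om 2) N).filter (fun ξ => v * N - 1 ≤ (lev Fr.A ξ N : ℝ) ∧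
    ∃ I : Finset (ℕ × ℕ), HF (lev Fr.B ξ) N r I ∧
      dl * v * N < (drop (lev Fr.B ξ) I : ℝ)) with hX2
  set X3 := (SawSet (Om 2) N).filter (fun ξ => IsBr Fr.B N ξ ∧ ∃ J : Finset ℕ, J ⊆ range (2 * M) ∧
    M ≤ 80 * J.card ∧ ∀ j ∈ J, NCd (lev Fr.B ξ) N r w τ j) with hX3
  set X4 := (SawSet (Om 2) N).filter (fun ξ => v * N - 1 ≤ (lev Fr.A ξ N : ℝ) ∧
    M ≤ 1000 * ((Good (lev Fr.B ξ) N w M).filter (fun k => dB' Fr N w ξ k ≤ 0)).card) with hX4
  set X5 := (SawSet (Om 2) N).filter (fun ξ => 2 * M ≤ 5 * (Good (lev Fr.B ξ) N w M).card ∧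
      ∃ J : Finset ℕ, (∀ k, k ∈ J ↔ k ∈ Good (lev Fr.B ξ) N w M ∧ dB' Fr N w ξ k ≤ 0) ∧
        1000 * J.card ≤ M) with hX5
  have hsub : X ⊆ X1 ∪ (X2 ∪ (X3 ∪ (X4 ∪ X5))) := by
    intro ξ hξ
    rw [hX, Finset.mem_filter] at hξ
    have hcov := h_CVR N r w τ M v ξ hv0 hv1 hr1 hrw hMbig hM_le hM_lt hwτ hξ.2.1 hξ.2.2
    simp only [Finset.mem_union, hX1, hX2, hX3, hX4, hX5, Finset.mem_filter]
    rcases hcov with h | h | h | h | h
    · exact Or.inl ⟨hξ.1, h⟩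
    · exact Or.inr (Or.inl ⟨hξ.1, hξ.2.2, h⟩)
    · exact Or.inr (Or.inr (Or.inl ⟨hξ.1, hξ.2.1, h⟩))
    · exact Or.inr (Or.inr (Or.inr (Or.inl ⟨hξ.1, hξ.2.2, h⟩)))
    · exact Or.inr (Or.inr (Or.inr (Or.inr ⟨hξ.1, h⟩)))
  have hcard : X.card ≤ X1.card + (X2.card + (X3.card + (X4.card + X5.card))) := by
    refine (Finset.card_le_card hsub).trans ?_
    refine (Finset.card_union_le _ _).trans (Nat.add_le_add_left ?_ _)
    refine (Finset.card_union_le _ _).trans (Nat.add_le_add_left ?_ _)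
    refine (Finset.card_union_le _ _).trans (Nat.add_le_add_left ?_ _)
    exact Finset.card_union_le _ _
  have hcardR : (X.card : ℝ) ≤ X1.card + (X2.card + (X3.card + (X4.card + X5.card))) := by
    exact_mod_cast hcard
  -- the common bound
  obtain ⟨E, hE⟩ : ∃ E : ℝ, E = (N : ℝ) ^ (3 / 4 : ℝ) := ⟨_, rfl⟩
  have hE0 : 0 ≤ E := by rw [hE]; positivity
  obtain ⟨R, hR⟩ : ∃ R : ℝ, R = C * ((N + 1) * Real.exp (50 * E) * mu (Om 2) ^ (N + 2) *
    Real.exp (-(2 * φ * N))) := ⟨_, rfl⟩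
  have hexp25 : Real.exp (25 * E) ≤ Real.exp (50 * E) := Real.exp_le_exp.mpr (by linarith)
  have hmuN : mu (Om 2) ^ (N + 1) ≤ mu (Om 2) ^ (N + 2) := pow_le_pow_right₀ hmu1 (by omega)
  have hmuN0 : 0 < mu (Om 2) ^ (N + 2) := by positivity
  have hN1 : (1:ℝ) ≤ N + 1 := by linarith
  have hgen : ∀ x : ℝ, x ≤ Real.exp (25 * E) * mu (Om 2) ^ (N + 1) * Real.exp (-(2 * φ * N)) * C →
      x ≤ R := by
    intro x hx
    refine hx.trans ?_
    rw [hR]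
    have c1 : Real.exp (25 * E) * mu (Om 2) ^ (N + 1) ≤
        (N + 1) * Real.exp (50 * E) * mu (Om 2) ^ (N + 2) := by
      refine mul_le_mul ?_ hmuN (by positivity) (by positivity)
      calc Real.exp (25 * E) ≤ Real.exp (50 * E) := hexp25
        _ = 1 * Real.exp (50 * E) := by ring
        _ ≤ _ := mul_le_mul_of_nonneg_right hN1 (Real.exp_pos _).le
    have c2 := mul_le_mul_of_nonneg_right (mul_le_mul_of_nonneg_right c1
      (Real.exp_pos (-(2 * φ * N))).le) hC0.le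
    refine c2.trans (le_of_eq (by ring))
  have hmN : 2 * φ * N ≤ m * N := by
    refine mul_le_mul_of_nonneg_right ?_ hNpos.le
    have : (0:ℝ) ≤ φ := h0.le
    linarith
  have hmN2 : 2 * φ * N ≤ 3 / 10 ^ 6 * m * N := by
    refine mul_le_mul_of_nonneg_right ?_ hNpos.le
    linarith
  -- bound for `X1`
  have b1 : (X1.card : ℝ) ≤ R := by
    obtain ⟨h, hhc⟩ : ∃ h : ℤ, h = ⌈1.455 * v * N / Fr.κ⌉ := ⟨_, rfl⟩
    have a1 : X1.card ≤ cge Fr.B' N h := by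
      unfold cge
      refine Finset.card_le_card (fun ξ hξ => ?_)
      rw [hX1, Finset.mem_filter] at hξ
      rw [Finset.mem_filter]
      refine ⟨hξ.1, ?_⟩
      rw [hhc]
      refine Int.ceil_le.mpr ?_
      rw [div_le_iff₀ hκ0]
      linarith [hξ.2]
    have a2 : (X1.card : ℝ) ≤ cge Fr.B N h := by
      rw [← cge_symm]
      exact_mod_cast a1
    have a3 : (br Fr.B (N + 1) h : ℝ) ≤ mu (Om 2) ^ (N + 1) * Real.exp (-m * ((N + 1 : ℕ) : ℝ)) := by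
      refine HB (N + 1) h ?_
      have c1 : 1.455 * v * N / Fr.κ ≤ (h : ℝ) := by rw [hhc]; exact Int.le_ceil _
      rw [div_le_iff₀ hκ0] at c1
      push_cast
      have c2 : v * 300 ≤ v * N := mul_le_mul_of_nonneg_left hN300 hv0.le
      nlinarith
    refine hgen _ ?_
    refine a2.trans ((cge_le Fr.B N h).trans ?_)
    rw [← hE]
    refine (mul_le_mul_of_nonneg_left a3 (Real.exp_pos _).le).trans ?_
    have c3 : Real.exp (-m * ((N + 1 : ℕ) : ℝ)) ≤ Real.exp (-(2 * φ * N)) := by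
      refine Real.exp_le_exp.mpr ?_
      push_cast
      nlinarith
    rw [← mul_assoc]
    have c4 := mul_le_mul_of_nonneg_left c3
      (show 0 ≤ Real.exp (25 * E) * mu (Om 2) ^ (N + 1) by positivity)
    refine c4.trans ?_
    exact le_mul_of_one_le_right (by positivity) hC1
  have hC67 : Real.exp (6 + 2 / v) ≤ C := by
    rw [hC]
    exact Real.exp_le_exp.mpr (by linarith)
  have b2 : (X2.card : ℝ) ≤ R := by
    have := h_HVY N r v m hOrt hv0 hv1 hm0 hm1 hr1 FA hlog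
    rw [← hE] at this
    refine this.trans ?_
    rw [hR]
    have c1 : Real.exp (-(3 / 10 ^ 6 * m * N)) ≤ Real.exp (-(2 * φ * N)) :=
      Real.exp_le_exp.mpr (by linarith)
    calc (N + 1) * Real.exp (25 * E) * mu (Om 2) ^ (N + 1) *
        Real.exp (6 + 2 / v) * Real.exp (-(3 / 10 ^ 6 * m * N))
        ≤ (N + 1) * Real.exp (50 * E) * mu (Om 2) ^ (N + 2) * C * Real.exp (-(2 * φ * N)) := by
          gcongr
      _ = _ := by ring
  have b4 : (X4.card : ℝ) ≤ R := by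
    have := h_EXT N r w M v m hv0 hv1 hm0 hm1 hr1 hrw hMbig hM_le hM_lt FA FB hlog
    rw [← hE] at this
    refine this.trans ?_
    rw [hR]
    have c1 : Real.exp (-(3 / 10 ^ 6 * m * N)) ≤ Real.exp (-(2 * φ * N)) :=
      Real.exp_le_exp.mpr (by linarith)
    calc (N + 1) * Real.exp (50 * E) * mu (Om 2) ^ (N + 2) *
        Real.exp (6 + 2 / v) * Real.exp (-(3 / 10 ^ 6 * m * N))
        ≤ (N + 1) * Real.exp (50 * E) * mu (Om 2) ^ (N + 2) * C * Real.exp (-(2 * φ * N)) := by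
          gcongr
      _ = _ := by ring
  have hcc := cc_le Fr.A N
  rw [← hE] at hcc
  have b35 : ∀ x : ℝ, x * Real.exp (M / 5) ≤ (cc (Om 2) N : ℝ) → x ≤ R := by
    intro x hx
    refine hgen x ?_
    have hexp : 0 < Real.exp ((M:ℝ) / 5) := Real.exp_pos _
    have h5 : x ≤ (cc (Om 2) N : ℝ) * Real.exp (-(M / 5)) := by
      rw [Real.exp_neg, ← div_eq_mul_inv, le_div_iff₀ hexp]
      exact hx
    refine h5.trans ?_
    refine (mul_le_mul_of_nonneg_right hcc (Real.exp_pos _).le).trans ?_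
    rw [mul_assoc (Real.exp (25 * E) * mu (Om 2) ^ (N + 1)), hC, ← Real.exp_add]
    refine mul_le_mul_of_nonneg_left (Real.exp_le_exp.mpr ?_) (by positivity)
    have : (0:ℝ) < 2 / v := by positivity
    linarith
  have b3 : (X3.card : ℝ) ≤ R := b35 _ (h_NCX hPl N r w τ M hr1 hrw hD0)
  have b5 : (X5.card : ℝ) ≤ R := b35 _ (tJ_X5 Fr N M w hw1)
  -- conclusion
  have hXR : (X.card : ℝ) ≤ 5 * R := by linarith
  have f1 : mu (Om 2) ^ n * Real.exp (-φ * n) ≤ Real.exp (25 * E) * (5 * R) := by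
    rw [← hE] at hlow
    exact hlow.trans (mul_le_mul_of_nonneg_left hXR (Real.exp_pos _).le)
  have f2 : mu (Om 2) ^ (N + 2) = mu (Om 2) ^ n * mu (Om 2) ^ 3 := by
    rw [← pow_add]; congr 1; omega
  have f3 : Real.exp (25 * E) * (5 * R) = mu (Om 2) ^ n *
      ((5 * C * mu (Om 2) ^ 3) * (N + 1) * Real.exp (75 * E) * Real.exp (-(2 * φ * N))) := by
    rw [hR, f2, show (75 * E) = 25 * E + 50 * E by ring, Real.exp_add]; ring
  rw [f3] at f1
  have f4 := le_of_mul_le_mul_left f1 (show 0 < mu (Om 2) ^ n by positivity)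
  have hNp1 : (0:ℝ) < (N:ℝ) + 1 := by linarith
  have hKpos : (0:ℝ) < 5 * C * mu (Om 2) ^ 3 := by linarith
  rw [show (5 * C * mu (Om 2) ^ 3) = Real.exp K by rw [hK, Real.exp_log hKpos],
    show ((N:ℝ) + 1) = Real.exp (Real.log (N + 1)) by rw [Real.exp_log hNp1],
    ← Real.exp_add, ← Real.exp_add, ← Real.exp_add] at f4
  have f5 := Real.exp_le_exp.mp f4
  rw [hnR] at f5
  rw [← hE] at hlen
  nlinarith

end Pool.Agent.H979R2.P2
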