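import Pool.Agent.H979R2.P2.Stubs
import Pool.Agent.H725R2.SB.TN2

/-! MOM: mean square displacement. -/

set_option autoImplicit false

namespace Pool.Agent.H979R2.P2

open Finset
open Pool.Agent.H725R2.SB
open Pool.Agent.H979R2.NP (NCd hit D0 Yb)

theorem mom_abs_le {d N : ℕ} {w : Fin (N + 1) → (Fin d → ℤ)} (hw : IsSAW d N w)
    (k : Fin d) : ∀ (n : ℕ) (hn : n < N + 1), |w ⟨n, hn⟩ k| ≤ n := by
  intro n
  induction n with
  | zero =>
    intro hn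
    have h0 : w ⟨0, hn⟩ = 0 := hw.1
    rw [h0]
    simp
  | succ n ih =>
    intro hn
    have h1 := ih (by omega)
    have h2 := hw.2.1 ⟨n, by omega⟩
    have h3 : |w (Fin.succ ⟨n, by omega⟩) k - w (Fin.castSucc ⟨n, by omega⟩) k| ≤ 1 := by
      rw [← h2]
      exact Finset.single_le_sum (f := fun k => |w (Fin.succ ⟨n, by omega⟩) k -
        w (Fin.castSucc ⟨n, by omega⟩) k|) (fun i _ => abs_nonneg _) (Finset.mem_univ k)
    have h4 : (Fin.succ ⟨n, by omega⟩ : Fin (N + 1)) = ⟨n + 1, hn⟩ := rfl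
    have h5 : (Fin.castSucc ⟨n, by omega⟩ : Fin (N + 1)) = ⟨n, by omega⟩ := rfl
    rw [h4, h5] at h3
    have h6 : |w ⟨n + 1, hn⟩ k| ≤ |w ⟨n + 1, hn⟩ k - w ⟨n, by omega⟩ k| + |w ⟨n, by omega⟩ k| := by
      have := abs_add_le (w ⟨n + 1, hn⟩ k - w ⟨n, by omega⟩ k) (w ⟨n, by omega⟩ k)
      simpa using this
    push_cast
    linarith

theorem mom_finite (N : ℕ) : Finite {w : Fin (N + 1) → (Fin 2 → ℤ) // IsSAW 2 N w} :=
  Finite.of_equiv _ (tN2_equiv 2 N).symm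

/-- exponential beats powers -/
theorem mom_exp (b : ℝ) : ∃ K : ℝ, 0 < K ∧ ∀ N : ℕ, 1 ≤ N →
    (N : ℝ) ^ b * Real.exp (-(N : ℝ) ^ (4 / 5 : ℝ)) ≤ K := by
  obtain ⟨k, hk⟩ := exists_nat_ge (b * (5 / 4))
  refine ⟨(k.factorial : ℝ), by exact_mod_cast Nat.factorial_pos k, fun N hN => ?_⟩
  have hN1 : (1 : ℝ) ≤ N := by exact_mod_cast hN
  have hN0 : (0 : ℝ) < N := by linarith
  set y : ℝ := (N : ℝ) ^ (4 / 5 : ℝ) with hy
  have hy1 : 1 ≤ y := Real.one_le_rpow hN1 (by norm_num)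
  have hy0 : 0 < y := by linarith
  have h1 : (N : ℝ) ^ b ≤ y ^ k := by
    rw [hy, ← Real.rpow_natCast, ← Real.rpow_mul hN0.le]
    apply Real.rpow_le_rpow_of_exponent_le hN1
    linarith
  have h2 : y ^ k ≤ k.factorial * Real.exp y := by
    have h3 := Real.pow_div_factorial_le_exp y hy0.le k
    have h4 : (0 : ℝ) < k.factorial := by exact_mod_cast Nat.factorial_pos k
    rwa [div_le_iff₀ h4, mul_comm] at h3
  rw [Real.exp_neg]
  have h5 := Real.exp_pos y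
  calc (N : ℝ) ^ b * (Real.exp y)⁻¹ ≤ (k.factorial * Real.exp y) * (Real.exp y)⁻¹ := by
        refine mul_le_mul_of_nonneg_right (h1.trans h2) (by positivity)
    _ = k.factorial := by field_simp

theorem p_MOM (h_FIN : St_FIN) : St_MOM := by
  classical
  obtain ⟨c0, C0, hc0, hC0, hfin⟩ := h_FIN
  obtain ⟨K, hK, hexp⟩ := mom_exp (2 + 2 * c0)
  refine ⟨2 * c0, 2 + 2 * C0 * K, by positivity, by positivity, fun N hN => ?_⟩
  have hfar := hfin N hN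
  have hN1 : (1 : ℝ) ≤ N := by
    have : 1 ≤ N := by omega
    exact_mod_cast this
  have hN0 : (0 : ℝ) < N := by linarith
  set ll := Real.log (Real.log N) with hll
  have hll1 : 1 ≤ ll := by
    have h16 : (16 : ℝ) ≤ N := by exact_mod_cast hN
    have h2 := Real.log_two_gt_d9
    have h3 : Real.log 16 = 4 * Real.log 2 := by
      rw [show (16 : ℝ) = 2 ^ 4 by norm_num, Real.log_pow]
      norm_num
    have h4 : Real.exp 1 ≤ Real.log N := by
      have h5 := Real.exp_one_lt_d9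
      have h6 := Real.log_le_log (by norm_num : (0 : ℝ) < 16) h16
      linarith
    calc (1 : ℝ) = Real.log (Real.exp 1) := (Real.log_exp 1).symm
      _ ≤ ll := Real.log_le_log (Real.exp_pos 1) h4
  set R : ℝ := (N : ℝ) ^ (1 - c0 / ll) with hR
  have hR0 : 0 < R := Real.rpow_pos_of_pos hN0 _
  have hR2 : R ^ 2 = (N : ℝ) ^ (2 - 2 * c0 / ll) := by
    rw [hR, ← Real.rpow_natCast, ← Real.rpow_mul hN0.le]
    congr 1
    push_cast
    ring
  have hfinite := mom_finite N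
  let _ : Fintype {w : Fin (N + 1) → (Fin 2 → ℤ) // IsSAW 2 N w} := Fintype.ofFinite _
  rw [finsum_eq_sum_of_fintype]
  -- the walks which go far
  set Far : {w : Fin (N + 1) → (Fin 2 → ℤ) // IsSAW 2 N w} → Prop :=
    fun w => ∃ i k, R ≤ |((w.1 i k : ℤ) : ℝ)| with hFar
  have hcfar : ((Finset.univ.filter Far).card : ℝ) = (cfar 2 N R : ℝ) := by
    unfold cfar
    rw [← Fintype.card_subtype, ← Nat.card_eq_fintype_card]
    congr 1
    refine Nat.card_congr ?_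
    exact (Equiv.subtypeSubtypeEquivSubtypeInter (fun w => IsSAW 2 N w)
      (fun w => ∃ i k, R ≤ |((w i k : ℤ) : ℝ)|))
  have hcN : ((Finset.univ : Finset {w : Fin (N + 1) → (Fin 2 → ℤ) // IsSAW 2 N w}).card : ℝ) =
      (cN 2 N : ℝ) := by
    unfold cN
    rw [Nat.card_eq_fintype_card, Finset.card_univ]
  have hterm : ∀ w : {w : Fin (N + 1) → (Fin 2 → ℤ) // IsSAW 2 N w},
      ((w.1 (Fin.last N) 0 : ℤ) : ℝ) ^ 2 + ((w.1 (Fin.last N) 1 : ℤ) : ℝ) ^ 2 ≤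
        2 * R ^ 2 + if Far w then 2 * (N : ℝ) ^ 2 else 0 := by
    intro w
    split_ifs with h
    · have h1 : ∀ k : Fin 2, ((w.1 (Fin.last N) k : ℤ) : ℝ) ^ 2 ≤ (N : ℝ) ^ 2 := by
        intro k
        rw [← sq_abs]
        refine pow_le_pow_left₀ (abs_nonneg _) ?_ 2
        have h2 := mom_abs_le w.2 k N (Nat.lt_succ_self N)
        have h3 : (Fin.last N : Fin (N + 1)) = ⟨N, Nat.lt_succ_self N⟩ := rfl
        rw [h3]
        exact_mod_cast h2
      have h2 := h1 0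
      have h3 := h1 1
      have h4 : 0 ≤ R ^ 2 := sq_nonneg R
      linarith
    · have h1 : ∀ k : Fin 2, ((w.1 (Fin.last N) k : ℤ) : ℝ) ^ 2 ≤ R ^ 2 := by
        intro k
        rw [← sq_abs]
        refine pow_le_pow_left₀ (abs_nonneg _) ?_ 2
        by_contra hcon
        push Not at hcon
        exact h ⟨Fin.last N, k, hcon.le⟩
      have h2 := h1 0
      have h3 := h1 1
      linarith
  have hsum : ∑ w : {w : Fin (N + 1) → (Fin 2 → ℤ) // IsSAW 2 N w},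
      (((w.1 (Fin.last N) 0 : ℤ) : ℝ) ^ 2 + ((w.1 (Fin.last N) 1 : ℤ) : ℝ) ^ 2) ≤
      2 * R ^ 2 * cN 2 N + 2 * (N : ℝ) ^ 2 * cfar 2 N R := by
    refine (Finset.sum_le_sum fun w _ => hterm w).trans (le_of_eq ?_)
    rw [Finset.sum_add_distrib, Finset.sum_const, nsmul_eq_mul, hcN, ← Finset.sum_filter,
      Finset.sum_const, nsmul_eq_mul, hcfar]
    ring
  refine hsum.trans ?_
  have hcN0 : (0 : ℝ) ≤ cN 2 N := Nat.cast_nonneg _
  have hmain : 2 * (N : ℝ) ^ 2 * cfar 2 N R ≤ 2 * C0 * K * (N : ℝ) ^ (2 - 2 * c0 / ll) * cN 2 N := by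
    have h1 : (N : ℝ) ^ 2 * Real.exp (-(N : ℝ) ^ (4 / 5 : ℝ)) ≤ K * (N : ℝ) ^ (2 - 2 * c0 / ll) := by
      have h2 := hexp N (by omega)
      have h3 : (N : ℝ) ^ (2 + 2 * c0) = (N : ℝ) ^ 2 * (N : ℝ) ^ (2 * c0) := by
        rw [Real.rpow_add hN0]
        norm_num
      rw [h3] at h2
      have h4 : (N : ℝ) ^ (-(2 * c0)) ≤ (N : ℝ) ^ (2 - 2 * c0 / ll) := by
        apply Real.rpow_le_rpow_of_exponent_le hN1
        have h5 : 2 * c0 / ll ≤ 2 * c0 := div_le_self (by positivity) hll1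
        linarith
      have h6 : (N : ℝ) ^ (2 * c0) * (N : ℝ) ^ (-(2 * c0)) = 1 := by
        rw [← Real.rpow_add hN0]
        simp
      have h7 : 0 < (N : ℝ) ^ (-(2 * c0)) := Real.rpow_pos_of_pos hN0 _
      calc (N : ℝ) ^ 2 * Real.exp (-(N : ℝ) ^ (4 / 5 : ℝ))
          = ((N : ℝ) ^ 2 * (N : ℝ) ^ (2 * c0) * Real.exp (-(N : ℝ) ^ (4 / 5 : ℝ))) *
            (N : ℝ) ^ (-(2 * c0)) := by
            rw [show (N : ℝ) ^ 2 * (N : ℝ) ^ (2 * c0) * Real.exp (-(N : ℝ) ^ (4 / 5 : ℝ)) *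
              (N : ℝ) ^ (-(2 * c0)) = (N : ℝ) ^ 2 * Real.exp (-(N : ℝ) ^ (4 / 5 : ℝ)) *
              ((N : ℝ) ^ (2 * c0) * (N : ℝ) ^ (-(2 * c0))) by ring, h6, mul_one]
        _ ≤ K * (N : ℝ) ^ (-(2 * c0)) := mul_le_mul_of_nonneg_right h2 h7.le
        _ ≤ K * (N : ℝ) ^ (2 - 2 * c0 / ll) := mul_le_mul_of_nonneg_left h4 hK.le
    calc 2 * (N : ℝ) ^ 2 * cfar 2 N R
        ≤ 2 * (N : ℝ) ^ 2 * (C0 * Real.exp (-(N : ℝ) ^ (4 / 5 : ℝ)) * cN 2 N) :=
          mul_le_mul_of_nonneg_left hfar (by positivity)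
      _ = 2 * C0 * ((N : ℝ) ^ 2 * Real.exp (-(N : ℝ) ^ (4 / 5 : ℝ))) * cN 2 N := by ring
      _ ≤ 2 * C0 * (K * (N : ℝ) ^ (2 - 2 * c0 / ll)) * cN 2 N := by
          refine mul_le_mul_of_nonneg_right ?_ hcN0
          exact mul_le_mul_of_nonneg_left h1 (by positivity)
      _ = 2 * C0 * K * (N : ℝ) ^ (2 - 2 * c0 / ll) * cN 2 N := by ring
  rw [hR2]
  linarith

end Pool.Agent.H979R2.P2
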