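import Pool.Agent.H979R2.P2.Stubs

/-! NCX: walks with many closed windows. -/

set_option autoImplicit false

namespace Pool.Agent.H979R2.P2

open Finset
open Pool.Agent.H725R2.SB
open Pool.Agent.H979R2.NP (NCd hit D0 Yb)

theorem ncx_D0_pos {r : ℕ} (hr : 1 ≤ r) (τ : ℕ) : 0 < D0 r τ := by
  have h1 : (0 : ℝ) < r := by exact_mod_cast hr
  have h2 : 0 < Yb (4 * (r : ℤ)) τ := by
    unfold Yb
    have h3 : 0 ≤ Real.log ((τ : ℝ) + 1) := Real.log_nonneg (by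
      have : (0 : ℝ) ≤ τ := Nat.cast_nonneg τ
      linarith)
    positivity
  unfold D0
  positivity

theorem ncx_card {α : Type*} (s : Finset α) (P Q : α → Prop) {_ : DecidablePred P} {_ : DecidablePred Q}
    (h : ∀ x, P x → Q x) : (s.filter P).card ≤ (s.filter Q).card := by
  refine Finset.card_le_card ?_
  intro x hx
  rw [Finset.mem_filter] at hx ⊢
  exact ⟨hx.1, h x hx.2⟩

theorem ncx_arith {D : ℝ} (hD0 : 0 < D) {X X' c w k M : ℕ} (hD : 2 ^ 240 * D ≤ w)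
    (hk1 : M ≤ 80 * k) (hle : X ≤ X')
    (h1 : (X' : ℝ) * (w : ℝ) ^ k ≤ 2 ^ (2 * M) * D ^ k * (c : ℝ)) :
    (X : ℝ) * Real.exp (M / 5) ≤ (c : ℝ) := by
  have h2 : (X : ℝ) * (w : ℝ) ^ k ≤ 2 ^ (2 * M) * D ^ k * (c : ℝ) := by
    refine le_trans ?_ h1
    refine mul_le_mul_of_nonneg_right ?_ (by positivity)
    exact_mod_cast hle
  have h3 : (2 : ℝ) ^ (3 * M) * D ^ k ≤ (w : ℝ) ^ k := by
    calc (2 : ℝ) ^ (3 * M) * D ^ k ≤ 2 ^ (240 * k) * D ^ k := by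
          refine mul_le_mul_of_nonneg_right ?_ (by positivity)
          exact pow_le_pow_right₀ (by norm_num) (by omega)
      _ = (2 ^ 240 * D) ^ k := by rw [mul_pow, pow_mul]
      _ ≤ (w : ℝ) ^ k := pow_le_pow_left₀ (by positivity) hD k
  have h4 : (X : ℝ) * ((2 : ℝ) ^ (3 * M) * D ^ k) ≤ 2 ^ (2 * M) * D ^ k * (c : ℝ) :=
    (mul_le_mul_of_nonneg_left h3 (Nat.cast_nonneg _)).trans h2
  have hDk : 0 < D ^ k := by positivity
  have h5 : (X : ℝ) * 2 ^ M ≤ (c : ℝ) := by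
    have e1 : (2 : ℝ) ^ (3 * M) = 2 ^ (2 * M) * 2 ^ M := by rw [← pow_add]; congr 1; omega
    rw [e1] at h4
    have hpos : (0 : ℝ) < 2 ^ (2 * M) * D ^ k := by positivity
    refine le_of_mul_le_mul_left ?_ hpos
    calc (2 : ℝ) ^ (2 * M) * D ^ k * ((X : ℝ) * 2 ^ M)
        = (X : ℝ) * (2 ^ (2 * M) * 2 ^ M * D ^ k) := by ring
      _ ≤ _ := h4
  have h6 : Real.exp ((M : ℝ) / 5) ≤ 2 ^ M := by
    have e1 : Real.exp ((M : ℝ) / 5) = Real.exp (1 / 5) ^ M := by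
      rw [← Real.exp_nat_mul]
      congr 1
      ring
    rw [e1]
    refine pow_le_pow_left₀ (Real.exp_pos _).le ?_ M
    have h7 : (1 : ℝ) / 5 ≤ Real.log 2 := by
      have := Real.log_two_gt_d9
      linarith
    calc Real.exp (1 / 5) ≤ Real.exp (Real.log 2) := Real.exp_le_exp.2 h7
      _ = 2 := Real.exp_log (by norm_num)
  exact (mul_le_mul_of_nonneg_left h6 (Nat.cast_nonneg _)).trans h5

theorem p_NCX (L : Lev (Om 2)) : St_NCX L := by
  intro hPl N r w τ M hr hw hD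
  refine ncx_arith (k := (M + 79) / 80) (ncx_D0_pos hr τ) hD (by omega)
    (ncx_card _ _ _ ?_) (hPl N r w τ (2 * M) ((M + 79) / 80) hr hw)
  rintro ξ ⟨h2, J, h3, h4, h5⟩
  exact ⟨h2, J, h3, by omega, h5⟩

end Pool.Agent.H979R2.P2
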