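import Pool.Agent.H979R2.P2.Stubs

/-!
# Almost power law, Part II, task PAR: choice of the parameters
-/

set_option autoImplicit false

namespace Pool.Agent.H979R2.P2

open Finset
open Pool.Agent.H725R2.SB
open Pool.Agent.H979R2.NP (NCd hit D0 Yb)

theorem par_pow_le {L : ℝ} (hL : (2:ℝ) ^ 150 ≤ L) : L ^ 10 ≤ Real.exp (L / 2) := by
  have h0 : (0:ℝ) < L := lt_of_lt_of_le (by norm_num) hL
  have h1 := Real.pow_div_factorial_le_exp (x := L / 2) (by positivity) 11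
  refine le_trans ?_ h1
  rw [le_div_iff₀ (by positivity)]
  have h2 : ((Nat.factorial 11 : ℕ) : ℝ) ≤ 2 ^ 26 := by
    norm_num [Nat.factorial]
  have h3 : (L / 2) ^ 11 = L ^ 10 * (L / 2 ^ 11) := by ring
  rw [h3]
  refine mul_le_mul_of_nonneg_left (h2.trans ?_) (by positivity)
  rw [le_div_iff₀ (by positivity)]
  refine le_trans ?_ hL
  norm_num

theorem par_natlog {n : ℕ} {L φ : ℝ} (hL : L = Real.log (1 / φ)) (hn : 1 ≤ n)
    (h : (n : ℝ) ≤ 1 / φ) : (Nat.log 2 n : ℝ) ≤ 1.5 * L := by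
  have hnpos : (0:ℝ) < n := by exact_mod_cast hn
  have h1 : (2:ℝ) ^ (Nat.log 2 n) ≤ n := by
    exact_mod_cast Nat.pow_log_le_self 2 (by omega)
  have h2 := Real.log_le_log (by positivity) h1
  rw [Real.log_pow] at h2
  have h3 := Real.log_le_log hnpos h
  rw [← hL] at h3
  have h4 := Real.log_two_gt_d9
  have h5 : (0:ℝ) ≤ (Nat.log 2 n : ℝ) := Nat.cast_nonneg _
  nlinarith

theorem p_PAR : St_PAR := by
  refine ⟨Real.exp (-(2 ^ 150)), Real.exp_pos _, ?_⟩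
  intro φ v h0 h1 hv hv1
  obtain ⟨L, hL⟩ : ∃ L : ℝ, L = Real.log (1 / φ) := ⟨_, rfl⟩
  have hφ : φ = Real.exp (-L) := by
    rw [hL, one_div, Real.log_inv, neg_neg, Real.exp_log h0]
  have hL0 : (2:ℝ) ^ 150 ≤ L := by
    rw [hφ] at h1
    have := Real.exp_lt_exp.mp h1
    linarith
  have hLpos : (0:ℝ) < L := lt_of_lt_of_le (by norm_num) hL0
  have hLbig : (10:ℝ) ^ 10 ≤ L := le_trans (by norm_num) hL0
  have hL1 : (1:ℝ) ≤ L := le_trans (by norm_num) hLbig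
  have hpow := par_pow_le hL0
  have hv0 : 0 < v := lt_of_lt_of_le (Real.rpow_pos_of_pos h0 _) hv
  have hPsi : Psi φ = φ * L ^ 10 := by unfold Psi; rw [← hL]
  have hPsi0 : 0 < Psi φ := by rw [hPsi]; positivity
  have h10 : (10:ℝ) ^ 7 ≤ L ^ 10 := by
    calc (10:ℝ) ^ 7 ≤ L := le_trans (by norm_num) hLbig
      _ = L ^ 1 := (pow_one L).symm
      _ ≤ L ^ 10 := pow_le_pow_right₀ hL1 (by norm_num)
  have h9 : (10:ℝ) ^ 10 ≤ L ^ 9 := by
    calc (10:ℝ) ^ 10 ≤ L := hLbig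
      _ = L ^ 1 := (pow_one L).symm
      _ ≤ L ^ 9 := pow_le_pow_right₀ hL1 (by norm_num)
  -- `u = v / φ`
  obtain ⟨u, hu⟩ : ∃ u : ℝ, u = v / φ := ⟨_, rfl⟩
  have huv : u * φ = v := by rw [hu]; field_simp
  have hu0 : 0 < u := by rw [hu]; positivity
  have huL : L ^ 10 ≤ u := by
    refine hpow.trans ?_
    rw [hu, le_div_iff₀ h0]
    refine le_trans ?_ hv
    have e1 : φ ^ (1 / 5 : ℝ) = Real.exp (-L * (1 / 5)) := by
      rw [hφ, ← Real.exp_mul]
    rw [e1, hφ, ← Real.exp_add]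
    exact Real.exp_le_exp.mpr (by linarith)
  have hu1 : u ≤ 1 / φ := by
    rw [hu]
    exact div_le_div_of_nonneg_right hv1 h0.le
  have hubig : (10:ℝ) ^ 7 ≤ u := h10.trans huL
  have huR : 1 ≤ u / L ^ 9 := by
    rw [le_div_iff₀ (by positivity), one_mul]
    exact (pow_le_pow_right₀ hL1 (by norm_num)).trans huL
  refine ⟨?_, ?_, ?_⟩
  · rw [hPsi]
    have : φ * L ^ 10 ≤ φ * Real.exp (L / 2) := mul_le_mul_of_nonneg_left hpow h0.le
    refine this.trans ?_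
    rw [hφ, ← Real.exp_add]
    exact Real.exp_le_one_iff.mpr (by linarith)
  · rw [hPsi, mul_comm]
    exact mul_le_mul_of_nonneg_left h10 h0.le
  obtain ⟨r, hr⟩ : ∃ r : ℕ, r = ⌈16 * (u / L ^ 9)⌉₊ := ⟨_, rfl⟩
  obtain ⟨w, hw⟩ : ∃ w : ℕ, w = ⌊u / 200⌋₊ := ⟨_, rfl⟩
  obtain ⟨τ, hτ⟩ : ∃ τ : ℕ, τ = ⌈1700 * (w : ℝ) / v⌉₊ := ⟨_, rfl⟩
  have hr_ge : 16 * (u / L ^ 9) ≤ r := by rw [hr]; exact Nat.le_ceil _
  have hr_le : (r : ℝ) ≤ 17 * (u / L ^ 9) := by
    have := (Nat.ceil_lt_add_one (show (0:ℝ) ≤ 16 * (u / L ^ 9) by positivity)).le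
    rw [← hr] at this
    linarith
  have hr1R : (1:ℝ) ≤ r := by linarith
  have hr1 : 1 ≤ r := by exact_mod_cast hr1R
  have hw_le : (w : ℝ) ≤ u / 200 := by rw [hw]; exact Nat.floor_le (by positivity)
  have hw_ge : u / 201 ≤ w := by
    have := Nat.lt_floor_add_one (u / 200)
    rw [← hw] at this
    linarith
  have hτ_ge : 1700 * (w : ℝ) / v ≤ τ := by rw [hτ]; exact Nat.le_ceil _
  have hw0 : (0:ℝ) ≤ w := Nat.cast_nonneg _
  have hφinv : (10:ℝ) ^ 7 ≤ 1 / φ := hubig.trans hu1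
  have hτ_le : (τ : ℝ) ≤ 9 * (1 / φ) := by
    have := (Nat.ceil_lt_add_one (show (0:ℝ) ≤ 1700 * (w : ℝ) / v by positivity)).le
    rw [← hτ] at this
    have h2 : 1700 * (w : ℝ) / v ≤ 8.5 * (1 / φ) := by
      rw [div_le_iff₀ hv0]
      have e : 8.5 * (1 / φ) * v = 8.5 * u := by rw [hu]; field_simp
      rw [e]; linarith
    linarith
  refine ⟨r, w, τ, hr1, ?_, ?_, ?_, ?_, ?_⟩
  · -- `400 r ≤ w`
    have h2 : (400 : ℝ) * r ≤ w := by
      refine le_trans ?_ hw_ge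
      have h3 : 400 * (r:ℝ) ≤ 6800 * (u / L ^ 9) := by linarith
      refine h3.trans ?_
      have h4 : u / L ^ 9 ≤ u / 10 ^ 10 := div_le_div_of_nonneg_left hu0.le (by norm_num) h9
      linarith
    exact_mod_cast h2
  · -- `16 v log (10^7 / m) ≤ m r`
    have h2 : Real.log (10 ^ 7 / Psi φ) ≤ L := by
      rw [hL]
      refine Real.log_le_log (by positivity) ?_
      rw [hPsi, div_le_div_iff₀ (by positivity) h0]
      have := mul_le_mul_of_nonneg_right h10 h0.le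
      linarith
    have h3 : 16 * v * Real.log (10 ^ 7 / Psi φ) ≤ 16 * v * L :=
      mul_le_mul_of_nonneg_left h2 (by positivity)
    refine h3.trans ?_
    have h4 := mul_le_mul_of_nonneg_left hr_ge hPsi0.le
    refine le_trans (le_of_eq ?_) h4
    rw [hPsi, ← huv]
    field_simp
  · -- `2 ^ 240 * D0 r τ ≤ w`
    refine le_trans ?_ hw_ge
    have hr4 : (4 * (r : ℤ)).toNat = 4 * r := by omega
    have hrφ : ((4 * r : ℕ) : ℝ) ≤ 1 / φ := by
      push_cast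
      refine le_trans ?_ hu1
      have h4 : u / L ^ 9 ≤ u / 10 ^ 10 := div_le_div_of_nonneg_left hu0.le (by norm_num) h9
      linarith
    have hrφ1 : (r : ℝ) ≤ 1 / φ := by
      push_cast at hrφ
      linarith
    have l1 : (Nat.log 2 r : ℝ) + 1 ≤ 2 * L := by
      have := par_natlog hL hr1 hrφ1
      linarith
    have l2 : (Nat.log 2 (4 * (r : ℤ)).toNat : ℝ) + 2 ≤ 2 * L := by
      rw [hr4]
      have := par_natlog hL (n := 4 * r) (by omega) hrφ
      linarith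
    have l3 : 1 + 3 * Real.log ((τ : ℝ) + 1) ≤ 4 * L := by
      have a1 : (τ : ℝ) + 1 ≤ 10 * (1 / φ) := by linarith
      have a2 := Real.log_le_log (by positivity) a1
      rw [Real.log_mul (by norm_num) (by positivity), ← hL] at a2
      have a3 : Real.log 10 ≤ 9 := by
        have := Real.log_le_sub_one_of_pos (show (0:ℝ) < 10 by norm_num)
        linarith
      linarith
    have l3' : 0 ≤ 1 + 3 * Real.log ((τ : ℝ) + 1) := by
      have : 0 ≤ Real.log ((τ : ℝ) + 1) := Real.log_nonneg (by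
        have : (0:ℝ) ≤ τ := Nat.cast_nonneg _
        linarith)
      linarith
    have hYb : Yb (4 * (r : ℤ)) τ ≤ 128 * L ^ 3 := by
      unfold Yb
      calc 8 * ((Nat.log 2 (4 * (r : ℤ)).toNat : ℝ) + 2) ^ 2 * (1 + 3 * Real.log ((τ : ℝ) + 1))
          ≤ 8 * (2 * L) ^ 2 * (4 * L) := by gcongr
        _ = 128 * L ^ 3 := by ring
    have hYb0 : 0 ≤ Yb (4 * (r : ℤ)) τ := by
      unfold Yb
      positivity
    have hD : D0 r τ ≤ (34 * 16384 * 10 ^ 6) * (u / L ^ 2) := by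
      unfold D0
      calc (r : ℝ) * (10 ^ 6 * ((Nat.log 2 r : ℝ) + 1) * (Yb (4 * (r : ℤ)) τ) ^ 2)
          ≤ (17 * (u / L ^ 9)) * (10 ^ 6 * (2 * L) * (128 * L ^ 3) ^ 2) := by gcongr
        _ = (34 * 16384 * 10 ^ 6) * (u / L ^ 2) := by
            field_simp; ring
    refine (mul_le_mul_of_nonneg_left hD (by positivity)).trans ?_
    have hL2 : (2:ℝ) ^ 240 * 10 ^ 15 ≤ L ^ 2 := by
      calc (2:ℝ) ^ 240 * 10 ^ 15 ≤ (2 ^ 150) ^ 2 := by norm_num
        _ ≤ L ^ 2 := pow_le_pow_left₀ (by norm_num) hL0 2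
    have h5 : u / L ^ 2 ≤ u / (2 ^ 240 * 10 ^ 15) :=
      div_le_div_of_nonneg_left hu0.le (by positivity) hL2
    calc (2:ℝ) ^ 240 * ((34 * 16384 * 10 ^ 6) * (u / L ^ 2))
        ≤ (2:ℝ) ^ 240 * ((34 * 16384 * 10 ^ 6) * (u / (2 ^ 240 * 10 ^ 15))) := by gcongr
      _ = u * ((34 * 16384 * 10 ^ 6) / 10 ^ 15) := by field_simp
      _ ≤ u / 201 := by
          rw [div_eq_mul_inv u 201]
          refine mul_le_mul_of_nonneg_left ?_ hu0.le
          norm_num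
  · -- `1700 w ≤ v τ`
    rw [div_le_iff₀ hv0] at hτ_ge
    linarith
  · -- `200 φ w ≤ v`
    rw [← huv]
    have := mul_le_mul_of_nonneg_left hw_le h0.le
    linarith

end Pool.Agent.H979R2.P2
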