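import Pool.Agent.H979R2.P2.MOM
import Pool.Agent.H725R2.SB.TN1
import Pool.Agent.H725R2.SB.TN2
import Pool.Agent.H725R2.SB.TA1

/-! Plain form of the results of Part II. -/

set_option autoImplicit false

namespace Pool.Agent.H979R2.P2

open Pool.Agent.H725R2.SB (cN cfar IsSAW)

/-- Euclidean distance of two points of `ℤ²`. -/
noncomputable def dist2 (x y : Fin 2 → ℤ) : ℝ :=
  Real.sqrt (∑ k, ((x k : ℝ) - (y k : ℝ)) ^ 2)

/-- the diameter of a walk -/
noncomputable def diam {n : ℕ} (w : Fin (n + 1) → (Fin 2 → ℤ)) : ℝ :=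
  ⨆ p : Fin (n + 1) × Fin (n + 1), dist2 (w p.1) (w p.2)

theorem le_diam {n : ℕ} (w : Fin (n + 1) → (Fin 2 → ℤ)) (i j : Fin (n + 1)) :
    dist2 (w i) (w j) ≤ diam w :=
  le_ciSup (f := fun p : Fin (n + 1) × Fin (n + 1) => dist2 (w p.1) (w p.2))
    (Set.finite_range _).bddAbove (i, j)

theorem diam_exists {n : ℕ} (w : Fin (n + 1) → (Fin 2 → ℤ)) :
    ∃ i j, diam w = dist2 (w i) (w j) := by
  obtain ⟨p, hp⟩ := exists_eq_ciSup_of_finite
    (f := fun p : Fin (n + 1) × Fin (n + 1) => dist2 (w p.1) (w p.2))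
  exact ⟨p.1, p.2, hp.symm⟩

theorem dist2_nonneg (x y : Fin 2 → ℤ) : 0 ≤ dist2 x y := Real.sqrt_nonneg _

theorem diam_nonneg {n : ℕ} (w : Fin (n + 1) → (Fin 2 → ℤ)) : 0 ≤ diam w := by
  obtain ⟨i, j, h⟩ := diam_exists w
  rw [h]
  exact dist2_nonneg _ _

theorem coord3 {x y : Fin 2 → ℤ} {R : ℝ} (h : R ≤ dist2 x y) :
    (∃ k, R / 3 ≤ |((x k : ℤ) : ℝ)|) ∨ (∃ k, R / 3 ≤ |((y k : ℤ) : ℝ)|) := by
  by_contra hcon
  push Not at hcon
  obtain ⟨h1, h2⟩ := hcon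
  have hR : 0 < R := by
    have h3 := h1 0
    have h4 : 0 ≤ |((x 0 : ℤ) : ℝ)| := abs_nonneg _
    linarith
  have h3 : ∀ k, ((x k : ℝ) - (y k : ℝ)) ^ 2 ≤ (2 * (R / 3)) ^ 2 := by
    intro k
    have a1 := abs_lt.mp (h1 k)
    have a2 := abs_lt.mp (h2 k)
    rw [sq_le_sq, abs_of_pos (show (0 : ℝ) < 2 * (R / 3) by positivity), abs_le]
    constructor <;> linarith [a1.1, a1.2, a2.1, a2.2]
  have h6 : dist2 x y < R := by
    unfold dist2
    rw [Real.sqrt_lt' hR, Fin.sum_univ_two]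
    have e0 := h3 0
    have e1 := h3 1
    nlinarith
  linarith

theorem cN_pos (n : ℕ) : 0 < cN 2 n := by
  obtain ⟨F1, -, -⟩ := Pool.Agent.H725R2.SB.exists_frames 2 le_rfl
  rw [Pool.Agent.H725R2.SB.cN_eq]
  exact Pool.Agent.H725R2.SB.one_le_cc F1.A n

/-- the uniform probability of the event `E` -/
noncomputable def prob (n : ℕ) (E : (Fin (n + 1) → (Fin 2 → ℤ)) → Prop) : ℝ :=
  (Nat.card {w : Fin (n + 1) → (Fin 2 → ℤ) // IsSAW 2 n w ∧ E w} : ℝ) /
    (Nat.card {w : Fin (n + 1) → (Fin 2 → ℤ) // IsSAW 2 n w} : ℝ)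

/-- the mean of `F` over the self-avoiding walks -/
noncomputable def mean (n : ℕ) (F : (Fin (n + 1) → (Fin 2 → ℤ)) → ℝ) : ℝ :=
  (∑ᶠ w : {w : Fin (n + 1) → (Fin 2 → ℤ) // IsSAW 2 n w}, F w.1) /
    (Nat.card {w : Fin (n + 1) → (Fin 2 → ℤ) // IsSAW 2 n w} : ℝ)

theorem prob_mono {n : ℕ} {E E' : (Fin (n + 1) → (Fin 2 → ℤ)) → Prop}
    (h : ∀ w, IsSAW 2 n w → E w → E' w) : prob n E ≤ prob n E' := by
  have hfin := mom_finite n
  have hfin2 : Finite {w : Fin (n + 1) → (Fin 2 → ℤ) // IsSAW 2 n w ∧ E' w} :=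
    Finite.of_injective (fun w => (⟨w.1, w.2.1⟩ : {w : Fin (n + 1) → (Fin 2 → ℤ) //
      IsSAW 2 n w})) (fun a b h => Subtype.ext (congrArg (fun x => x.1) h))
  unfold prob
  refine div_le_div_of_nonneg_right ?_ (Nat.cast_nonneg _)
  have : Nat.card {w : Fin (n + 1) → (Fin 2 → ℤ) // IsSAW 2 n w ∧ E w} ≤
      Nat.card {w : Fin (n + 1) → (Fin 2 → ℤ) // IsSAW 2 n w ∧ E' w} := by
    refine Nat.card_le_card_of_injective (fun w => ⟨w.1, ⟨w.2.1, h w.1 w.2.1 w.2.2⟩⟩) ?_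
    intro a b h
    exact Subtype.ext (congrArg (fun x => x.1) h)
  exact_mod_cast this

theorem prob_le_one (n : ℕ) (E : (Fin (n + 1) → (Fin 2 → ℤ)) → Prop) : prob n E ≤ 1 := by
  have hfin := mom_finite n
  have hpos : (0 : ℝ) < cN 2 n := by exact_mod_cast cN_pos n
  unfold prob
  rw [div_le_one (show (0 : ℝ) < (Nat.card {w : Fin (n + 1) → (Fin 2 → ℤ) // IsSAW 2 n w} : ℝ)
    from hpos)]
  have : Nat.card {w : Fin (n + 1) → (Fin 2 → ℤ) // IsSAW 2 n w ∧ E w} ≤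
      Nat.card {w : Fin (n + 1) → (Fin 2 → ℤ) // IsSAW 2 n w} := by
    refine Nat.card_le_card_of_injective (fun w => ⟨w.1, w.2.1⟩) ?_
    intro a b h
    exact Subtype.ext (congrArg (fun x => x.1) h)
  exact_mod_cast this

theorem prob_far {n : ℕ} {R B : ℝ} (h : (cfar 2 n R : ℝ) ≤ B * cN 2 n) :
    prob n (fun w => ∃ i k, R ≤ |((w i k : ℤ) : ℝ)|) ≤ B := by
  have hpos : (0 : ℝ) < cN 2 n := by exact_mod_cast cN_pos n
  unfold prob
  rw [div_le_iff₀ (show (0 : ℝ) < (Nat.card {w : Fin (n + 1) → (Fin 2 → ℤ) // IsSAW 2 n w} : ℝ)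
    from hpos)]
  exact h

theorem prob_diam {n : ℕ} {R R' B : ℝ} (hR : 3 * R' ≤ R)
    (h : (cfar 2 n R' : ℝ) ≤ B * cN 2 n) : prob n (fun w => R ≤ diam w) ≤ B := by
  refine le_trans (prob_mono ?_) (prob_far h)
  intro w _ hw
  obtain ⟨i, j, hij⟩ := diam_exists w
  rw [hij] at hw
  rcases coord3 hw with ⟨k, hk⟩ | ⟨k, hk⟩
  · exact ⟨i, k, by linarith⟩
  · exact ⟨j, k, by linarith⟩

theorem Yv_ge {v : ℝ} (hv : 0 < v) (hv1 : v ≤ 1) : 1 ≤ Yv v := by
  have h1 : 0 ≤ Real.log (1 / v) := Real.log_nonneg (by rw [le_div_iff₀ hv]; linarith)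
  have h2 : 0 ≤ Real.log (1 + Real.log (1 / v)) := Real.log_nonneg (by linarith)
  unfold Yv
  nlinarith

theorem Yv_third {v : ℝ} (hv : 0 < v) (hv1 : v ≤ 1) : Yv (v / 3) ≤ 9 * Yv v := by
  have h1 : 0 ≤ Real.log (1 / v) := Real.log_nonneg (by rw [le_div_iff₀ hv]; linarith)
  have h3 : Real.log 3 ≤ 2 := by
    have := Real.log_le_sub_one_of_pos (show (0 : ℝ) < 3 by norm_num)
    linarith
  have h30 : 0 ≤ Real.log 3 := Real.log_nonneg (by norm_num)
  have e : Real.log (1 / (v / 3)) = Real.log (1 / v) + Real.log 3 := by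
    rw [show 1 / (v / 3) = (1 / v) * 3 by field_simp, Real.log_mul (by positivity) (by norm_num)]
  set y := 1 + Real.log (1 / v) with hy
  have hy1 : 1 ≤ y := by linarith
  have hy' : 1 + Real.log (1 / (v / 3)) = y + Real.log 3 := by rw [e]; ring
  have hl0 : 0 ≤ Real.log y := Real.log_nonneg hy1
  have h4 : y + Real.log 3 ≤ 3 * y := by linarith
  have h5 : Real.log (y + Real.log 3) ≤ Real.log 3 + Real.log y := by
    rw [← Real.log_mul (by norm_num) (by linarith)]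
    exact Real.log_le_log (by linarith) h4
  unfold Yv
  rw [hy', ← hy]
  have h6 : 0 ≤ 1 + Real.log (y + Real.log 3) := by
    have := Real.log_nonneg (show 1 ≤ y + Real.log 3 by linarith)
    linarith
  calc (y + Real.log 3) * (1 + Real.log (y + Real.log 3))
      ≤ (3 * y) * (3 * (1 + Real.log y)) := by
        refine mul_le_mul h4 (by linarith) h6 (by linarith)
    _ = 9 * (y * (1 + Real.log y)) := by ring

/-- Large deviations of the diameter. -/
theorem plain_ld (h : St_SUBB) : ∃ C : ℝ, 0 < C ∧ ∀ C' : ℝ, C ≤ C' →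
    ∀ v : ℝ, 0 < v → v ≤ 1 → ∀ n : ℕ, 1 ≤ n →
    prob n (fun w => v * n ≤ diam w) ≤
      C' * Real.exp (C' * (n : ℝ) ^ (3 / 4 : ℝ) - Real.exp (-(C' * Yv v)) * n) := by
  obtain ⟨C1, hC1, h1⟩ := h
  refine ⟨9 * C1, by positivity, ?_⟩
  intro C' hC' v hv hv1 n hn
  have h2 := h1 (v / 3) (by positivity) (by linarith) n hn
  refine le_trans (prob_diam (R' := v / 3 * n) (by linarith) h2) ?_
  have hY := Yv_third hv hv1
  have hY1 := Yv_ge hv hv1
  have hn0 : (0 : ℝ) ≤ n := Nat.cast_nonneg _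
  have hn34 : (0 : ℝ) ≤ (n : ℝ) ^ (3 / 4 : ℝ) := by positivity
  have h5 : Real.exp (-(C' * Yv v)) ≤ Real.exp (-(C1 * Yv (v / 3))) := by
    refine Real.exp_le_exp.mpr (neg_le_neg ?_)
    calc C1 * Yv (v / 3) ≤ C1 * (9 * Yv v) := mul_le_mul_of_nonneg_left hY hC1.le
      _ = (9 * C1) * Yv v := by ring
      _ ≤ C' * Yv v := mul_le_mul_of_nonneg_right hC' (by linarith)
  have h6 : Real.exp (C1 * (n : ℝ) ^ (3 / 4 : ℝ) - Real.exp (-(C1 * Yv (v / 3))) * n) ≤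
      Real.exp (C' * (n : ℝ) ^ (3 / 4 : ℝ) - Real.exp (-(C' * Yv v)) * n) := by
    refine Real.exp_le_exp.mpr ?_
    have a1 := mul_le_mul_of_nonneg_right (show C1 ≤ C' by linarith) hn34
    have a2 := mul_le_mul_of_nonneg_right h5 hn0
    linarith
  exact mul_le_mul (by linarith) h6 (Real.exp_pos _).le (by linarith)

/-- Typical diameter. -/
theorem plain_typ (h : St_FIN) : ∃ c C : ℝ, 0 < c ∧ 0 < C ∧ ∀ C' : ℝ, C ≤ C' →
    ∀ n : ℕ, 16 ≤ n →
    prob n (fun w => (n : ℝ) ^ (1 - c / Real.log (Real.log n)) ≤ diam w) ≤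
      C' * Real.exp (-(n : ℝ) ^ (4 / 5 : ℝ)) := by
  obtain ⟨c0, C0, hc0, hC0, hfin⟩ := h
  -- `log n / log log n` is large for large `n`
  have hlim : Filter.Tendsto (fun x : ℝ => x / Real.log x) Filter.atTop Filter.atTop := by
    have h1 : Filter.Tendsto (fun x : ℝ => Real.log x / x) Filter.atTop (nhds 0) := by
      have := Real.tendsto_pow_log_div_mul_add_atTop 1 0 1 one_ne_zero
      simpa using this
    have h2 : ∀ᶠ x : ℝ in Filter.atTop, 0 < Real.log x / x := by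
      filter_upwards [Filter.eventually_gt_atTop (1 : ℝ)] with x hx
      have := Real.log_pos hx
      positivity
    have h3 : Filter.Tendsto (fun x : ℝ => Real.log x / x) Filter.atTop
        (nhdsWithin 0 (Set.Ioi 0)) := tendsto_nhdsWithin_iff.mpr ⟨h1, h2⟩
    have h4 := h3.inv_tendsto_nhdsGT_zero
    refine h4.congr (fun x => ?_)
    simp [inv_div]
  have hev : ∀ᶠ n : ℕ in Filter.atTop,
      4 / c0 ≤ Real.log (n : ℝ) / Real.log (Real.log (n : ℝ)) := by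
    have h5 : Filter.Tendsto (fun n : ℕ => Real.log (n : ℝ) / Real.log (Real.log (n : ℝ)))
        Filter.atTop Filter.atTop :=
      hlim.comp (Real.tendsto_log_atTop.comp tendsto_natCast_atTop_atTop)
    exact h5.eventually_ge_atTop _
  obtain ⟨n1, hn1⟩ := Filter.eventually_atTop.1 hev
  refine ⟨c0 / 2, max C0 (Real.exp n1), by positivity, lt_max_of_lt_left hC0, ?_⟩
  intro C' hC' n hn
  have hn16 : (16 : ℝ) ≤ n := by exact_mod_cast hn
  have hn0 : (0 : ℝ) < n := by linarith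
  rcases le_or_gt n1 n with hnn | hnn
  · have h6 := hn1 n hnn
    have hll1 : 1 ≤ Real.log (Real.log (n : ℝ)) := by
      have h2 := Real.log_two_gt_d9
      have h3 : Real.log 16 = 4 * Real.log 2 := by
        rw [show (16 : ℝ) = 2 ^ 4 by norm_num, Real.log_pow]
        norm_num
      have h4 : Real.exp 1 ≤ Real.log n := by
        have h5 := Real.exp_one_lt_d9
        have h6 := Real.log_le_log (by norm_num : (0 : ℝ) < 16) hn16
        linarith
      calc (1 : ℝ) = Real.log (Real.exp 1) := (Real.log_exp 1).symm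
        _ ≤ _ := Real.log_le_log (Real.exp_pos 1) h4
    have h3 : 3 * (n : ℝ) ^ (1 - c0 / Real.log (Real.log n)) ≤
        (n : ℝ) ^ (1 - c0 / 2 / Real.log (Real.log n)) := by
      set ll := Real.log (Real.log (n : ℝ)) with hll
      have e : (n : ℝ) ^ (1 - c0 / 2 / ll) =
          (n : ℝ) ^ (c0 / 2 / ll) * (n : ℝ) ^ (1 - c0 / ll) := by
        rw [← Real.rpow_add hn0]
        congr 1
        field_simp
        ring
      rw [e]
      refine mul_le_mul_of_nonneg_right ?_ (Real.rpow_nonneg hn0.le _)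
      have h7 : 2 ≤ Real.log n * (c0 / 2 / ll) := by
        have h8 : 4 / c0 * (c0 / 2) ≤ Real.log n / ll * (c0 / 2) :=
          mul_le_mul_of_nonneg_right h6 (by positivity)
        have e1 : 4 / c0 * (c0 / 2) = 2 := by field_simp; norm_num
        have e2 : Real.log n / ll * (c0 / 2) = Real.log n * (c0 / 2 / ll) := by ring
        linarith
      rw [Real.rpow_def_of_pos hn0]
      have h9 := Real.add_one_le_exp (Real.log n * (c0 / 2 / ll))
      linarith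
    refine le_trans (prob_diam (R' := (n : ℝ) ^ (1 - c0 / Real.log (Real.log n))) h3
      (hfin n hn)) ?_
    exact mul_le_mul_of_nonneg_right ((le_max_left _ _).trans hC') (Real.exp_pos _).le
  · refine (prob_le_one _ _).trans ?_
    have h7 : Real.exp n1 ≤ C' := (le_max_right _ _).trans hC'
    have h8 : (n : ℝ) ^ (4 / 5 : ℝ) ≤ n1 := by
      calc (n : ℝ) ^ (4 / 5 : ℝ) ≤ (n : ℝ) ^ (1 : ℝ) :=
            Real.rpow_le_rpow_of_exponent_le (by linarith) (by norm_num)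
        _ = n := Real.rpow_one _
        _ ≤ n1 := by exact_mod_cast hnn.le
    calc (1 : ℝ) = Real.exp n1 * Real.exp (-n1) := by rw [← Real.exp_add]; simp
      _ ≤ C' * Real.exp (-(n : ℝ) ^ (4 / 5 : ℝ)) := by
          refine mul_le_mul h7 (Real.exp_le_exp.mpr (by linarith)) (Real.exp_pos _).le ?_
          exact (Real.exp_pos _).le.trans h7

theorem diam_le {n : ℕ} {w : Fin (n + 1) → (Fin 2 → ℤ)} (hw : IsSAW 2 n w) :
    diam w ≤ 3 * n := by
  by_contra hcon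
  push Not at hcon
  obtain ⟨i, j, hij⟩ := diam_exists w
  obtain ⟨ε, hε, hε2⟩ : ∃ ε : ℝ, 0 < ε ∧ 3 * (n + ε) ≤ diam w :=
    ⟨(diam w - 3 * n) / 3, by linarith, by linarith⟩
  rw [hij] at hε2
  have key : ∀ (i : Fin (n + 1)) (k : Fin 2), |((w i k : ℤ) : ℝ)| ≤ n := by
    intro i k
    have h1 := mom_abs_le hw k i.1 i.2
    have h2 : ((i.1 : ℕ) : ℤ) ≤ n := by have := i.2; omega
    have h3 : |w i k| ≤ (n : ℤ) := le_trans h1 h2
    exact_mod_cast h3
  rcases coord3 hε2 with ⟨k, hk⟩ | ⟨k, hk⟩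
  · have := key i k
    linarith
  · have := key j k
    linarith

/-- Moments. -/
theorem mean_diam {n : ℕ} {R B : ℝ} (hR : 0 ≤ R)
    (h : prob n (fun w => R ≤ diam w) ≤ B) :
    mean n (fun w => diam w ^ 2) ≤ R ^ 2 + 9 * (n : ℝ) ^ 2 * B := by
  classical
  have hfin := mom_finite n
  let _ : Fintype {w : Fin (n + 1) → (Fin 2 → ℤ) // IsSAW 2 n w} := Fintype.ofFinite _
  have hpos : (0 : ℝ) < cN 2 n := by exact_mod_cast cN_pos n
  have hposN : (0 : ℝ) < (Nat.card {w : Fin (n + 1) → (Fin 2 → ℤ) // IsSAW 2 n w} : ℝ) := hpos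
  unfold mean
  rw [finsum_eq_sum_of_fintype, div_le_iff₀ hposN]
  have hterm : ∀ w : {w : Fin (n + 1) → (Fin 2 → ℤ) // IsSAW 2 n w},
      diam w.1 ^ 2 ≤ R ^ 2 + if R ≤ diam w.1 then 9 * (n : ℝ) ^ 2 else 0 := by
    intro w
    have h0 := diam_nonneg w.1
    split_ifs with hc
    · have h1 := diam_le w.2
      nlinarith
    · push Not at hc
      nlinarith
  have hcard : ((Finset.univ.filter (fun w : {w : Fin (n + 1) → (Fin 2 → ℤ) // IsSAW 2 n w} =>
      R ≤ diam w.1)).card : ℝ) ≤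
      B * (Nat.card {w : Fin (n + 1) → (Fin 2 → ℤ) // IsSAW 2 n w} : ℝ) := by
    unfold prob at h
    rw [div_le_iff₀ hposN] at h
    refine le_trans (le_of_eq ?_) h
    rw [← Fintype.card_subtype, ← Nat.card_eq_fintype_card]
    congr 1
    exact Nat.card_congr (Equiv.subtypeSubtypeEquivSubtypeInter (fun w => IsSAW 2 n w)
      (fun w => R ≤ diam w))
  calc ∑ w : {w : Fin (n + 1) → (Fin 2 → ℤ) // IsSAW 2 n w}, diam w.1 ^ 2
      ≤ ∑ w : {w : Fin (n + 1) → (Fin 2 → ℤ) // IsSAW 2 n w},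
          (R ^ 2 + if R ≤ diam w.1 then 9 * (n : ℝ) ^ 2 else 0) :=
        Finset.sum_le_sum (fun w _ => hterm w)
    _ = (Nat.card {w : Fin (n + 1) → (Fin 2 → ℤ) // IsSAW 2 n w} : ℝ) * R ^ 2 +
          ((Finset.univ.filter (fun w : {w : Fin (n + 1) → (Fin 2 → ℤ) // IsSAW 2 n w} =>
            R ≤ diam w.1)).card : ℝ) * (9 * (n : ℝ) ^ 2) := by
        rw [Finset.sum_add_distrib, Finset.sum_const, Finset.card_univ, nsmul_eq_mul,
          ← Nat.card_eq_fintype_card, ← Finset.sum_filter, Finset.sum_const, nsmul_eq_mul]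
    _ ≤ (Nat.card {w : Fin (n + 1) → (Fin 2 → ℤ) // IsSAW 2 n w} : ℝ) * R ^ 2 +
          (B * (Nat.card {w : Fin (n + 1) → (Fin 2 → ℤ) // IsSAW 2 n w} : ℝ)) *
            (9 * (n : ℝ) ^ 2) := by
        have := mul_le_mul_of_nonneg_right hcard (show (0 : ℝ) ≤ 9 * (n : ℝ) ^ 2 by positivity)
        linarith
    _ = (R ^ 2 + 9 * (n : ℝ) ^ 2 * B) *
          (Nat.card {w : Fin (n + 1) → (Fin 2 → ℤ) // IsSAW 2 n w} : ℝ) := by ring

/-- Mean square diameter. -/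
theorem plain_mom (h : St_FIN) : ∃ c C : ℝ, 0 < c ∧ 0 < C ∧ ∀ C' : ℝ, C ≤ C' →
    ∀ n : ℕ, 16 ≤ n →
    mean n (fun w => diam w ^ 2) ≤ C' * (n : ℝ) ^ (2 - c / Real.log (Real.log n)) := by
  obtain ⟨c0, C0, hc0, hC0, htyp⟩ := plain_typ h
  obtain ⟨K, hK, hexp⟩ := mom_exp (2 + 2 * c0)
  refine ⟨2 * c0, 1 + 9 * (C0 * K), by positivity, by positivity, ?_⟩
  intro C' hC' n hn
  have h1 := htyp C0 le_rfl n hn
  have hn16 : (16 : ℝ) ≤ n := by exact_mod_cast hn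
  have hn0 : (0 : ℝ) < n := by linarith
  have hn1 : (1 : ℝ) ≤ n := by linarith
  set ll := Real.log (Real.log (n : ℝ)) with hll
  have hll1 : 1 ≤ ll := by
    have h2 := Real.log_two_gt_d9
    have h3 : Real.log 16 = 4 * Real.log 2 := by
      rw [show (16 : ℝ) = 2 ^ 4 by norm_num, Real.log_pow]
      norm_num
    have h4 : Real.exp 1 ≤ Real.log n := by
      have h5 := Real.exp_one_lt_d9
      have h6 := Real.log_le_log (by norm_num : (0 : ℝ) < 16) hn16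
      linarith
    calc (1 : ℝ) = Real.log (Real.exp 1) := (Real.log_exp 1).symm
      _ ≤ ll := Real.log_le_log (Real.exp_pos 1) h4
  have h2 := mean_diam (n := n) (R := (n : ℝ) ^ (1 - c0 / ll)) (Real.rpow_nonneg hn0.le _) h1
  refine h2.trans ?_
  have hR2 : ((n : ℝ) ^ (1 - c0 / ll)) ^ 2 = (n : ℝ) ^ (2 - 2 * c0 / ll) := by
    rw [← Real.rpow_natCast, ← Real.rpow_mul hn0.le]
    congr 1
    push_cast
    ring
  have h3 : (n : ℝ) ^ 2 * Real.exp (-(n : ℝ) ^ (4 / 5 : ℝ)) ≤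
      K * (n : ℝ) ^ (2 - 2 * c0 / ll) := by
    have h4 := hexp n (by omega)
    have h5 : (n : ℝ) ^ 2 = (n : ℝ) ^ (2 - 2 * c0 / ll) * (n : ℝ) ^ (2 * c0 / ll) := by
      rw [← Real.rpow_add hn0, ← Real.rpow_natCast]
      congr 1
      push_cast
      ring
    have h6 : (n : ℝ) ^ (2 * c0 / ll) ≤ (n : ℝ) ^ (2 + 2 * c0) := by
      refine Real.rpow_le_rpow_of_exponent_le hn1 ?_
      have : 2 * c0 / ll ≤ 2 * c0 := div_le_self (by positivity) hll1
      linarith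
    calc (n : ℝ) ^ 2 * Real.exp (-(n : ℝ) ^ (4 / 5 : ℝ))
        = (n : ℝ) ^ (2 - 2 * c0 / ll) *
          ((n : ℝ) ^ (2 * c0 / ll) * Real.exp (-(n : ℝ) ^ (4 / 5 : ℝ))) := by
          rw [h5]; ring
      _ ≤ (n : ℝ) ^ (2 - 2 * c0 / ll) *
          ((n : ℝ) ^ (2 + 2 * c0) * Real.exp (-(n : ℝ) ^ (4 / 5 : ℝ))) := by
          gcongr
      _ ≤ (n : ℝ) ^ (2 - 2 * c0 / ll) * K :=
          mul_le_mul_of_nonneg_left h4 (Real.rpow_nonneg hn0.le _)
      _ = K * (n : ℝ) ^ (2 - 2 * c0 / ll) := by ring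
  rw [hR2]
  calc (n : ℝ) ^ (2 - 2 * c0 / ll) +
        9 * (n : ℝ) ^ 2 * (C0 * Real.exp (-(n : ℝ) ^ (4 / 5 : ℝ)))
      = (n : ℝ) ^ (2 - 2 * c0 / ll) +
        9 * C0 * ((n : ℝ) ^ 2 * Real.exp (-(n : ℝ) ^ (4 / 5 : ℝ))) := by ring
    _ ≤ (n : ℝ) ^ (2 - 2 * c0 / ll) + 9 * C0 * (K * (n : ℝ) ^ (2 - 2 * c0 / ll)) := by
        have : 0 ≤ 9 * C0 := by positivity
        have := mul_le_mul_of_nonneg_left h3 this
        linarith
    _ = (1 + 9 * (C0 * K)) * (n : ℝ) ^ (2 - 2 * c0 / ll) := by ring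
    _ ≤ C' * (n : ℝ) ^ (2 - 2 * c0 / ll) :=
        mul_le_mul_of_nonneg_right hC' (Real.rpow_nonneg hn0.le _)

end Pool.Agent.H979R2.P2
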