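import Pool.Agent.H979R2.P2.Stubs
import Pool.Agent.H725R2.SB.TK2

/-! RATE: the cost of speed `v`. -/

set_option autoImplicit false

namespace Pool.Agent.H979R2.P2

open Finset
open Pool.Agent.H725R2.SB

theorem rate_Yv_one {v : ℝ} (hv : 0 < v) (hv1 : v ≤ 1) : 1 ≤ Yv v := by
  unfold Yv
  have h1 : 0 ≤ Real.log (1 / v) := Real.log_nonneg (by rw [le_div_iff₀ hv]; linarith)
  have h2 : 0 ≤ Real.log (1 + Real.log (1 / v)) := Real.log_nonneg (by linarith)
  nlinarith

theorem rate_Yv_half {v : ℝ} (hv : 0 < v) (hv1 : v ≤ 1) : Yv (v / 2) ≤ 4 * Yv v := by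
  unfold Yv
  have h1 : 0 ≤ Real.log (1 / v) := Real.log_nonneg (by rw [le_div_iff₀ hv]; linarith)
  have h2 : 0 ≤ Real.log (1 + Real.log (1 / v)) := Real.log_nonneg (by linarith)
  have h3 : Real.log (1 / (v / 2)) = Real.log (1 / v) + Real.log 2 := by
    rw [← Real.log_mul (by positivity) (by norm_num)]
    congr 1
    field_simp
  have h4 : Real.log 2 ≤ 1 := by
    have := Real.log_two_lt_d9
    linarith
  have h5 : 0 ≤ Real.log 2 := Real.log_nonneg (by norm_num)
  set u := Real.log (1 / v) with hu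
  rw [h3]
  have h6 : 1 + (u + Real.log 2) ≤ 2 * (1 + u) := by linarith
  have h7 : Real.log (1 + (u + Real.log 2)) ≤ Real.log 2 + Real.log (1 + u) := by
    have h10 : Real.log (2 * (1 + u)) = Real.log 2 + Real.log (1 + u) :=
      Real.log_mul (by norm_num) (by linarith)
    rw [← h10]
    exact Real.log_le_log (by linarith) h6
  have h8 : 1 + Real.log (1 + (u + Real.log 2)) ≤ 2 * (1 + Real.log (1 + u)) := by linarith
  have h9 : 0 ≤ 1 + Real.log (1 + (u + Real.log 2)) := by
    have : 0 ≤ Real.log (1 + (u + Real.log 2)) := Real.log_nonneg (by linarith)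
    linarith
  calc (1 + (u + Real.log 2)) * (1 + Real.log (1 + (u + Real.log 2))) ≤
        (2 * (1 + u)) * (2 * (1 + Real.log (1 + u))) :=
          mul_le_mul h6 h8 h9 (by linarith)
    _ = _ := by ring

theorem p_RATE (h_STEP : St_STEP) (h_ITER : St_ITER) : St_RATE := by
  intro F1 F2 k1 k2 e1 e2 o1 o2 p1 p2
  obtain ⟨φ₀, hφ₀, hstep⟩ := h_STEP F1 F2 k1 k2 e1 e2 o1 o2 p1 p2
  obtain ⟨C0, hC0, hit⟩ := h_ITER (vv F1.A) (vv F1.B)
    (fun x => vv_nonneg _ x) (fun x => vv_le_one _ x) (fun x => vv_le_one _ x)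
    (fun x y hxy => vv_mono _ hxy) (fun x y hxy => vv_mono _ hxy)
    (fun x y hx hxy => vv_A_le_B F1 k1 hx hxy) (1 + 1 / 1000000) φ₀ (by norm_num) hφ₀
    (fun x hx hx0 ha hb => hstep x hx hx0 ha hb)
  have hlog2 : 0 ≤ Real.log 2 := Real.log_nonneg (by norm_num)
  refine ⟨Real.log 2 + 4 * C0, by positivity, ?_⟩
  intro v hv hv1 T h hvT
  rcases Nat.eq_zero_or_pos T with hT | hT
  · subst hT
    have := br_le_mu_pow F1.A 0 h
    simpa using this
  · have hT0 : (0 : ℝ) < T := by exact_mod_cast hT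
    set φ : ℝ := 1 / 2 * Real.exp (-(C0 * Yv (v / 2))) with hφ
    have hE : 0 < Real.exp (-(C0 * Yv (v / 2))) := Real.exp_pos _
    have hφ0 : 0 < φ := by positivity
    have h1 : vv F1.A φ < v / 2 := by
      by_contra hc
      push Not at hc
      have := hit (v / 2) φ (by linarith) (by linarith) hφ0 hc
      rw [hφ] at this
      linarith
    have h2 : vv F1.A φ * T < h := by
      have : vv F1.A φ * T < v / 2 * T := mul_lt_mul_of_pos_right h1 hT0
      nlinarith
    have h3 := lt_of_vv_lt F1.A hT h2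
    refine h3.le.trans ?_
    have hmu : 0 < mu (Om 2) := Real.exp_pos _
    refine mul_le_mul_of_nonneg_left (Real.exp_le_exp.mpr ?_) (pow_pos hmu _).le
    have h4 : Real.exp (-((Real.log 2 + 4 * C0) * Yv v)) ≤ φ := by
      have h5 : φ = Real.exp (-(Real.log 2 + C0 * Yv (v / 2))) := by
        rw [hφ, neg_add, Real.exp_add, Real.exp_neg (Real.log 2), Real.exp_log two_pos]
        norm_num
      rw [h5]
      refine Real.exp_le_exp.mpr (neg_le_neg ?_)
      have h6 := rate_Yv_half hv hv1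
      have h7 := rate_Yv_one hv hv1
      calc Real.log 2 + C0 * Yv (v / 2) ≤ Real.log 2 * Yv v + C0 * (4 * Yv v) := by
            refine add_le_add (le_mul_of_one_le_right hlog2 h7) ?_
            gcongr
        _ = (Real.log 2 + 4 * C0) * Yv v := by ring
    nlinarith

end Pool.Agent.H979R2.P2
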