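import Pool.Agent.H979R2.P2.Stubs
import Pool.Agent.H725R2.SB.TK2

/-! One step of the iteration (adapted from `H725R2.SB.TK2`). -/

set_option autoImplicit false

namespace Pool.Agent.H979R2.P2

open Finset
open Pool.Agent.H725R2.SB
open Pool.Agent.H979R2.NP (NCd hit D0 Yb)

/-- The use of the key proposition. -/
theorem step_use (Fr : Frame (Om 2)) {φ₀ φ : ℝ} (hφ : 0 < φ) (hφ₀ : φ < φ₀)
    (hkey : ∀ φ v : ℝ, 0 < φ → φ < φ₀ →
      φ ^ (1 / 5 : ℝ) ≤ v → v ≤ 1 →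
      (∃ N₀ : ℕ, 1 ≤ N₀ ∧ ∃ h₀ : ℤ, v * N₀ ≤ h₀ ∧
        mu (Om 2) ^ N₀ * Real.exp (-φ * N₀) ≤ (br Fr.A N₀ h₀ : ℝ)) →
      (∀ (T : ℕ) (h : ℤ), lam * v * T ≤ h →
        (br Fr.A T h : ℝ) ≤ mu (Om 2) ^ T * Real.exp (-(Psi φ) * T)) →
      (∀ (T : ℕ) (h : ℤ), 1.45 * v * T ≤ Fr.κ * h →
        (br Fr.B T h : ℝ) ≤ mu (Om 2) ^ T * Real.exp (-(Psi φ) * T)) → False)
    (h1 : 2 * φ ^ (1 / 5 : ℝ) ≤ vv Fr.A φ)
    (h2 : vv Fr.A (Psi φ) < (1 + 1 / 1000000) * vv Fr.A φ)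
    (h3 : Fr.κ * vv Fr.B (Psi φ) < (1 + 1 / 1000000) * (1.4143 * vv Fr.A φ)) :
    False := by
  set a := vv Fr.A φ with ha
  have hp : 0 < φ ^ (1 / 5 : ℝ) := Real.rpow_pos_of_pos hφ _
  have ha0 : 0 < a := by linarith
  have ha1 : a ≤ 1 := vv_le_one _ _
  set v := a / (1 + 1 / 1000000) with hv
  have hva : a = (1 + 1 / 1000000) * v := by rw [hv]; field_simp
  have hv0 : 0 < v := by rw [hv]; positivity
  have hκ0 : (0 : ℝ) < Fr.κ := by
    rcases Fr.hκ with h | h <;> rw [h] <;> norm_num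
  have hT0 : ∀ (L : Lev (Om 2)) (T : ℕ) (h : ℤ), T = 0 →
      (br L T h : ℝ) ≤ mu (Om 2) ^ T * Real.exp (-(Psi φ) * T) := by
    intro L T h hT
    subst hT
    have := br_le_mu_pow L 0 h
    simpa using this
  refine hkey φ v hφ hφ₀ ?_ ?_ ?_ ?_ ?_
  · nlinarith
  · nlinarith
  · exact exists_of_lt_vv Fr.A hv0.le (by rw [← ha, hva]; nlinarith)
  · intro T h hTh
    rcases Nat.eq_zero_or_pos T with hT | hT
    · exact hT0 _ T h hT
    · have hTr : (0 : ℝ) < T := by exact_mod_cast hT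
      refine (lt_of_vv_lt Fr.A hT ?_).le
      refine lt_of_lt_of_le ?_ hTh
      refine mul_lt_mul_of_pos_right ?_ hTr
      refine lt_of_lt_of_le h2 ?_
      unfold lam
      rw [hva]
      nlinarith
  · intro T h hTh
    rcases Nat.eq_zero_or_pos T with hT | hT
    · exact hT0 _ T h hT
    · have hTr : (0 : ℝ) < T := by exact_mod_cast hT
      refine (lt_of_vv_lt Fr.B hT ?_).le
      have h4 : Fr.κ * (vv Fr.B (Psi φ) * T) < Fr.κ * h := by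
        refine lt_of_lt_of_le ?_ hTh
        rw [← mul_assoc]
        refine mul_lt_mul_of_pos_right ?_ hTr
        refine lt_of_lt_of_le h3 ?_
        rw [hva]
        nlinarith
      exact lt_of_mul_lt_mul_left h4 hκ0.le

theorem p_STEP (h_KEY : ∀ Fr : Frame (Om 2), St_KEY Fr) : St_STEP := by
  intro F1 F2 k1 k2 e1 e2 o1 o2 p1 p2
  obtain ⟨x1, hx1, key1⟩ := h_KEY F1 o1 p1
  obtain ⟨x2, hx2, key2⟩ := h_KEY F2 o2 p2
  refine ⟨min x1 x2, lt_min hx1 hx2, ?_⟩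
  intro φ hφ hφ₀ ha hb
  by_contra hcon
  push Not at hcon
  obtain ⟨hA, hB⟩ := hcon
  have hp : 0 < φ ^ (1 / 5 : ℝ) := Real.rpow_pos_of_pos hφ _
  rcases le_or_gt (vv F1.B φ) (1.4143 * vv F1.A φ) with hc | hc
  · refine step_use F1 hφ (lt_of_lt_of_le hφ₀ (min_le_left _ _)) key1 ha hA ?_
    rw [k1]
    push_cast
    rw [one_mul]
    refine lt_of_lt_of_le hB ?_
    exact mul_le_mul_of_nonneg_left hc (by norm_num)
  · refine step_use F2 hφ (lt_of_lt_of_le hφ₀ (min_le_right _ _)) key2 ?_ ?_ ?_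
    · rw [e1]; exact hb
    · rw [e1]; exact hB
    · rw [k2, e1, e2]
      push_cast
      nlinarith

end Pool.Agent.H979R2.P2
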