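import Pool.Agent.H979R2.P2.Stubs

/-!
# SUB: subwalks between cut times are self-avoiding
-/

set_option autoImplicit false

namespace Pool.Agent.H979R2.P2

open Finset
open Pool.Agent.H725R2.SB

/-- partial sums of the steps with index in `T` -/
noncomputable def sub_S (T : Finset ℕ) (ξ : ℕ → (Fin 2 → ℤ)) (t : ℕ) : Fin 2 → ℤ :=
  ∑ i ∈ range t, if i ∈ T then ξ i else 0

theorem sub_S_succ (T : Finset ℕ) (ξ : ℕ → (Fin 2 → ℤ)) (t : ℕ) :
    sub_S T ξ (t + 1) = sub_S T ξ t + if t ∈ T then ξ t else 0 := by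
  unfold sub_S
  rw [sum_range_succ]

theorem sub_fin (T : Finset ℕ) : {i : ℕ | i ∈ T}.Finite := T.finite_toSet

theorem sub_fin_card (T : Finset ℕ) : (sub_fin T).toFinset.card = T.card := by
  congr 1
  ext i
  simp

theorem sub_count_lt (T : Finset ℕ) {t : ℕ} (h : t ∈ T) :
    Nat.count (fun i => i ∈ T) t < T.card := by
  have h1 := Nat.count_lt_card (p := fun i => i ∈ T) (n := t) (sub_fin T) h
  rwa [sub_fin_card] at h1

theorem sub_P_count (T : Finset ℕ) (ξ : ℕ → (Fin 2 → ℤ)) (t : ℕ) :
    P (sub T ξ) (Nat.count (fun i => i ∈ T) t) = sub_S T ξ t := by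
  induction t with
  | zero => simp [sub_S]
  | succ t ih =>
    rw [Nat.count_succ, sub_S_succ]
    by_cases h : t ∈ T
    · rw [if_pos h, if_pos h, P_succ, ih]
      congr 1
      unfold sub
      rw [if_pos (sub_count_lt T h)]
      congr 1
      exact Nat.nth_count (p := fun i => i ∈ T) h
    · rw [if_neg h, if_neg h, add_zero, add_zero, ih]

theorem sub_S_in (T : Finset ℕ) (ξ : ℕ → (Fin 2 → ℤ)) {c t : ℕ} (hct : c ≤ t)
    (h : ∀ u, c ≤ u → u < t → u ∈ T) :
    sub_S T ξ t - sub_S T ξ c = P ξ t - P ξ c := by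
  induction t, hct using Nat.le_induction with
  | base => simp
  | succ t ht ih =>
    have h1 := ih (fun u hu hu' => h u hu (by omega))
    rw [sub_S_succ, if_pos (h t ht (by omega)), P_succ]
    have e1 : sub_S T ξ t + ξ t - sub_S T ξ c = (sub_S T ξ t - sub_S T ξ c) + ξ t := by abel
    rw [e1, h1]
    abel

theorem sub_S_out (T : Finset ℕ) (ξ : ℕ → (Fin 2 → ℤ)) {c t : ℕ} (hct : c ≤ t)
    (h : ∀ u, c ≤ u → u < t → u ∉ T) : sub_S T ξ t = sub_S T ξ c := by
  induction t, hct using Nat.le_induction with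
  | base => rfl
  | succ t ht ih =>
    rw [sub_S_succ, if_neg (h t ht (by omega)), add_zero]
    exact ih (fun u hu hu' => h u hu (by omega))

theorem sub_cut_le {a : ℕ → ℤ} (ha : ∀ i, |a (i + 1) - a i| ≤ 1) {N c : ℕ} {q : ℤ}
    (h : Cut a N q c) {i : ℕ} (hi : i ≤ c) : a i ≤ a c := by
  obtain ⟨h1, h2, h3⟩ := h
  have h4 := h3 (c + 1) (by omega) (by omega)
  have h5 := ha c
  rw [abs_le] at h5
  have h6 := h2 i hi
  omega

theorem sub_cut_lt {a : ℕ → ℤ} {N c : ℕ} {q : ℤ}
    (h : Cut a N q c) {j : ℕ} (hj : c < j) (hjN : j ≤ N) : a c < a j := by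
  obtain ⟨h1, h2, h3⟩ := h
  have h4 := h3 j hj hjN
  have h5 := h2 c le_rfl
  omega

/-- the level of the partial sums increases after a change point -/
theorem sub_key (L : Lev (Om 2)) (N : ℕ) (ξ : ℕ → (Fin 2 → ℤ)) (T : Finset ℕ)
    (hs : IsSaw (Om 2) N ξ)
    (hT : ∀ i, i + 1 < N → ¬ (i ∈ T ↔ i + 1 ∈ T) → ∃ q, Cut (lev L ξ) N q (i + 1))
    (e : ℕ) (he : ∃ q, Cut (lev L ξ) N q e) (t : ℕ) (het : e + 1 ≤ t) (htN : t ≤ N) :
    ∃ c, e ≤ c ∧ c < t ∧ (∃ q, Cut (lev L ξ) N q c) ∧
      (∀ u, c ≤ u → u < t → (u ∈ T ↔ t - 1 ∈ T)) ∧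
      L.F (sub_S T ξ e) ≤ L.F (sub_S T ξ c) := by
  have ha := lev_lip L hs
  induction t, het using Nat.le_induction with
  | base =>
    refine ⟨e, le_rfl, by omega, he, ?_, le_rfl⟩
    intro u hu hu'
    have : u = e + 1 - 1 := by omega
    rw [this]
  | succ t ht ih =>
    obtain ⟨c, hec, hct, ⟨q, hq⟩, hmem, hF⟩ := ih (by omega)
    by_cases hch : t - 1 ∈ T ↔ t ∈ T
    · refine ⟨c, hec, by omega, ⟨q, hq⟩, ?_, hF⟩
      intro u hu hu'
      have e1 : t + 1 - 1 = t := by omega
      rw [e1]
      rcases Nat.lt_or_ge u t with h | h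
      · rw [hmem u hu h, hch]
      · have : u = t := by omega
        rw [this]
    · have e1 : t - 1 + 1 = t := by omega
      have hcut := hT (t - 1) (by omega) (by rw [e1]; exact hch)
      rw [e1] at hcut
      refine ⟨t, by omega, by omega, hcut, ?_, ?_⟩
      · intro u hu hu'
        have : u = t + 1 - 1 := by omega
        rw [this]
      · by_cases h1 : t - 1 ∈ T
        · have h2 := sub_S_in T ξ (c := c) (t := t) (by omega)
            (fun u hu hu' => (hmem u hu hu').mpr h1)
          have h3 : L.F (sub_S T ξ t) - L.F (sub_S T ξ c) = lev L ξ t - lev L ξ c := by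
            rw [← map_sub, h2, map_sub]
            rfl
          have h4 := sub_cut_lt hq hct (by omega)
          omega
        · have h2 := sub_S_out T ξ (c := c) (t := t) (by omega)
            (fun u hu hu' => fun h3 => h1 ((hmem u hu hu').mp h3))
          rw [h2]
          exact hF

theorem p_SUB : St_SUB := by
  intro L N ξ T hs hTN hT
  have ha := lev_lip L hs
  have hcardN : Nat.count (fun i => i ∈ T) N = T.card := by
    rw [Nat.count_eq_card_filter_range]
    congr 1
    ext i
    simp only [mem_filter, mem_range]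
    constructor
    · rintro ⟨_, h⟩
      exact h
    · intro h
      exact ⟨mem_range.mp (hTN h), h⟩
  refine ⟨⟨?_, ?_, ?_⟩, ?_⟩
  · intro i hi
    unfold sub
    rw [if_pos hi]
    have h1 : Nat.nth (fun i => i ∈ T) i ∈ T :=
      Nat.nth_mem_of_lt_card (p := fun i => i ∈ T) (sub_fin T) (by rw [sub_fin_card]; exact hi)
    exact hs.step _ (mem_range.mp (hTN h1))
  · intro i hi
    unfold sub
    rw [if_neg (by omega)]
  · intro i j hij hj heq
    set p : ℕ → Prop := fun i => i ∈ T with hp
    have hi' : i < (sub_fin T).toFinset.card := by rw [sub_fin_card]; omega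
    have hj' : j - 1 < (sub_fin T).toFinset.card := by rw [sub_fin_card]; omega
    set t1 := Nat.nth p i with ht1
    set s := Nat.nth p (j - 1) with hs1
    have ht1T : t1 ∈ T := Nat.nth_mem_of_lt_card (p := p) (sub_fin T) hi'
    have hsT : s ∈ T := Nat.nth_mem_of_lt_card (p := p) (sub_fin T) hj'
    have hc1 : Nat.count p t1 = i := Nat.count_nth_of_lt_card_finite (sub_fin T) hi'
    have hc2 : Nat.count p s = j - 1 := Nat.count_nth_of_lt_card_finite (sub_fin T) hj'
    have hc3 : Nat.count p (s + 1) = j := by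
      rw [Nat.count_succ, hc2, if_pos hsT]
      omega
    have hle : t1 ≤ s := by
      by_contra hlt
      push Not at hlt
      have h1 : Nat.count p (s + 1) ≤ Nat.count p t1 := Nat.count_monotone p (by omega)
      omega
    have hsN : s < N := mem_range.mp (hTN hsT)
    have hP1 : P (sub T ξ) i = sub_S T ξ t1 := by rw [← hc1]; exact sub_P_count T ξ t1
    have hP2 : P (sub T ξ) j = sub_S T ξ (s + 1) := by rw [← hc3]; exact sub_P_count T ξ (s + 1)
    rw [hP1, hP2] at heq
    by_cases hall : ∀ u, t1 ≤ u → u < s + 1 → u ∈ T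
    · have h1 := sub_S_in T ξ (c := t1) (t := s + 1) (by omega) hall
      rw [heq, sub_self] at h1
      exact hs.inj t1 (s + 1) (by omega) (by omega) (sub_eq_zero.mp h1.symm).symm
    · push Not at hall
      -- least time not in `T`
      have hex : ∃ u, t1 ≤ u ∧ u ∉ T := by
        obtain ⟨u, h1, _, h3⟩ := hall
        exact ⟨u, h1, h3⟩
      classical
      set e := Nat.find hex with he
      have he1 : t1 ≤ e ∧ e ∉ T := Nat.find_spec hex
      have he2 : ∀ u, t1 ≤ u → u < e → u ∈ T := by
        intro u h1 h2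
        by_contra h3
        exact Nat.find_min hex h2 ⟨h1, h3⟩
      have he3 : e < s + 1 := by
        obtain ⟨u, h1, h2, h3⟩ := hall
        by_contra h4
        exact h3 (he2 u h1 (by omega))
      have he4 : t1 < e := by
        rcases Nat.lt_or_ge t1 e with h | h
        · exact h
        · have : t1 = e := by omega
          exact absurd (this ▸ ht1T) he1.2
      have he5 : e < s := by
        rcases Nat.lt_or_ge e s with h | h
        · exact h
        · have : s = e := by omega
          exact absurd (this ▸ hsT) he1.2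
      have e1 : e - 1 + 1 = e := by omega
      have hcut : ∃ q, Cut (lev L ξ) N q e := by
        have := hT (e - 1) (by omega) (by
          rw [e1]
          intro h
          exact he1.2 (h.mp (he2 (e - 1) (by omega) (by omega))))
        rwa [e1] at this
      obtain ⟨c, hec, hct, ⟨q, hq⟩, hmem, hF⟩ :=
        sub_key L N ξ T hs hT e hcut (s + 1) (by omega) (by omega)
      have h2 := sub_S_in T ξ (c := c) (t := s + 1) (by omega)
        (fun u hu hu' => (hmem u hu hu').mpr (by rw [Nat.add_sub_cancel]; exact hsT))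
      have h3 : L.F (sub_S T ξ (s + 1)) - L.F (sub_S T ξ c) = lev L ξ (s + 1) - lev L ξ c := by
        rw [← map_sub, h2, map_sub]
        rfl
      have h4 := sub_cut_lt hq hct (by omega)
      have h5 := sub_S_in T ξ (c := t1) (t := e) (by omega) he2
      have h6 : L.F (sub_S T ξ e) - L.F (sub_S T ξ t1) = lev L ξ e - lev L ξ t1 := by
        rw [← map_sub, h5, map_sub]
        rfl
      obtain ⟨q', hq'⟩ := hcut
      have h7 := sub_cut_le ha hq' (i := t1) (by omega)
      rw [heq] at h6
      omega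
  · rw [← hcardN, sub_P_count]
    unfold sub_S
    rw [Finset.sum_ite_mem]
    congr 1
    exact Finset.inter_eq_right.mpr hTN

end Pool.Agent.H979R2.P2
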