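import Pool.Agent.H979R2.P2.Stubs
import Pool.Agent.H725R2.SB.TM
import Pool.Agent.H725R2.SB.TN1
import Pool.Agent.H725R2.SB.TN2
import Pool.Agent.H725R2.SB.TN3

/-! Task SUBB of the almost power law (helper760), adapted from helper725's `SB/TO.lean`. -/

set_option autoImplicit false

namespace Pool.Agent.H979R2.P2

open Finset
open Pool.Agent.H725R2.SB

theorem subb_Yv {v : ℝ} (hv : 0 < v) (hv1 : v ≤ 1) :
    1 ≤ Yv v ∧ Real.log (1 / v) ≤ Yv v ∧ Yv (v / 2) ≤ 4 * Yv v := by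
  have h0 : 0 ≤ Real.log (1 / v) := Real.log_nonneg (by rw [le_div_iff₀ hv]; linarith)
  have hy : 1 ≤ 1 + Real.log (1 / v) := by linarith
  have hly : 0 ≤ Real.log (1 + Real.log (1 / v)) := Real.log_nonneg hy
  have h1 : 1 + Real.log (1 / v) ≤ Yv v := by
    unfold Yv
    nlinarith
  refine ⟨by linarith, by linarith, ?_⟩
  have h2 : Real.log (1 / (v / 2)) = Real.log (1 / v) + Real.log 2 := by
    rw [← Real.log_mul (by positivity) (by norm_num)]
    congr 1
    field_simp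
  have hl2 : Real.log 2 ≤ 1 := by
    have := Real.log_two_lt_d9
    linarith
  have hl20 : 0 ≤ Real.log 2 := Real.log_nonneg (by norm_num)
  unfold Yv
  rw [h2]
  set y := 1 + Real.log (1 / v) with hyd
  have h3 : 1 + (Real.log (1 / v) + Real.log 2) = y + Real.log 2 := by rw [hyd]; ring
  rw [h3]
  have h4 : y + Real.log 2 ≤ 2 * y := by linarith
  have h5 : Real.log (y + Real.log 2) ≤ Real.log 2 + Real.log y := by
    rw [← Real.log_mul (by norm_num) (by linarith)]
    exact Real.log_le_log (by linarith) h4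
  have h6 : 1 + Real.log (y + Real.log 2) ≤ 2 * (1 + Real.log y) := by linarith
  have h7 : 0 ≤ 1 + Real.log (y + Real.log 2) := by
    have : 0 ≤ Real.log (y + Real.log 2) := Real.log_nonneg (by linarith)
    linarith
  calc (y + Real.log 2) * (1 + Real.log (y + Real.log 2))
      ≤ (2 * y) * (2 * (1 + Real.log y)) := mul_le_mul h4 h6 h7 (by linarith)
    _ = 4 * (y * (1 + Real.log y)) := by ring

theorem subb_rho {C0 v : ℝ} (hC0 : 0 < C0) (hv : 0 < v) (hv1 : v ≤ 1) {C : ℝ}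
    (hC : 4 * C0 + 1 ≤ C) :
    Real.exp (-(C * Yv v)) ≤ Real.exp (-(C0 * Yv (v / 2))) * v := by
  obtain ⟨h1, h2, h3⟩ := subb_Yv hv hv1
  have hv' : Real.exp (-(C0 * Yv (v / 2))) * v =
      Real.exp (-(C0 * Yv (v / 2)) + Real.log v) := by
    rw [Real.exp_add, Real.exp_log hv]
  rw [hv', Real.exp_le_exp]
  rw [one_div, Real.log_inv] at h2
  nlinarith

/-- a walk of length `k < h` does not reach level `h` -/
theorem subb_cge_zero (L : Lev (Om 2)) {k : ℕ} {h : ℤ} (hk : (k : ℤ) < h) :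
    cge L k h = 0 := by
  classical
  unfold cge
  rw [Finset.card_eq_zero, Finset.filter_eq_empty_iff]
  intro ξ hξ hle
  have h1 := lev_abs_le L (mem_SawSet.1 hξ) k
  have h2 := le_abs_self (lev L ξ k)
  omega

theorem subb_poly (N : ℕ) (hN : 1 ≤ N) :
    ((N : ℝ) + 1) ≤ 4 * Real.exp ((N : ℝ) ^ (3 / 4 : ℝ)) := by
  have hN1 : (1 : ℝ) ≤ N := by exact_mod_cast hN
  have hy1 : (1 : ℝ) ≤ (N : ℝ) ^ (3 / 4 : ℝ) := Real.one_le_rpow hN1 (by norm_num)
  have hNy : (N : ℝ) ≤ ((N : ℝ) ^ (3 / 4 : ℝ)) ^ 2 := by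
    rw [← Real.rpow_natCast, ← Real.rpow_mul (by linarith)]
    have : (N : ℝ) = (N : ℝ) ^ (1 : ℝ) := (Real.rpow_one _).symm
    conv_lhs => rw [this]
    exact Real.rpow_le_rpow_of_exponent_le hN1 (by norm_num)
  have hq := Real.quadratic_le_exp_of_nonneg (x := (N : ℝ) ^ (3 / 4 : ℝ)) (by linarith)
  nlinarith

theorem p_SUBB (h_RATE : St_RATE) (h_FRM : St_FRM)
    (h_TRX' : ∀ L : Lev (Om 2), (∀ v, L.F v = v 0) → PlB L)
    (h_TRU' : ∀ L : Lev (Om 2), (∀ v, L.F v = v 0 + v 1) → PlB L) : St_SUBB := by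
  obtain ⟨F1, F2, k1, k2, e1, e2, o1, o2, hA, hB, -, -⟩ := h_FRM
  obtain ⟨C0, hC0, hrate⟩ := h_RATE F1 F2 k1 k2 e1 e2 o1 o2 (h_TRU' _ hB)
    (by rw [e2]; exact h_TRX' _ hA)
  set L := F1.A with hL
  have hmu1 := one_le_mu L
  have hmu0 : 0 < mu (Om 2) := by linarith
  set D : ℝ := 16 * mu (Om 2) ^ 2 with hD
  have hD0 : 0 ≤ D := by positivity
  set C : ℝ := 4 * C0 + 52 + D with hC
  have hCpos : 0 < C := by positivity
  refine ⟨C, hCpos, ?_⟩
  intro v hv hv1 N hN
  have hN1 : (1 : ℝ) ≤ N := by exact_mod_cast hN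
  have hvN : 0 < v * N := by positivity
  set h : ℤ := ⌈v * N⌉ with hh
  have hh0 : 0 < h := Int.ceil_pos.2 hvN
  have hh1 : v * N ≤ h := Int.le_ceil _
  have hh2 : (h : ℝ) - 1 < v * N := by
    have := Int.ceil_lt_add_one (v * (N : ℝ))
    linarith
  have hfar := cfar_le 2 N (by omega) L hA h hh0 (v * N) hh2
  set ρ : ℝ := Real.exp (-(C0 * Yv (v / 2))) with hρ
  have hρ0 : 0 < ρ := Real.exp_pos _
  set E : ℝ := Real.exp (50 * (N : ℝ) ^ (3 / 4 : ℝ)) * mu (Om 2) ^ (N + 2) *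
    Real.exp (-(ρ * v * N)) with hE
  have hE0 : 0 ≤ E := by positivity
  have hterm : ∀ k ∈ Finset.range (N + 1),
      ((cge L k h * cc (Om 2) (N - k) : ℕ) : ℝ) ≤ E := by
    intro k hk
    have hkN : k ≤ N := by
      have := Finset.mem_range.1 hk
      omega
    rcases lt_or_ge (k : ℤ) h with hkh | hkh
    · rw [subb_cge_zero L hkh, Nat.zero_mul, Nat.cast_zero]
      exact hE0
    · have hk1 : 1 ≤ k := by
        have : (0 : ℤ) < k := lt_of_lt_of_le hh0 hkh
        omega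
      have hk1r : (1 : ℝ) ≤ k := by exact_mod_cast hk1
      have hkNr : (k : ℝ) ≤ N := by exact_mod_cast hkN
      have hkhr : (h : ℝ) ≤ k := by exact_mod_cast hkh
      have hsp : v / 2 * ((k + 1 : ℕ) : ℝ) ≤ h := by
        push_cast
        have h1 : v * k ≤ v * N := mul_le_mul_of_nonneg_left hkNr hv.le
        nlinarith
      have hr := hrate (v / 2) (by positivity) (by linarith) (k + 1) h hsp
      have h1 := cge_le L k h
      have h2 := cc_le L (N - k)
      have hr' : (br L (k + 1) h : ℝ) ≤ mu (Om 2) ^ (k + 1) * Real.exp (-(ρ * v * N)) := by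
        refine hr.trans (mul_le_mul_of_nonneg_left ?_ (by positivity))
        rw [Real.exp_le_exp]
        have h3 : ρ * (v * N) ≤ ρ * ((k + 1 : ℕ) : ℝ) := by
          apply mul_le_mul_of_nonneg_left _ hρ0.le
          push_cast
          linarith
        have h4 : -Real.exp (-(C0 * Yv (v / 2))) * ((k + 1 : ℕ) : ℝ) =
          -(ρ * ((k + 1 : ℕ) : ℝ)) := by rw [hρ]; ring
        rw [h4]
        linarith
      have hk3 : (k : ℝ) ^ (3 / 4 : ℝ) ≤ (N : ℝ) ^ (3 / 4 : ℝ) :=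
        Real.rpow_le_rpow (by positivity) hkNr (by norm_num)
      have hk4 : ((N - k : ℕ) : ℝ) ^ (3 / 4 : ℝ) ≤ (N : ℝ) ^ (3 / 4 : ℝ) :=
        Real.rpow_le_rpow (by positivity) (by exact_mod_cast Nat.sub_le N k) (by norm_num)
      push_cast
      calc (cge L k h : ℝ) * (cc (Om 2) (N - k) : ℝ)
          ≤ (Real.exp (25 * (k : ℝ) ^ (3 / 4 : ℝ)) * (mu (Om 2) ^ (k + 1) *
              Real.exp (-(ρ * v * N)))) * (Real.exp (25 * ((N - k : ℕ) : ℝ) ^ (3 / 4 : ℝ)) *
              mu (Om 2) ^ (N - k + 1)) := by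
            apply mul_le_mul _ h2 (by positivity) (by positivity)
            exact h1.trans (mul_le_mul_of_nonneg_left hr' (by positivity))
        _ ≤ (Real.exp (25 * (N : ℝ) ^ (3 / 4 : ℝ)) * (mu (Om 2) ^ (k + 1) *
              Real.exp (-(ρ * v * N)))) * (Real.exp (25 * (N : ℝ) ^ (3 / 4 : ℝ)) *
              mu (Om 2) ^ (N - k + 1)) := by
            gcongr
        _ = E := by
            rw [hE]
            have h5 : N + 2 = (k + 1) + (N - k + 1) := by omega
            have h6 : Real.exp (50 * (N : ℝ) ^ (3 / 4 : ℝ)) =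
              Real.exp (25 * (N : ℝ) ^ (3 / 4 : ℝ)) * Real.exp (25 * (N : ℝ) ^ (3 / 4 : ℝ)) := by
              rw [← Real.exp_add]
              congr 1
              ring
            rw [h5, pow_add, h6]
            ring
  have hsum : (cfar 2 N (v * N) : ℝ) ≤ 4 * ((N + 1) * E) := by
    have h1 : (cfar 2 N (v * N) : ℝ) ≤
        ((4 * ∑ k ∈ Finset.range (N + 1), cge L k h * cc (Om 2) (N - k) : ℕ) : ℝ) := by
      exact_mod_cast hfar
    refine h1.trans ?_
    rw [Nat.cast_mul, Nat.cast_sum]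
    push_cast
    apply mul_le_mul_of_nonneg_left _ (by positivity)
    have h2 := Finset.sum_le_card_nsmul _ _ _ hterm
    rw [Finset.card_range, nsmul_eq_mul] at h2
    push_cast at h2
    exact h2
  have hcN : mu (Om 2) ^ N ≤ (cN 2 N : ℝ) := by
    rw [cN_eq]
    exact mu_pow_le_cc L N
  have hρv := subb_rho hC0 hv hv1 (C := C) (by rw [hC]; linarith)
  refine hsum.trans ?_
  have hpoly := subb_poly N hN
  calc 4 * ((N + 1) * E)
      ≤ 4 * ((4 * Real.exp ((N : ℝ) ^ (3 / 4 : ℝ))) * E) := by gcongr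
    _ = D * (Real.exp ((N : ℝ) ^ (3 / 4 : ℝ)) * Real.exp (50 * (N : ℝ) ^ (3 / 4 : ℝ)) *
          Real.exp (-(ρ * v * N))) * mu (Om 2) ^ N := by
        rw [hE, hD, pow_add]
        ring
    _ = D * Real.exp (51 * (N : ℝ) ^ (3 / 4 : ℝ) - ρ * v * N) * mu (Om 2) ^ N := by
        rw [← Real.exp_add, ← Real.exp_add]
        congr 3
        ring
    _ ≤ C * Real.exp (C * (N : ℝ) ^ (3 / 4 : ℝ) - Real.exp (-(C * Yv v)) * N) * cN 2 N := by
        have hy0 : (0 : ℝ) ≤ (N : ℝ) ^ (3 / 4 : ℝ) := by positivity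
        have hDC : D ≤ C := by rw [hC]; linarith
        have h51 : 51 ≤ C := by rw [hC]; linarith
        have hexp : Real.exp (51 * (N : ℝ) ^ (3 / 4 : ℝ) - ρ * v * N) ≤
            Real.exp (C * (N : ℝ) ^ (3 / 4 : ℝ) - Real.exp (-(C * Yv v)) * N) := by
          rw [Real.exp_le_exp]
          have h1 := mul_le_mul_of_nonneg_right h51 hy0
          have h2 : Real.exp (-(C * Yv v)) * N ≤ ρ * v * N :=
            mul_le_mul_of_nonneg_right hρv (by positivity)
          linarith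
        gcongr

end Pool.Agent.H979R2.P2
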