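import Pool.Agent.H979R2.P2.TRX

/-! TRU: transfer of the planar input to step sequences, level `x + y`. -/

set_option autoImplicit false

namespace Pool.Agent.H979R2.P2

open Finset
open Pool.Agent.H725R2.SB
open Pool.Agent.H979R2.NP (NCd hit D0 Yb PL SawA BrA BrF mem_BrF St_UNI lv)

theorem p_TRU : St_TRU := by
  intro X hadj hU L hL
  let ψ : (Fin 2 → ℤ) →+ ℤ × ℤ :=
    { toFun := fun v => (v 0 + v 1, v 0 - v 1)
      map_zero' := by simp
      map_add' := fun u v => by
        simp only [Pi.add_apply, Prod.mk_add_mk]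
        apply Prod.ext
        · ring
        · ring }
  have hψ : ∀ v, ψ v = (v 0 + v 1, v 0 - v 1) := fun v => rfl
  refine trx_main X ψ ?_ ?_ ?_ L (fun v => by rw [hψ, hL]) hU
  · intro u v h
    rw [hψ, hψ, Prod.mk.injEq] at h
    funext i
    fin_cases i
    · simp only [Fin.zero_eta]
      omega
    · simp only [Fin.mk_one]
      omega
  · intro v hv p
    rw [hadj, hψ]
    rw [trx_mem_Om] at hv
    simp only [Prod.fst_add, Prod.snd_add]
    omega
  · intro p q h
    rw [hadj] at h
    refine ⟨![((q.1 - p.1) + (q.2 - p.2)) / 2, ((q.1 - p.1) - (q.2 - p.2)) / 2], ?_, ?_⟩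
    · rw [trx_mem_Om]
      simp only [Matrix.cons_val_zero, Matrix.cons_val_one]
      omega
    · rw [hψ]
      apply Prod.ext
      · simp only [Prod.fst_add, Matrix.cons_val_zero, Matrix.cons_val_one]
        omega
      · simp only [Prod.snd_add, Matrix.cons_val_zero, Matrix.cons_val_one]
        omega

end Pool.Agent.H979R2.P2
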