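import Pool.Agent.H979R2.P2.Stubs
import Pool.Agent.H725R2.SB.Base

/-! TRX: transfer of the planar input to step sequences, level `x`. -/

set_option autoImplicit false

namespace Pool.Agent.H979R2.P2

open Finset
open Pool.Agent.H725R2.SB
open Pool.Agent.H979R2.NP (NCd hit D0 Yb PL SawA BrA BrF mem_BrF St_UNI lv)

theorem trx_P_const {N : ℕ} {ξ : ℕ → (Fin 2 → ℤ)} (h : IsSaw (Om 2) N ξ) :
    ∀ i, N ≤ i → P ξ i = P ξ N := by
  intro i hi
  induction i, hi using Nat.le_induction with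
  | base => rfl
  | succ n hn ih => rw [P_succ, ih, h.zero n hn, add_zero]

theorem trx_saw {X : PL} {ψ : (Fin 2 → ℤ) →+ ℤ × ℤ} (hinj : Function.Injective ψ)
    (ha : ∀ v ∈ Om 2, ∀ p, X.adj p (p + ψ v)) {N : ℕ} {ξ : ℕ → (Fin 2 → ℤ)}
    (h : IsSaw (Om 2) N ξ) : SawA X.adj N (fun i => ψ (P ξ i)) := by
  refine ⟨?_, ?_, ?_, ?_⟩
  · simp only [P_zero, map_zero]; rfl
  · intro i hi
    simp only [P_succ, map_add]
    exact ha _ (h.step i hi) _
  · intro i k hi hk hik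
    have h1 : P ξ i = P ξ k := hinj hik
    rcases lt_trichotomy i k with hlt | hlt | hlt
    · exact absurd h1 (h.inj i k hlt hk)
    · exact hlt
    · exact absurd h1.symm (h.inj k i hlt hi)
  · intro i hi
    simp only [trx_P_const h i hi]

theorem trx_lev {L : Lev (Om 2)} {ψ : (Fin 2 → ℤ) →+ ℤ × ℤ} (hL : ∀ v, (ψ v).1 = L.F v)
    (ξ : ℕ → (Fin 2 → ℤ)) : lv (fun i => ψ (P ξ i)) = lev L ξ := by
  funext i
  simp only [lv, hL]
  rfl

theorem trx_br {X : PL} {ψ : (Fin 2 → ℤ) →+ ℤ × ℤ} (hinj : Function.Injective ψ)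
    (ha : ∀ v ∈ Om 2, ∀ p, X.adj p (p + ψ v)) {L : Lev (Om 2)} (hL : ∀ v, (ψ v).1 = L.F v)
    {N : ℕ} {ξ : ℕ → (Fin 2 → ℤ)} (h : IsBr L N ξ) : BrA X.adj N (fun i => ψ (P ξ i)) := by
  have hl : ∀ i, (ψ (P ξ i)).1 = lev L ξ i := fun i => congrFun (trx_lev hL ξ) i
  refine ⟨trx_saw hinj ha h.saw, ?_, ?_⟩
  · intro i h1 h2
    simp only [hl]
    exact h.pos i h1 h2
  · intro i hi
    simp only [hl]
    exact h.top i hi

theorem trx_inj {ψ : (Fin 2 → ℤ) →+ ℤ × ℤ} (hinj : Function.Injective ψ) :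
    Function.Injective (fun (ξ : ℕ → (Fin 2 → ℤ)) (i : ℕ) => ψ (P ξ i)) := by
  intro ξ ξ' h
  have h1 : ∀ i, P ξ i = P ξ' i := fun i => hinj (congrFun h i)
  funext i
  have h2 := h1 (i + 1)
  rw [P_succ, P_succ, h1 i] at h2
  exact add_left_cancel h2

/-- the steps of a walk -/
noncomputable def trx_step (ψ : (Fin 2 → ℤ) →+ ℤ × ℤ) (w : ℕ → ℤ × ℤ) : ℕ → (Fin 2 → ℤ) :=
  fun i => Function.invFun ψ (w (i + 1) - w i)

theorem trx_back {X : PL} {ψ : (Fin 2 → ℤ) →+ ℤ × ℤ} (hinj : Function.Injective ψ)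
    (hb : ∀ p q, X.adj p q → ∃ v ∈ Om 2, q = p + ψ v) {N : ℕ} {w : ℕ → ℤ × ℤ}
    (h : SawA X.adj N w) : IsSaw (Om 2) N (trx_step ψ w) ∧ ∀ i, ψ (P (trx_step ψ w) i) = w i := by
  have hinv : ∀ v, Function.invFun ψ (ψ v) = v := Function.leftInverse_invFun hinj
  have h1 : ∀ i, i < N → trx_step ψ w i ∈ Om 2 ∧ w (i + 1) = w i + ψ (trx_step ψ w i) := by
    intro i hi
    obtain ⟨v, hv, hq⟩ := hb _ _ (h.adj i hi)
    have : trx_step ψ w i = v := by
      unfold trx_step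
      rw [hq, add_sub_cancel_left, hinv]
    rw [this]
    exact ⟨hv, hq⟩
  have h2 : ∀ i, N ≤ i → trx_step ψ w i = 0 := by
    intro i hi
    unfold trx_step
    rw [h.const (i + 1) (by omega), h.const i hi, sub_self]
    have := hinv 0
    rwa [map_zero] at this
  have h3 : ∀ i, ψ (P (trx_step ψ w) i) = w i := by
    intro i
    induction i with
    | zero => rw [P_zero, map_zero, h.zero]; rfl
    | succ i ih =>
      rw [P_succ, map_add, ih]
      rcases Nat.lt_or_ge i N with hi | hi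
      · exact (h1 i hi).2.symm
      · rw [h2 i hi, map_zero, add_zero, h.const i hi, h.const (i + 1) (by omega)]
  refine ⟨⟨fun i hi => (h1 i hi).1, h2, ?_⟩, h3⟩
  intro i j hij hj heq
  have h4 : w i = w j := by rw [← h3 i, ← h3 j, heq]
  have := h.inj i j (by omega) hj h4
  omega

theorem trx_main (X : PL) (ψ : (Fin 2 → ℤ) →+ ℤ × ℤ) (hinj : Function.Injective ψ)
    (ha : ∀ v ∈ Om 2, ∀ p, X.adj p (p + ψ v))
    (hb : ∀ p q, X.adj p q → ∃ v ∈ Om 2, q = p + ψ v)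
    (L : Lev (Om 2)) (hL : ∀ v, (ψ v).1 = L.F v) (hU : St_UNI X) : PlB L := by
  classical
  intro N r w τ m k hr hw
  have h1 := hU N r w τ m k hr hw
  have h2 : ((SawSet (Om 2) N).filter (fun ξ => IsBr L N ξ ∧ ∃ J : Finset ℕ, J ⊆ range m ∧
      k ≤ J.card ∧ ∀ j ∈ J, NCd (lev L ξ) N r w τ j)).card ≤
      ((BrF X N).filter (fun u => ∃ J ⊆ Finset.range m, k ≤ J.card ∧
        ∀ j ∈ J, NCd (lv u) N r w τ j)).card := by
    refine Finset.card_le_card_of_injOn (fun ξ i => ψ (P ξ i)) ?_ ?_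
    · intro ξ hξ
      rw [Finset.mem_coe, Finset.mem_filter] at hξ
      obtain ⟨_, hbr, J, hJ1, hJ2, hJ3⟩ := hξ
      rw [Finset.mem_coe, Finset.mem_filter, mem_BrF]
      refine ⟨trx_br hinj ha hL hbr, J, hJ1, hJ2, ?_⟩
      rw [trx_lev hL]
      exact hJ3
    · intro ξ _ ξ' _ h
      exact trx_inj hinj h
  have h3 : (BrF X N).card ≤ cc (Om 2) N := by
    unfold cc
    refine Finset.card_le_card_of_injOn (trx_step ψ) ?_ ?_
    · intro u hu
      rw [Finset.mem_coe, mem_BrF] at hu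
      rw [Finset.mem_coe, mem_SawSet]
      exact (trx_back hinj hb hu.saw).1
    · intro u hu u' hu' h
      rw [Finset.mem_coe, mem_BrF] at hu hu'
      funext i
      rw [← (trx_back hinj hb hu.saw).2 i, ← (trx_back hinj hb hu'.saw).2 i, h]
  have h4 : (0 : ℝ) ≤ 2 ^ m * (D0 r τ) ^ k := by
    have : (0 : ℝ) ≤ D0 r τ := by
      unfold D0
      positivity
    positivity
  calc (((SawSet (Om 2) N).filter (fun ξ => IsBr L N ξ ∧ ∃ J : Finset ℕ, J ⊆ range m ∧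
      k ≤ J.card ∧ ∀ j ∈ J, NCd (lev L ξ) N r w τ j)).card : ℝ) * (w : ℝ) ^ k ≤
      (((BrF X N).filter (fun u => ∃ J ⊆ Finset.range m, k ≤ J.card ∧
        ∀ j ∈ J, NCd (lv u) N r w τ j)).card : ℝ) * (w : ℝ) ^ k := by
        refine mul_le_mul_of_nonneg_right ?_ (by positivity)
        exact_mod_cast h2
    _ ≤ 2 ^ m * (D0 r τ) ^ k * ((BrF X N).card : ℝ) := h1
    _ ≤ 2 ^ m * (D0 r τ) ^ k * (cc (Om 2) N : ℝ) := by
        refine mul_le_mul_of_nonneg_left ?_ h4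
        exact_mod_cast h3

theorem trx_mem_Om {v : Fin 2 → ℤ} : v ∈ Om 2 ↔
    (v 0 = 1 ∧ v 1 = 0) ∨ (v 0 = 0 ∧ v 1 = 1) ∨ (v 0 = -1 ∧ v 1 = 0) ∨ (v 0 = 0 ∧ v 1 = -1) := by
  unfold Om
  simp only [Finset.mem_union, Finset.mem_image, Finset.mem_univ, true_and, Fin.exists_fin_two]
  have e : ∀ u : Fin 2 → ℤ, u = v ↔ (u 0 = v 0 ∧ u 1 = v 1) := by
    intro u
    constructor
    · rintro rfl; exact ⟨rfl, rfl⟩
    · rintro ⟨h0, h1⟩
      funext i
      fin_cases i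
      · exact h0
      · exact h1
  simp only [e]
  simp
  omega

theorem p_TRX : St_TRX := by
  intro X hadj hU L hL
  let ψ : (Fin 2 → ℤ) →+ ℤ × ℤ :=
    { toFun := fun v => (v 0, v 1)
      map_zero' := rfl
      map_add' := fun u v => rfl }
  have hψ : ∀ v, ψ v = (v 0, v 1) := fun v => rfl
  refine trx_main X ψ ?_ ?_ ?_ L (fun v => by rw [hψ, hL]) hU
  · intro u v h
    rw [hψ, hψ, Prod.mk.injEq] at h
    funext i
    fin_cases i
    · exact h.1
    · exact h.2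
  · intro v hv p
    rw [hadj, hψ]
    rw [trx_mem_Om] at hv
    unfold Pool.Agent.H977R2.Adj
    simp only [Prod.fst_add, Prod.snd_add]
    omega
  · intro p q h
    rw [hadj] at h
    refine ⟨![q.1 - p.1, q.2 - p.2], ?_, ?_⟩
    · rw [trx_mem_Om]
      unfold Pool.Agent.H977R2.Adj at h
      simp only [Matrix.cons_val_zero, Matrix.cons_val_one]
      omega
    · rw [hψ]
      apply Prod.ext <;> simp

end Pool.Agent.H979R2.P2
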