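import Pool.Agent.H979R2.P2.Stubs
import Pool.Agent.H725R2.SB.TF2

/-! Task UNA of the almost power law: unfolding all backtracks of a family. -/

set_option autoImplicit false

namespace Pool.Agent.H979R2.P2

open Finset
open Pool.Agent.H725R2.SB

theorem una_aux (L : Lev (Om 2)) (N r : ℕ) (hr : 1 ≤ r) : ∀ n : ℕ,
    ∀ (ξ : ℕ → (Fin 2 → ℤ)) (I : Finset (ℕ × ℕ)), I.card = n →
    IsSaw (Om 2) N ξ → HF (lev L ξ) N r I →
    IsSaw (Om 2) N (op L.r (cov I) ξ) ∧
    lev L (op L.r (cov I) ξ) N = lev L ξ N + 2 * drop (lev L ξ) I := by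
  intro n
  induction n with
  | zero =>
    intro ξ I hI hs hf
    rw [Finset.card_eq_zero] at hI
    subst hI
    have h1 : op L.r (cov ∅) ξ = ξ := by
      funext i
      simp [op, cov]
    rw [h1]
    refine ⟨hs, ?_⟩
    simp [drop]
  | succ n ih =>
    intro ξ I hI hs hf
    have hne : I.Nonempty := by
      rw [← Finset.card_pos]; omega
    obtain ⟨x, hx, hmax⟩ := Finset.exists_max_image I Prod.fst hne
    obtain ⟨t, t'⟩ := x
    simp only at hmax
    obtain ⟨p, hb⟩ := hf.bt _ hx
    simp only at hb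
    have hsz := hf.sz _ hx
    simp only at hsz
    have hle := hb.le
    have hleN := hb.leN
    have hlt : t < t' := by
      rcases hle.lt_or_eq with h | h
      · exact h
      · exfalso
        rw [h] at hsz
        have : (1 : ℤ) ≤ (r : ℤ) := by exact_mod_cast hr
        omega
    have hy2 : ∀ y ∈ I.erase (t, t'), y.1 ≤ y.2 ∧ y.2 ≤ t := by
      intro y hy
      rw [Finset.mem_erase] at hy
      obtain ⟨q, hq⟩ := hf.bt y hy.2
      refine ⟨hq.le, ?_⟩
      have h1 := hf.dj (t, t') hx y hy.2 (Ne.symm hy.1)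
      simp only at h1
      have h2 := hmax y hy.2
      rcases h1 with h | h
      · omega
      · exact h
    obtain ⟨s1, f1, f2, f3⟩ := unfold_saw L hs hb
    have hu : TF2Unf (lev L ξ) (lev L (op L.r (Finset.Ico t t') ξ)) t t' := ⟨f1, f2, f3⟩
    have hge := tF2_ge hb hu
    have hcard : (I.erase (t, t')).card = n := by
      rw [Finset.card_erase_of_mem hx, hI]; rfl
    have hf1 : HF (lev L (op L.r (Finset.Ico t t') ξ)) N r (I.erase (t, t')) := by
      refine ⟨fun y hy z hz hyz => hf.dj y (Finset.mem_of_mem_erase hy) z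
        (Finset.mem_of_mem_erase hz) hyz, fun y hy => ?_, fun y hy => ?_⟩
      · obtain ⟨hy1, hy3⟩ := hy2 y hy
        obtain ⟨q, hq⟩ := hf.bt y (Finset.mem_of_mem_erase hy)
        have e1 := f1 y.1 (hy1.trans hy3)
        have e2 := f1 y.2 hy3
        refine ⟨q, ⟨hy1, hq.leN, fun i hi => ?_, fun i hi hi' => ?_, fun i hi hi' => ?_,
          fun i hi hi' => ?_, ?_, ?_⟩⟩
        · rw [f1 i (by omega), e1]
          exact hq.up i hi
        · rw [f1 i (by omega), e1]
          exact hq.up' i hi hi'
        · rw [e2]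
          exact (hq.lo i hi hi').trans (hge i)
        · rw [e2]
          exact (hq.lo' i hi hi').trans_le (hge i)
        · rw [e2]; exact hq.p1
        · rw [e1]; exact hq.p2
      · obtain ⟨hy1, hy3⟩ := hy2 y hy
        rw [f1 y.1 (hy1.trans hy3), f1 y.2 hy3]
        exact hf.sz y (Finset.mem_of_mem_erase hy)
    obtain ⟨g1, g2⟩ := ih _ _ hcard s1 hf1
    have hop : op L.r (cov (I.erase (t, t'))) (op L.r (Finset.Ico t t') ξ) =
        op L.r (cov I) ξ := by
      funext i
      have hmem : i ∈ cov I ↔ i ∈ cov (I.erase (t, t')) ∨ i ∈ Finset.Ico t t' := by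
        unfold cov
        rw [Finset.mem_biUnion, Finset.mem_biUnion]
        constructor
        · rintro ⟨y, hy, hiy⟩
          by_cases hyx : y = (t, t')
          · right; rw [hyx] at hiy; exact hiy
          · left; exact ⟨y, Finset.mem_erase.2 ⟨hyx, hy⟩, hiy⟩
        · rintro (⟨y, hy, hiy⟩ | h)
          · exact ⟨y, Finset.mem_of_mem_erase hy, hiy⟩
          · exact ⟨(t, t'), hx, h⟩
      by_cases h1 : i ∈ cov (I.erase (t, t'))
      · have h2 : i ∉ Finset.Ico t t' := by
          unfold cov at h1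
          rw [Finset.mem_biUnion] at h1
          obtain ⟨y, hy, hiy⟩ := h1
          rw [Finset.mem_Ico] at hiy ⊢
          have := (hy2 y hy).2
          omega
        have h3 : i ∈ cov I := hmem.2 (Or.inl h1)
        simp only [op, if_pos h1, if_neg h2, if_pos h3]
      · by_cases h2 : i ∈ Finset.Ico t t'
        · have h3 : i ∈ cov I := hmem.2 (Or.inr h2)
          simp only [op, if_neg h1, if_pos h2, if_pos h3]
        · have h3 : i ∉ cov I := fun h => (hmem.1 h).elim h1 h2
          simp only [op, if_neg h1, if_neg h2, if_neg h3]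
    rw [hop] at g1 g2
    refine ⟨g1, ?_⟩
    rw [g2, f3 N hleN]
    have hd1 : drop (lev L (op L.r (Finset.Ico t t') ξ)) (I.erase (t, t')) =
        drop (lev L ξ) (I.erase (t, t')) := by
      unfold drop
      apply Finset.sum_congr rfl
      intro y hy
      obtain ⟨hy1, hy3⟩ := hy2 y hy
      rw [f1 y.1 (hy1.trans hy3), f1 y.2 hy3]
    have hd2 : drop (lev L ξ) I =
        (lev L ξ t - lev L ξ t') + drop (lev L ξ) (I.erase (t, t')) := by
      unfold drop
      rw [← Finset.add_sum_erase I _ hx]
    rw [hd1, hd2]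
    ring

theorem p_UNA : St_UNA := by
  intro L N r ξ I hr hs hf
  exact una_aux L N r hr I.card ξ I rfl hs hf

end Pool.Agent.H979R2.P2
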