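import Pool.Agent.H979R2.P2.Stubs
import Pool.Agent.H725R2.SB.TI

/-! # WIN: counting windows -/

set_option autoImplicit false

namespace Pool.Agent.H979R2.P2

open Finset
open Pool.Agent.H725R2.SB
open Pool.Agent.H979R2.NP (NCd hit)

theorem win_hit_le {a : ℕ → ℤ} {N : ℕ} {x : ℤ} (h : x ≤ a N) : hit a x ≤ N :=
  Nat.sInf_le (by exact h)

theorem win_hit_mono {a : ℕ → ℤ} {N : ℕ} {x y : ℤ} (hxy : x ≤ y) (h : y ≤ a N) :
    hit a x ≤ hit a y := by
  have hne : {i | y ≤ a i}.Nonempty := ⟨N, h⟩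
  have h1 : y ≤ a (hit a y) := Nat.sInf_mem hne
  exact Nat.sInf_le (by exact hxy.trans h1)

/-- few windows of long duration -/
theorem win_dur {a : ℕ → ℤ} {N w τ K : ℕ} (hK : 8 * (w : ℤ) * (K + 1) ≤ a N)
    (D : Finset ℕ) (hD : D ⊆ range (K + 1))
    (h : ∀ k ∈ D, hit a (8 * (w : ℤ) * k) + τ < hit a (8 * (w : ℤ) * k + 4 * w)) :
    D.card * (τ + 1) ≤ N := by
  have hw : (0 : ℤ) ≤ w := by positivity
  have hle : ∀ k : ℕ, k ≤ K → 8 * (w : ℤ) * (k + 1) ≤ a N := by
    intro k hk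
    have h1 : (k : ℤ) + 1 ≤ K + 1 := by
      have : (k : ℤ) ≤ K := by exact_mod_cast hk
      linarith
    exact (mul_le_mul_of_nonneg_left h1 (by positivity)).trans hK
  have hmono : ∀ k ∈ range (K + 1), (0 : ℤ) ≤
      (hit a (8 * (w : ℤ) * ((k + 1 : ℕ) : ℤ)) : ℤ) - (hit a (8 * (w : ℤ) * (k : ℤ)) : ℤ) := by
    intro k hk
    rw [mem_range] at hk
    have h1 : hit a (8 * (w : ℤ) * (k : ℤ)) ≤ hit a (8 * (w : ℤ) * ((k + 1 : ℕ) : ℤ)) := by
      refine win_hit_mono (N := N) ?_ ?_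
      · push_cast
        nlinarith
      · push_cast
        exact hle k (by omega)
    have h2 : (hit a (8 * (w : ℤ) * (k : ℤ)) : ℤ) ≤
        (hit a (8 * (w : ℤ) * ((k + 1 : ℕ) : ℤ)) : ℤ) := by exact_mod_cast h1
    linarith
  have h1 : ∑ _k ∈ D, ((τ : ℤ) + 1) ≤ ∑ k ∈ D,
      ((hit a (8 * (w : ℤ) * ((k + 1 : ℕ) : ℤ)) : ℤ) - (hit a (8 * (w : ℤ) * (k : ℤ)) : ℤ)) := by
    refine sum_le_sum ?_
    intro k hk
    have h2 := h k hk
    have hk' := mem_range.1 (hD hk)
    have h3 : hit a (8 * (w : ℤ) * (k : ℤ) + 4 * w) ≤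
        hit a (8 * (w : ℤ) * ((k + 1 : ℕ) : ℤ)) := by
      refine win_hit_mono (N := N) ?_ ?_
      · push_cast
        nlinarith
      · push_cast
        exact hle k (by omega)
    have h4 : hit a (8 * (w : ℤ) * (k : ℤ)) + τ + 1 ≤
        hit a (8 * (w : ℤ) * ((k + 1 : ℕ) : ℤ)) := by omega
    have h5 : (hit a (8 * (w : ℤ) * (k : ℤ)) : ℤ) + τ + 1 ≤
        (hit a (8 * (w : ℤ) * ((k + 1 : ℕ) : ℤ)) : ℤ) := by exact_mod_cast h4
    linarith
  have h2 := sum_le_sum_of_subset_of_nonneg hD (f := fun k : ℕ =>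
    ((hit a (8 * (w : ℤ) * ((k + 1 : ℕ) : ℤ)) : ℤ) - (hit a (8 * (w : ℤ) * (k : ℤ)) : ℤ)))
    (fun k hk _ => hmono k hk)
  have h3 := Finset.sum_range_sub (fun k : ℕ => (hit a (8 * (w : ℤ) * (k : ℤ)) : ℤ)) (K + 1)
  have h4 : hit a (8 * (w : ℤ) * ((K + 1 : ℕ) : ℤ)) ≤ N :=
    win_hit_le (by push_cast; exact hK)
  have h5 : (hit a (8 * (w : ℤ) * ((K + 1 : ℕ) : ℤ)) : ℤ) ≤ N := by exact_mod_cast h4
  have h6 : (0 : ℤ) ≤ (hit a (8 * (w : ℤ) * ((0 : ℕ) : ℤ)) : ℤ) := by positivity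
  have h7 : ∑ _k ∈ D, ((τ : ℤ) + 1) ≤ N := by
    refine h1.trans (h2.trans ?_)
    rw [h3]
    linarith
  rw [sum_const, nsmul_eq_mul] at h7
  exact_mod_cast h7

theorem p_WIN : St_WIN := by
  classical
  intro a hlip a0 N r w τ M hr hrw hM hN hτ hL
  by_cases hJ : ∃ J : Finset ℕ, J ⊆ range (2 * M) ∧ M ≤ 80 * J.card ∧ ∀ i ∈ J, NCd a N r w τ i
  · exact Or.inl hJ
  refine Or.inr ?_
  have hw1 : 1 ≤ w := hr.trans hrw
  have hwpos : (0 : ℤ) < w := by exact_mod_cast hw1
  set K : ℕ := 67 * M / 100 with hK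
  have hK1 : 100 * K ≤ 67 * M := by omega
  have hK2 : 67 * M < 100 * K + 100 := by omega
  set m : ℕ := 27 * M / 20 with hm
  have hm1 : 20 * m ≤ 27 * M := by omega
  have hm2 : 27 * M < 20 * m + 20 := by omega
  have hbig : (20 : ℤ) * (w : ℤ) * m ≤ 5 * a N := by
    have h1 : (20 * (m : ℤ)) ≤ 27 * M := by exact_mod_cast hm1
    nlinarith
  have hmaN : 4 * (w : ℤ) * m ≤ a N := by linarith
  have hlev : ∀ t : ℕ, t ≤ m → 4 * (w : ℤ) * t ≤ a N := by
    intro t ht
    have h1 : (t : ℤ) ≤ m := by exact_mod_cast ht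
    exact (mul_le_mul_of_nonneg_left h1 (by positivity)).trans hmaN
  -- the closed windows
  set Clo := (range (K + 1)).filter (fun k => ¬ Open a N w k) with hClo
  have hcl : ∀ k ∈ Clo, ∀ q : ℤ, 4 * (w : ℤ) * ((2 * k : ℕ) : ℤ) ≤ q →
      q < 4 * (w : ℤ) * (((2 * k : ℕ) : ℤ) + 1) → ¬ IsCut a N q := by
    intro k hk q hq1 hq2 hq3
    rw [hClo, mem_filter] at hk
    refine hk.2 ⟨q, ?_, ?_, hq3⟩
    · refine le_trans (le_of_eq ?_) hq1
      push_cast; ring
    · refine lt_of_lt_of_eq hq2 ?_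
      push_cast; ring
  set NN := Clo.filter (fun k => NCd a N r w τ (2 * k)) with hNN
  set LL := Clo.filter (fun k : ℕ => ((Finset.Ioc (4 * (w : ℤ) * ((2 * k : ℕ) : ℤ) + w)
      (4 * (w : ℤ) * ((2 * k : ℕ) : ℤ) + 3 * w)).filter
      (fun p => Light a N r p)).card < w) with hLL
  set DD := Clo.filter (fun k : ℕ => hit a (8 * (w : ℤ) * k) + τ <
      hit a (8 * (w : ℤ) * k + 4 * w)) with hDD
  have hsub : Clo ⊆ {0} ∪ (NN ∪ (LL ∪ DD)) := by
    intro k hk
    by_cases hk0 : k = 0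
    · exact mem_union.2 (Or.inl (by simp [hk0]))
    refine mem_union.2 (Or.inr ?_)
    by_cases h1 : ((Finset.Ioc (4 * (w : ℤ) * ((2 * k : ℕ) : ℤ) + w)
      (4 * (w : ℤ) * ((2 * k : ℕ) : ℤ) + 3 * w)).filter
      (fun p => Light a N r p)).card < w
    · exact mem_union.2 (Or.inr (mem_union.2 (Or.inl (mem_filter.2 ⟨hk, h1⟩))))
    by_cases h2 : hit a (8 * (w : ℤ) * k) + τ < hit a (8 * (w : ℤ) * k + 4 * w)
    · exact mem_union.2 (Or.inr (mem_union.2 (Or.inr (mem_filter.2 ⟨hk, h2⟩))))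
    refine mem_union.2 (Or.inl (mem_filter.2 ⟨hk, by omega, ⟨hcl k hk, not_lt.1 h1⟩, ?_, ?_⟩))
    · have e1 : 4 * (w : ℤ) * (((2 * k : ℕ) : ℤ) + 1) = 8 * (w : ℤ) * k + 4 * w := by
        push_cast; ring
      have e2 : 4 * (w : ℤ) * ((2 * k : ℕ) : ℤ) = 8 * (w : ℤ) * k := by
        push_cast; ring
      rw [e1, e2]
      exact not_lt.1 h2
    · have hkK : k < K + 1 := mem_range.1 (mem_filter.1 hk).1
      have h3 := hlev (2 * k + 2) (by omega)
      push_cast at h3 ⊢
      exact h3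
  have hNNc : 80 * NN.card < M := by
    by_contra hcon
    refine hJ ⟨NN.image (fun k => 2 * k), ?_, ?_, ?_⟩
    · intro i hi
      rw [mem_image] at hi
      obtain ⟨k, hk, rfl⟩ := hi
      have hkK : k < K + 1 := mem_range.1 (mem_filter.1 (mem_filter.1 hk).1).1
      rw [mem_range]
      omega
    · rw [card_image_of_injective _ (fun x y hxy => by simpa using hxy)]
      exact not_lt.1 hcon
    · intro i hi
      rw [mem_image] at hi
      obtain ⟨k, hk, rfl⟩ := hi
      exact (mem_filter.1 hk).2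
  have hLLc : 1000 * LL.card ≤ M := by
    have h1 := tI_few (a := a) (N := N) (r := r) (w := w) (m := m)
      (LL.image (fun k => 2 * k)) (by
        intro i hi
        rw [mem_image] at hi
        obtain ⟨k, hk, rfl⟩ := hi
        have hkK : k < K + 1 := mem_range.1 (mem_filter.1 (mem_filter.1 hk).1).1
        rw [mem_range]
        omega) (by
        intro i hi
        rw [mem_image] at hi
        obtain ⟨k, hk, rfl⟩ := hi
        exact (mem_filter.1 hk).2)
    rw [card_image_of_injective _ (fun x y hxy => by simpa using hxy)] at h1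
    have h2 := hL (4 * w * m) (by push_cast; exact hmaN) (by nlinarith)
    have h3 : w * (1000 * LL.card) ≤ w * M := by
      refine le_trans ?_ h2
      nlinarith
    exact Nat.le_of_mul_le_mul_left h3 hw1
  have hDDc : 80 * DD.card ≤ M := by
    have h1 := win_dur (a := a) (N := N) (w := w) (τ := τ) (K := K) (by
      have h3 := hlev (2 * K + 2) (by omega)
      push_cast at h3 ⊢
      linarith) DD ((filter_subset _ _).trans (filter_subset _ _))
      (fun k hk => (mem_filter.1 hk).2)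
    have h2 : (τ + 1) * (80 * DD.card) ≤ (τ + 1) * M := by nlinarith
    exact Nat.le_of_mul_le_mul_left h2 (Nat.succ_pos τ)
  have hCc : Clo.card ≤ 1 + (NN.card + (LL.card + DD.card)) := by
    refine (card_le_card hsub).trans ((card_union_le _ _).trans ?_)
    rw [card_singleton]
    refine Nat.add_le_add_left ((card_union_le _ _).trans ?_) _
    exact Nat.add_le_add_left (card_union_le _ _) _
  have hG : range K ⊆ Good a N w M ∪ (Clo ∪
      (range K).filter (fun k => ¬ Open a N w (k + 1))) := by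
    intro k hk
    rw [mem_range] at hk
    by_cases h1 : Open a N w k
    · by_cases h2 : Open a N w (k + 1)
      · refine mem_union.2 (Or.inl ?_)
        rw [Good, mem_filter, mem_range]
        exact ⟨by omega, h1, h2⟩
      · exact mem_union.2 (Or.inr (mem_union.2 (Or.inr
          (mem_filter.2 ⟨mem_range.2 hk, h2⟩))))
    · exact mem_union.2 (Or.inr (mem_union.2 (Or.inl
        (mem_filter.2 ⟨mem_range.2 (by omega), h1⟩))))
  have hsh : ((range K).filter (fun k => ¬ Open a N w (k + 1))).card ≤ Clo.card := by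
    refine card_le_card_of_injOn (fun k => k + 1) (fun k hk => ?_) (fun x _ y _ hxy => ?_)
    · have hk' := mem_filter.1 hk
      have hk2 : k < K := mem_range.1 hk'.1
      exact mem_filter.2 ⟨mem_range.2 (Nat.succ_lt_succ hk2), hk'.2⟩
    · simpa using hxy
  have hfin : K ≤ (Good a N w M).card + (Clo.card + Clo.card) := by
    have h1 := card_le_card hG
    rw [card_range] at h1
    refine h1.trans ((card_union_le _ _).trans (Nat.add_le_add_left ?_ _))
    exact (card_union_le _ _).trans (Nat.add_le_add_left hsh _)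
  omega

end Pool.Agent.H979R2.P2
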