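import Pool.Agent.H979R2.NP.Main
import Pool.Agent.H979R2.P2.HWB
import Pool.Agent.H979R2.P2.HB2
import Pool.Agent.H979R2.P2.UNA
import Pool.Agent.H979R2.P2.BDC
import Pool.Agent.H979R2.P2.HVY
import Pool.Agent.H979R2.P2.WIN
import Pool.Agent.H979R2.P2.SUB
import Pool.Agent.H979R2.P2.EXT
import Pool.Agent.H979R2.P2.CVR
import Pool.Agent.H979R2.P2.NCX
import Pool.Agent.H979R2.P2.PAR
import Pool.Agent.H979R2.P2.KEY
import Pool.Agent.H979R2.P2.STEP
import Pool.Agent.H979R2.P2.ITER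
import Pool.Agent.H979R2.P2.RATE
import Pool.Agent.H979R2.P2.FRM
import Pool.Agent.H979R2.P2.TRX
import Pool.Agent.H979R2.P2.TRU
import Pool.Agent.H979R2.P2.SUBB
import Pool.Agent.H979R2.P2.FIN
import Pool.Agent.H979R2.P2.MOM
import Pool.Agent.H979R2.P2.Plain

/-!
# Almost power law for the self-avoiding walk on the square lattice: assembly
-/

set_option autoImplicit false

namespace Pool.Agent.H979R2.P2

open Pool.Agent.H725R2.SB

theorem plx (L : Lev (Om 2)) (h : ∀ v, L.F v = v 0) : PlB L :=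
  p_TRX Pool.Agent.H979R2.NP.sqr (fun _ _ => Iff.rfl)
    (Pool.Agent.H979R2.NP.uni Pool.Agent.H979R2.NP.sqr) L h

theorem plu (L : Lev (Om 2)) (h : ∀ v, L.F v = v 0 + v 1) : PlB L :=
  p_TRU Pool.Agent.H979R2.NP.dia (fun _ _ => Iff.rfl)
    (Pool.Agent.H979R2.NP.uni Pool.Agent.H979R2.NP.dia) L h

theorem key (Fr : Frame (Om 2)) : St_KEY Fr :=
  p_KEY Fr p_PAR (p_HWB Fr) (p_CVR p_HB2 p_WIN Fr) (p_HVY Fr p_UNA p_BDC)
    (p_EXT Fr p_SUB p_BDC) (p_NCX Fr.B)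

theorem rate2 : St_RATE := p_RATE (p_STEP key) p_ITER

theorem subb : St_SUBB := p_SUBB rate2 p_FRM plx plu

theorem fin : St_FIN := p_FIN subb

theorem mom : St_MOM := p_MOM fin

end Pool.Agent.H979R2.P2
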