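import Pool.Agent.H979R2.P2.Stubs

/-! Part II of the almost power law, task ITER: the iteration. -/

set_option autoImplicit false

namespace Pool.Agent.H979R2.P2

open Finset

theorem iter_log_small {L : ℝ} (hL : 1000 ≤ L) : Real.log L ≤ L / 20 := by
  have h1 : Real.log (L / 1000) ≤ L / 1000 - 1 := Real.log_le_sub_one_of_pos (by positivity)
  rw [Real.log_div (by positivity) (by norm_num)] at h1
  have h2 : Real.log 1000 ≤ 10 * Real.log 2 := by
    have : (10 : ℝ) * Real.log 2 = Real.log (2 ^ 10) := by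
      rw [Real.log_pow]; norm_num
    rw [this]
    exact Real.log_le_log (by norm_num) (by norm_num)
  have h3 := Real.log_two_lt_d9
  linarith

theorem iter_log_aux {u : ℝ} (hu : 0 ≤ u) : Real.log (1 + 10 * u) ≤ 4 + u / 2 := by
  have h1 : Real.log ((1 + 10 * u) / 20) ≤ (1 + 10 * u) / 20 - 1 :=
    Real.log_le_sub_one_of_pos (by positivity)
  rw [Real.log_div (by positivity) (by norm_num)] at h1
  have h2 : Real.log 20 ≤ 5 * Real.log 2 := by
    have : (5 : ℝ) * Real.log 2 = Real.log (2 ^ 5) := by
      rw [Real.log_pow]; norm_num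
    rw [this]
    exact Real.log_le_log (by norm_num) (by norm_num)
  have h3 := Real.log_two_lt_d9
  linarith

theorem iter_psi {x : ℝ} (hx : 0 < x) (hx1 : x < Real.exp (-1000)) :
    0 < Psi x ∧ x < Psi x ∧ 1000 < -Real.log x ∧
      -Real.log (Psi x) = -Real.log x - 10 * Real.log (-Real.log x) := by
  have h1 : Real.log x < -1000 := by
    rw [Real.log_lt_iff_lt_exp hx]; exact hx1
  have h2 : Real.log (1 / x) = -Real.log x := by rw [one_div, Real.log_inv]
  have hL : 1000 < -Real.log x := by linarith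
  have h3 : 0 < (-Real.log x) ^ 10 := by positivity
  have h4 : 1 < (-Real.log x) ^ 10 := one_lt_pow₀ (by linarith) (by norm_num)
  refine ⟨?_, ?_, hL, ?_⟩
  · unfold Psi; rw [h2]; positivity
  · unfold Psi; rw [h2]; nlinarith
  · unfold Psi; rw [h2, Real.log_mul hx.ne' h3.ne', Real.log_pow]
    push_cast
    ring

theorem p_ITER : St_ITER := by
  intro f g f0 f1 g1 fm gm fg l x₀ hl hx₀ step
  have hll : 0 < Real.log l := Real.log_pos hl
  have hl0 : 0 < l := by linarith
  set x1 : ℝ := min x₀ (Real.exp (-1000)) with hx1d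
  have hx10 : 0 < x1 := lt_min hx₀ (Real.exp_pos _)
  have hx1e : x1 ≤ Real.exp (-1000) := min_le_right _ _
  have hlx1 : 1000 ≤ -Real.log x1 := by
    have := Real.log_le_log hx10 hx1e
    rw [Real.log_exp] at this
    linarith
  set C1 : ℝ := -Real.log x1 + 6 + 2 / Real.log l with hC1
  have h2l : 0 < 2 / Real.log l := by positivity
  have hC11 : 1 ≤ C1 := by rw [hC1]; linarith
  have hlC1 : 0 ≤ Real.log C1 := Real.log_nonneg hC11
  refine ⟨C1 * (101 + 20 * Real.log C1), by positivity, fun v x hv hv1 hx hvx => ?_⟩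
  have hlv : Real.log v ≤ 0 := Real.log_nonpos hv.le hv1
  set Y : ℝ := 1 + Real.log (1 / v) with hY
  have hYv : Y = 1 + -Real.log v := by rw [hY, one_div, Real.log_inv]
  have hY1 : 1 ≤ Y := by rw [hYv]; linarith
  have hlY : 0 ≤ Real.log Y := Real.log_nonneg hY1
  have hYvv : Yv v = Y * (1 + Real.log Y) := by rw [Yv]
  have hYv1 : 1 ≤ Yv v := by
    rw [hYvv]; nlinarith
  rcases le_or_gt x1 x with hxx1 | hxx1
  · refine le_trans ?_ hxx1
    calc Real.exp (-(C1 * (101 + 20 * Real.log C1) * Yv v)) ≤ Real.exp (Real.log x1) := by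
          apply Real.exp_le_exp.2
          have e1 : C1 * 1 ≤ C1 * (101 + 20 * Real.log C1) :=
            mul_le_mul_of_nonneg_left (by linarith) (by linarith)
          have e2 : C1 * (101 + 20 * Real.log C1) * 1 ≤ C1 * (101 + 20 * Real.log C1) * Yv v :=
            mul_le_mul_of_nonneg_left hYv1 (by positivity)
          have e3 : -Real.log x1 ≤ C1 := by rw [hC1]; linarith
          linarith
      _ = x1 := Real.exp_log hx10
  suffices hmain : -Real.log x ≤ C1 * (101 + 20 * Real.log C1) * Yv v by
    calc Real.exp (-(C1 * (101 + 20 * Real.log C1) * Yv v)) ≤ Real.exp (Real.log x) :=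
          Real.exp_le_exp.2 (by linarith)
      _ = x := Real.exp_log hx
  obtain ⟨px0, pxx, pL, plog⟩ := iter_psi hx (hxx1.trans_le hx1e)
  -- the sequence
  set y : ℕ → ℝ := fun k => Psi^[k + 1] x with hy
  have hy00 : y 0 = Psi x := rfl
  have hys : ∀ k, y (k + 1) = Psi (y k) := by
    intro k
    simp only [hy]
    rw [Function.iterate_succ_apply']
  set z : ℝ := min x1 ((v / 2) ^ 5) with hz
  have hz0 : 0 < z := lt_min hx10 (by positivity)
  have hze : z ≤ Real.exp (-1000) := (min_le_left _ _).trans hx1e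
  have hpos : ∀ n, (∀ k < n, y k < z) → 0 < y n := by
    intro n
    induction n with
    | zero => intro _; rw [hy00]; exact px0
    | succ n ih =>
      intro h
      rw [hys]
      exact (iter_psi (ih fun k hk => h k (by omega)) ((h n (by omega)).trans_le hze)).1
  have hind : ∀ n, (∀ k < n, y k < z) → v ≤ f (y n) ∧ v ≤ g (y n) ∧
      v ^ 2 * l ^ n ≤ f (y n) * g (y n) := by
    intro n
    induction n with
    | zero =>
      intro _
      have h1 : v ≤ f (y 0) := hvx.trans (fm _ _ pxx.le)
      have h2 : v ≤ g (y 0) := hvx.trans (fg _ _ hx pxx)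
      refine ⟨h1, h2, ?_⟩
      rw [pow_zero, mul_one, sq]
      exact mul_le_mul h1 h2 hv.le (hv.le.trans h1)
    | succ n ih =>
      intro h
      obtain ⟨h1, h2, h3⟩ := ih fun k hk => h k (by omega)
      have h4 := h n (by omega)
      have hyn : 0 < y n := hpos n fun k hk => h k (by omega)
      have h5 : y n < x₀ := h4.trans_le ((min_le_left _ _).trans (min_le_left _ _))
      have h6 : y n < (v / 2) ^ 5 := h4.trans_le (min_le_right _ _)
      have h7 : 2 * (y n) ^ (1 / 5 : ℝ) ≤ v := by
        have b1 : (y n) ^ (1 / 5 : ℝ) ≤ ((v / 2) ^ 5) ^ (1 / 5 : ℝ) :=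
          Real.rpow_le_rpow hyn.le h6.le (by norm_num)
        have b2 : ((v / 2) ^ 5) ^ (1 / 5 : ℝ) = v / 2 := by
          rw [← Real.rpow_natCast, ← Real.rpow_mul (by positivity)]
          norm_num
        rw [b2] at b1
        linarith
      have hmon : y n ≤ y (n + 1) := by
        rw [hys]
        exact (iter_psi hyn (h4.trans_le hze)).2.1.le
      have m1 : f (y n) ≤ f (y (n + 1)) := fm _ _ hmon
      have m2 : g (y n) ≤ g (y (n + 1)) := gm _ _ hmon
      have s := step (y n) hyn h5 (h7.trans h1) (h7.trans h2)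
      rw [← hys] at s
      refine ⟨h1.trans m1, h2.trans m2, ?_⟩
      have hf0 : 0 ≤ f (y n) := f0 _
      have hg0 : 0 ≤ g (y n) := hv.le.trans h2
      have c1 : v ^ 2 * l ^ (n + 1) ≤ l * (f (y n) * g (y n)) := by
        calc v ^ 2 * l ^ (n + 1) = l * (v ^ 2 * l ^ n) := by ring
          _ ≤ l * (f (y n) * g (y n)) := mul_le_mul_of_nonneg_left h3 hl0.le
      refine c1.trans ?_
      rcases s with s | s
      · calc l * (f (y n) * g (y n)) = (l * f (y n)) * g (y n) := by ring
          _ ≤ f (y (n + 1)) * g (y (n + 1)) := mul_le_mul s m2 hg0 (hf0.trans m1)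
      · calc l * (f (y n) * g (y n)) = f (y n) * (l * g (y n)) := by ring
          _ ≤ f (y (n + 1)) * g (y (n + 1)) :=
            mul_le_mul m1 s (mul_nonneg hl0.le hg0) (hf0.trans m1)
  set K : ℕ := ⌊2 * (-Real.log v) / Real.log l⌋₊ + 1 with hK
  have hKr : 0 ≤ 2 * (-Real.log v) / Real.log l := by
    apply div_nonneg _ hll.le
    linarith
  have hK1 : 2 * (-Real.log v) / Real.log l < K := by
    rw [hK]
    push_cast
    exact Nat.lt_floor_add_one _
  have hK2 : (K : ℝ) ≤ 2 * (-Real.log v) / Real.log l + 1 := by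
    rw [hK]
    push_cast
    have := Nat.floor_le hKr
    linarith
  have hex0 : ∃ k < K, z ≤ y k := by
    by_contra hcon
    push Not at hcon
    obtain ⟨_, _, h3⟩ := hind K hcon
    have h4 : v ^ 2 * l ^ K ≤ 1 := h3.trans (mul_le_one₀ (f1 _) (hv.le.trans (hind K hcon).2.1) (g1 _))
    have h5 : Real.log (v ^ 2 * l ^ K) ≤ 0 := Real.log_nonpos (by positivity) h4
    rw [Real.log_mul (by positivity) (by positivity), Real.log_pow, Real.log_pow] at h5
    rw [div_lt_iff₀ hll] at hK1
    push_cast at h5
    linarith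
  have hex : ∃ k < K, z ≤ y k ∧ ∀ j < k, y j < z := by
    classical
    have hE : ∃ k, k < K ∧ z ≤ y k := by
      obtain ⟨k, hk, hzk⟩ := hex0
      exact ⟨k, hk, hzk⟩
    refine ⟨Nat.find hE, (Nat.find_spec hE).1, (Nat.find_spec hE).2, fun j hj => ?_⟩
    have := Nat.find_min hE hj
    by_contra hc
    push Not at hc
    exact this ⟨hj.trans (Nat.find_spec hE).1, hc⟩
  obtain ⟨k, hk, hzk, hlt⟩ := hex
  set a : ℝ := -Real.log x with ha
  have hla : 0 ≤ Real.log a := Real.log_nonneg (by linarith)
  -- `a_j ≤ a` and the telescoping bound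
  have hdesc : ∀ j ≤ k, -Real.log (y j) ≤ a ∧ a ≤ -Real.log (y j) + 10 * (j + 1) * Real.log a := by
    intro j
    induction j with
    | zero =>
      intro _
      rw [hy00, plog]
      constructor
      · linarith
      · push_cast; linarith
    | succ j ih =>
      intro hj
      obtain ⟨i1, i2⟩ := ih (by omega)
      have hyj : 0 < y j := hpos j fun t ht => hlt t (by omega)
      obtain ⟨q0, q1, q2, q3⟩ := iter_psi hyj ((hlt j (by omega)).trans_le hze)
      rw [hys, q3]
      have hl1 : 0 ≤ Real.log (-Real.log (y j)) := Real.log_nonneg (by linarith)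
      have hl2 : Real.log (-Real.log (y j)) ≤ Real.log a := Real.log_le_log (by linarith) i1
      constructor
      · linarith
      · push_cast
        nlinarith
  obtain ⟨_, hk2⟩ := hdesc k le_rfl
  have hlz : -Real.log (y k) ≤ -Real.log z := by
    have := Real.log_le_log hz0 hzk
    linarith
  have hlz2 : -Real.log z ≤ -Real.log x1 + 5 * Y := by
    rcases min_choice x1 ((v / 2) ^ 5) with h | h
    · rw [hz, h]; linarith
    · rw [hz, h, Real.log_pow, Real.log_div hv.ne' (by norm_num)]
      have := Real.log_two_lt_d9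
      rw [hYv]
      push_cast
      linarith
  have hlz3 : -Real.log z ≤ C1 * Y := by
    rw [hC1]
    have e1 : -Real.log x1 * 1 ≤ -Real.log x1 * Y := mul_le_mul_of_nonneg_left hY1 (by linarith)
    have e2 : 0 ≤ 2 / Real.log l * Y := by positivity
    nlinarith
  have hKC : (K : ℝ) ≤ C1 * Y := by
    refine hK2.trans ?_
    rw [hC1]
    have e1 : 2 * (-Real.log v) / Real.log l = 2 / Real.log l * (-Real.log v) := by ring
    have e2 : 2 / Real.log l * (-Real.log v) ≤ 2 / Real.log l * Y :=
      mul_le_mul_of_nonneg_left (by rw [hYv]; linarith) h2l.le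
    have e3 : 0 ≤ -Real.log x1 * Y := by positivity
    rw [e1]
    nlinarith
  set B : ℝ := C1 * Y with hB
  have hB1 : 1 ≤ B := by rw [hB]; nlinarith
  have hB0 : 0 < B := by linarith
  have hkK : ((k : ℝ) + 1) ≤ B := by
    have : (k : ℝ) + 1 ≤ K := by exact_mod_cast hk
    linarith
  have hab : a ≤ B * (1 + 10 * Real.log a) := by
    have e1 : 10 * ((k : ℝ) + 1) * Real.log a ≤ 10 * B * Real.log a :=
      mul_le_mul_of_nonneg_right (by linarith) hla
    nlinarith
  have hlog : Real.log a ≤ 2 * Real.log B + 8 := by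
    have e1 : Real.log a ≤ Real.log (B * (1 + 10 * Real.log a)) :=
      Real.log_le_log (by linarith) hab
    rw [Real.log_mul (by positivity) (by positivity)] at e1
    have e2 := iter_log_aux hla
    linarith
  have hlB : Real.log B = Real.log C1 + Real.log Y := by
    rw [hB, Real.log_mul (by positivity) (by positivity)]
  have hfin : a ≤ B * (81 + 20 * Real.log B) := by
    refine hab.trans (mul_le_mul_of_nonneg_left (by linarith) hB0.le)
  refine hfin.trans ?_
  rw [hYvv, hlB]
  have e1 : 81 + 20 * (Real.log C1 + Real.log Y) ≤ (101 + 20 * Real.log C1) * (1 + Real.log Y) := by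
    nlinarith [mul_nonneg hlC1 hlY]
  calc B * (81 + 20 * (Real.log C1 + Real.log Y))
      ≤ B * ((101 + 20 * Real.log C1) * (1 + Real.log Y)) :=
        mul_le_mul_of_nonneg_left e1 hB0.le
    _ = C1 * (101 + 20 * Real.log C1) * (Y * (1 + Real.log Y)) := by rw [hB]; ring

end Pool.Agent.H979R2.P2
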