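import Pool.Agent.H725R2.SB.Lattice
import Pool.Agent.H979R2.NP.Stubs

/-!
# Almost power law on the square lattice, Part II: definitions and statements (as propositions)
-/

set_option autoImplicit false

namespace Pool.Agent.H979R2.P2

open Finset
open Pool.Agent.H725R2.SB
open Pool.Agent.H979R2.NP (NCd hit D0 Yb)

/-- The reflection in direction `B` preserves `B'`. -/
def Ort (Fr : Frame (Om 2)) : Prop := ∀ v, Fr.B'.F (Fr.B.r v) = Fr.B'.F v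

open scoped Classical in
/-- Planar input: closed windows are expensive. -/
def PlB (L : Lev (Om 2)) : Prop := ∀ (N r w τ m k : ℕ), 1 ≤ r → 400 * r ≤ w →
  (((SawSet (Om 2) N).filter (fun ξ => IsBr L N ξ ∧ ∃ J : Finset ℕ, J ⊆ range m ∧ k ≤ J.card ∧
    ∀ j ∈ J, NCd (lev L ξ) N r w τ j)).card : ℝ) * (w : ℝ) ^ k ≤
  2 ^ m * (D0 r τ) ^ k * (cc (Om 2) N : ℝ)

/-- Linear force bound: speed `s` costs at least `m` per step. -/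
def Fo (L : Lev (Om 2)) (s m : ℝ) : Prop := ∀ (T : ℕ) (h : ℤ),
  (br L T h : ℝ) ≤ mu (Om 2) ^ T * Real.exp (-(m / s) * (h - s * T))

/-- A family of disjoint backtracks of size at least `r`. -/
structure HF (a : ℕ → ℤ) (N r : ℕ) (I : Finset (ℕ × ℕ)) : Prop where
  dj : Disj I
  bt : ∀ x ∈ I, ∃ p, BT a N p x.1 x.2
  sz : ∀ x ∈ I, (r : ℤ) ≤ a x.1 - a x.2

/-- total drop of a family -/
def drop (a : ℕ → ℤ) (I : Finset (ℕ × ℕ)) : ℤ := ∑ x ∈ I, (a x.1 - a x.2)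

/-- the times covered by a family of intervals -/
def cov (I : Finset (ℕ × ℕ)) : Finset ℕ := I.biUnion (fun x => Ico x.1 x.2)

/-- the upper cost -/
noncomputable def Psi (φ : ℝ) : ℝ := φ * (Real.log (1 / φ)) ^ 10

/-- loss function of the iteration -/
noncomputable def Yv (v : ℝ) : ℝ :=
  (1 + Real.log (1 / v)) * (1 + Real.log (1 + Real.log (1 / v)))

open scoped Classical in
/-- HWB: Hammersley-Welsh unfolding in direction `B`, keeping track of the level `A`. -/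
def St_HWB (Fr : Frame (Om 2)) : Prop := Ort Fr → ∀ (n : ℕ) (h : ℤ),
  ((SawSet (Om 2) n).filter (fun ξ => h ≤ lev Fr.A ξ n)).card ≤
    (n + 1) ^ (2 * (Nat.sqrt (2 * n) + 1)) *
    ((SawSet (Om 2) (n + 1)).filter (fun ξ => IsBr Fr.B (n + 1) ξ ∧
      h ≤ lev Fr.A ξ (n + 1))).card

open scoped Classical in
/-- HB2: the number of heavy levels is at most twice the total drop of a family of backtracks. -/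
def St_HB2 : Prop := ∀ (a : ℕ → ℤ), (∀ i, |a (i + 1) - a i| ≤ 1) → a 0 = 0 → ∀ (N r Lm : ℕ),
  1 ≤ r → (Lm : ℤ) ≤ a N → ∀ S : ℝ,
  (∀ I : Finset (ℕ × ℕ), HF a N r I → (drop a I : ℝ) ≤ S) →
  (((Finset.Icc (1 : ℤ) Lm).filter (fun p => ¬ Light a N r p)).card : ℝ) ≤ 2 * S

/-- UNA: unfolding all backtracks of a family. -/
def St_UNA : Prop := ∀ (L : Lev (Om 2)) (N r : ℕ) (ξ : ℕ → (Fin 2 → ℤ)) (I : Finset (ℕ × ℕ)),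
  1 ≤ r → IsSaw (Om 2) N ξ → HF (lev L ξ) N r I →
  IsSaw (Om 2) N (op L.r (cov I) ξ) ∧
    lev L (op L.r (cov I) ξ) N = lev L ξ N + 2 * drop (lev L ξ) I

/-- BDC: number of unions of at most `k` intervals. -/
def St_BDC : Prop := ∀ (N k : ℕ) (x : ℝ) (TT : Finset (Finset ℕ)), 0 < x → x ≤ 1 →
  (∀ T ∈ TT, T ⊆ range N ∧ ∃ I : Finset (ℕ × ℕ), I.card ≤ k ∧ T = cov I) →
  (TT.card : ℝ) ≤ (x⁻¹) ^ (2 * k) * (1 + x) ^ (N + 1)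

open scoped Classical in
/-- HVY: walks with many large backtracks. -/
def St_HVY (Fr : Frame (Om 2)) : Prop := ∀ (N r : ℕ) (v m : ℝ), Ort Fr → 0 < v → v ≤ 1 →
  0 < m → m ≤ 1 → 1 ≤ r → Fo Fr.A (lam * v) m →
  16 * v * Real.log (10 ^ 7 / m) ≤ m * r →
  (((SawSet (Om 2) N).filter (fun ξ => v * N - 1 ≤ (lev Fr.A ξ N : ℝ) ∧
    ∃ I : Finset (ℕ × ℕ), HF (lev Fr.B ξ) N r I ∧
      dl * v * N < (drop (lev Fr.B ξ) I : ℝ))).card : ℝ) ≤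
  (N + 1) * Real.exp (25 * (N : ℝ) ^ (3 / 4 : ℝ)) * mu (Om 2) ^ (N + 1) *
    Real.exp (6 + 2 / v) * Real.exp (-(3 / 10 ^ 6 * m * N))

open scoped Classical in
/-- WIN: counting windows. -/
def St_WIN : Prop := ∀ (a : ℕ → ℤ), (∀ i, |a (i + 1) - a i| ≤ 1) → a 0 = 0 →
  ∀ (N r w τ M : ℕ), 1 ≤ r → r ≤ w → 1000000 ≤ M → 27 * (w : ℤ) * M ≤ 5 * a N →
  80 * N ≤ M * τ →
  (∀ Lm : ℕ, (Lm : ℤ) ≤ a N → 5 * Lm ≤ 27 * w * M →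
    1000 * ((Finset.Icc (1 : ℤ) Lm).filter (fun p => ¬ Light a N r p)).card ≤ w * M) →
  (∃ J : Finset ℕ, J ⊆ range (2 * M) ∧ M ≤ 80 * J.card ∧ ∀ i ∈ J, NCd a N r w τ i) ∨
    2 * M ≤ 5 * (Good a N w M).card

/-- the subwalk along the times in `T` -/
noncomputable def sub (T : Finset ℕ) (ξ : ℕ → (Fin 2 → ℤ)) : ℕ → (Fin 2 → ℤ) :=
  fun i => if i < T.card then ξ (Nat.nth (· ∈ T) i) else 0

/-- SUB: subwalks between cut times are self-avoiding. -/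
def St_SUB : Prop := ∀ (L : Lev (Om 2)) (N : ℕ) (ξ : ℕ → (Fin 2 → ℤ)) (T : Finset ℕ),
  IsSaw (Om 2) N ξ → T ⊆ range N →
  (∀ i, i + 1 < N → ¬ (i ∈ T ↔ i + 1 ∈ T) → ∃ q, Cut (lev L ξ) N q (i + 1)) →
  IsSaw (Om 2) T.card (sub T ξ) ∧ P (sub T ξ) T.card = ∑ i ∈ T, ξ i

open scoped Classical in
/-- EXT: walks with many blocks of nonpositive `B'`-displacement. -/
def St_EXT (Fr : Frame (Om 2)) : Prop := ∀ (N r w M : ℕ) (v m : ℝ), 0 < v → v ≤ 1 →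
  0 < m → m ≤ 1 → 1 ≤ r → 400 * r ≤ w → 1000000 ≤ M → (M : ℝ) * (20 * w) ≤ v * N →
  v * N < ((M : ℝ) + 1) * (20 * w) → Fo Fr.A (lam * v) m → Fo Fr.B (1.45 * v / Fr.κ) m →
  16 * v * Real.log (10 ^ 7 / m) ≤ m * r →
  (((SawSet (Om 2) N).filter (fun ξ => v * N - 1 ≤ (lev Fr.A ξ N : ℝ) ∧
    M ≤ 1000 * ((Good (lev Fr.B ξ) N w M).filter (fun k => dB' Fr N w ξ k ≤ 0)).card)).card : ℝ) ≤
  (N + 1) * Real.exp (50 * (N : ℝ) ^ (3 / 4 : ℝ)) * mu (Om 2) ^ (N + 2) *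
    Real.exp (6 + 2 / v) * Real.exp (-(3 / 10 ^ 6 * m * N))

open scoped Classical in
/-- CVR: the deterministic covering. -/
def St_CVR (Fr : Frame (Om 2)) : Prop := ∀ (N r w τ M : ℕ) (v : ℝ) (ξ : ℕ → (Fin 2 → ℤ)),
  0 < v → v ≤ 1 → 1 ≤ r → 400 * r ≤ w → 1000000 ≤ M → (M : ℝ) * (20 * w) ≤ v * N →
  v * N < ((M : ℝ) + 1) * (20 * w) → 1700 * (w : ℝ) ≤ v * τ →
  IsBr Fr.B N ξ → v * N - 1 ≤ (lev Fr.A ξ N : ℝ) →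
  (1.455 * v * N ≤ Fr.κ * (lev Fr.B' ξ N : ℝ)) ∨
  (∃ I : Finset (ℕ × ℕ), HF (lev Fr.B ξ) N r I ∧ dl * v * N < (drop (lev Fr.B ξ) I : ℝ)) ∨
  (∃ J : Finset ℕ, J ⊆ range (2 * M) ∧ M ≤ 80 * J.card ∧
    ∀ i ∈ J, NCd (lev Fr.B ξ) N r w τ i) ∨
  M ≤ 1000 * ((Good (lev Fr.B ξ) N w M).filter (fun k => dB' Fr N w ξ k ≤ 0)).card ∨
  (2 * M ≤ 5 * (Good (lev Fr.B ξ) N w M).card ∧
    ∃ J : Finset ℕ, (∀ k, k ∈ J ↔ k ∈ Good (lev Fr.B ξ) N w M ∧ dB' Fr N w ξ k ≤ 0) ∧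
      1000 * J.card ≤ M)

open scoped Classical in
/-- NCX: walks with many closed windows. -/
def St_NCX (L : Lev (Om 2)) : Prop := PlB L → ∀ (N r w τ M : ℕ), 1 ≤ r → 400 * r ≤ w →
  2 ^ 240 * D0 r τ ≤ w →
  (((SawSet (Om 2) N).filter (fun ξ => IsBr L N ξ ∧ ∃ J : Finset ℕ, J ⊆ range (2 * M) ∧
    M ≤ 80 * J.card ∧ ∀ j ∈ J, NCd (lev L ξ) N r w τ j)).card : ℝ) * Real.exp (M / 5) ≤
  (cc (Om 2) N : ℝ)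

/-- PAR: choice of the parameters. -/
def St_PAR : Prop := ∃ φ₀ : ℝ, 0 < φ₀ ∧ ∀ φ v : ℝ, 0 < φ → φ < φ₀ → φ ^ (1 / 5 : ℝ) ≤ v →
  v ≤ 1 → Psi φ ≤ 1 ∧ 10 ^ 7 * φ ≤ Psi φ ∧ ∃ r w τ : ℕ, 1 ≤ r ∧ 400 * r ≤ w ∧
    16 * v * Real.log (10 ^ 7 / Psi φ) ≤ Psi φ * r ∧ 2 ^ 240 * D0 r τ ≤ w ∧
    1700 * (w : ℝ) ≤ v * τ ∧ 200 * φ * w ≤ v

/-- KEY: the contradiction. -/
def St_KEY (Fr : Frame (Om 2)) : Prop := Ort Fr → PlB Fr.B → ∃ φ₀ : ℝ, 0 < φ₀ ∧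
  ∀ φ v : ℝ, 0 < φ → φ < φ₀ → φ ^ (1 / 5 : ℝ) ≤ v → v ≤ 1 →
    (∃ N₀ : ℕ, 1 ≤ N₀ ∧ ∃ h₀ : ℤ, v * N₀ ≤ h₀ ∧
      mu (Om 2) ^ N₀ * Real.exp (-φ * N₀) ≤ (br Fr.A N₀ h₀ : ℝ)) →
    (∀ (T : ℕ) (h : ℤ), lam * v * T ≤ h →
      (br Fr.A T h : ℝ) ≤ mu (Om 2) ^ T * Real.exp (-(Psi φ) * T)) →
    (∀ (T : ℕ) (h : ℤ), 1.45 * v * T ≤ Fr.κ * h →
      (br Fr.B T h : ℝ) ≤ mu (Om 2) ^ T * Real.exp (-(Psi φ) * T)) → False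

/-- STEP: one step of the iteration. -/
def St_STEP : Prop := ∀ (F1 F2 : Frame (Om 2)), F1.κ = 1 → F2.κ = 2 → F2.A = F1.B →
  F2.B = F1.A → Ort F1 → Ort F2 → PlB F1.B → PlB F2.B → ∃ φ₀ : ℝ, 0 < φ₀ ∧
    ∀ φ : ℝ, 0 < φ → φ < φ₀ → 2 * φ ^ (1 / 5 : ℝ) ≤ vv F1.A φ → 2 * φ ^ (1 / 5 : ℝ) ≤ vv F1.B φ →
      (1 + 1 / 1000000) * vv F1.A φ ≤ vv F1.A (Psi φ) ∨
      (1 + 1 / 1000000) * vv F1.B φ ≤ vv F1.B (Psi φ)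

/-- ITER: the iteration. -/
def St_ITER : Prop := ∀ (f g : ℝ → ℝ), (∀ x, 0 ≤ f x) → (∀ x, f x ≤ 1) → (∀ x, g x ≤ 1) →
  (∀ x y, x ≤ y → f x ≤ f y) → (∀ x y, x ≤ y → g x ≤ g y) →
  (∀ x y, 0 < x → x < y → f x ≤ g y) → ∀ (l x₀ : ℝ), 1 < l → 0 < x₀ →
  (∀ x, 0 < x → x < x₀ → 2 * x ^ (1 / 5 : ℝ) ≤ f x → 2 * x ^ (1 / 5 : ℝ) ≤ g x →
    l * f x ≤ f (Psi x) ∨ l * g x ≤ g (Psi x)) →
  ∃ C : ℝ, 0 < C ∧ ∀ v x : ℝ, 0 < v → v ≤ 1 → 0 < x → v ≤ f x →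
    Real.exp (-(C * Yv v)) ≤ x

/-- RATE: the cost of speed `v`. -/
def St_RATE : Prop := ∀ (F1 F2 : Frame (Om 2)), F1.κ = 1 → F2.κ = 2 → F2.A = F1.B →
  F2.B = F1.A → Ort F1 → Ort F2 → PlB F1.B → PlB F2.B →
  ∃ C : ℝ, 0 < C ∧ ∀ v : ℝ, 0 < v → v ≤ 1 → ∀ (T : ℕ) (h : ℤ), v * T ≤ h →
    (br F1.A T h : ℝ) ≤ mu (Om 2) ^ T * Real.exp (-(Real.exp (-(C * Yv v))) * T)

/-- FRM: the two frames. -/
def St_FRM : Prop := ∃ F1 F2 : Frame (Om 2), F1.κ = 1 ∧ F2.κ = 2 ∧ F2.A = F1.B ∧ F2.B = F1.A ∧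
  Ort F1 ∧ Ort F2 ∧ (∀ v : Fin 2 → ℤ, F1.A.F v = v 0) ∧
  (∀ v : Fin 2 → ℤ, F1.B.F v = v 0 + v 1) ∧
  (∀ v : Fin 2 → ℤ, F2.B.r v 0 = - v 0 ∧ F2.B.r v 1 = v 1) ∧
  (∀ v : Fin 2 → ℤ, F1.B.r v 0 = - v 1 ∧ F1.B.r v 1 = - v 0)

/-- TRX: transfer of the planar input, level `x`. -/
def St_TRX : Prop := ∀ (X : Pool.Agent.H979R2.NP.PL),
  (∀ p q, X.adj p q ↔ Pool.Agent.H977R2.Adj p q) → Pool.Agent.H979R2.NP.St_UNI X →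
  ∀ L : Lev (Om 2), (∀ v, L.F v = v 0) → PlB L

/-- TRU: transfer of the planar input, level `x + y`. -/
def St_TRU : Prop := ∀ (X : Pool.Agent.H979R2.NP.PL),
  (∀ p q, X.adj p q ↔ (q.1 = p.1 + 1 ∨ q.1 = p.1 - 1) ∧ (q.2 = p.2 + 1 ∨ q.2 = p.2 - 1)) →
  Pool.Agent.H979R2.NP.St_UNI X →
  ∀ L : Lev (Om 2), (∀ v, L.F v = v 0 + v 1) → PlB L

/-- SUBB: large deviations. -/
def St_SUBB : Prop := ∃ C : ℝ, 0 < C ∧ ∀ v : ℝ, 0 < v → v ≤ 1 → ∀ N : ℕ, 1 ≤ N →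
  (cfar 2 N (v * N) : ℝ) ≤
    C * Real.exp (C * (N : ℝ) ^ (3 / 4 : ℝ) - Real.exp (-(C * Yv v)) * N) * cN 2 N

/-- FIN: the almost power law. -/
def St_FIN : Prop := ∃ c C : ℝ, 0 < c ∧ 0 < C ∧ ∀ N : ℕ, 16 ≤ N →
  (cfar 2 N ((N : ℝ) ^ (1 - c / Real.log (Real.log N))) : ℝ) ≤
    C * Real.exp (-(N : ℝ) ^ (4 / 5 : ℝ)) * cN 2 N

/-- MOM: mean square displacement. -/
def St_MOM : Prop := ∃ c C : ℝ, 0 < c ∧ 0 < C ∧ ∀ N : ℕ, 16 ≤ N →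
  ∑ᶠ w : {w : Fin (N + 1) → (Fin 2 → ℤ) // IsSAW 2 N w},
    (((w.1 (Fin.last N) 0 : ℤ) : ℝ) ^ 2 + ((w.1 (Fin.last N) 1 : ℤ) : ℝ) ^ 2) ≤
    C * (N : ℝ) ^ (2 - c / Real.log (Real.log N)) * cN 2 N

end Pool.Agent.H979R2.P2
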